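import Mathlib

/-! Commutative algebra: regularity of hypersurface local rings at the origin. -/

set_option autoImplicit false

open MvPolynomial IsLocalRing

namespace Pool.Agent.P.MP_25f57f_ag

/-- A quotient by an ideal inside the square of the maximal ideal that contains a non zero
divisor is not regular. -/
lemma not_regular_of_le_sq {S : Type} [CommRing S] [IsLocalRing S] [IsNoetherianRing S]
    (J : Ideal S) (hJ : J ≤ maximalIdeal S ^ 2) {r : S} (hr : r ∈ nonZeroDivisors S)
    (hrJ : r ∈ J) : ¬ IsRegularLocalRing (S ⧸ J) := by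
  intro hreg
  have h1 : ringKrullDim (S ⧸ J) + 1 ≤ ringKrullDim S :=
    ringKrullDim_succ_le_of_surjective (Ideal.Quotient.mk J) Ideal.Quotient.mk_surjective hr
      (Ideal.Quotient.eq_zero_iff_mem.2 hrJ)
  have h2 := hreg.spanFinrank_maximalIdeal
  have fg := (maximalIdeal (S ⧸ J)).fg_of_isNoetherianRing
  obtain ⟨t, ht, htspan⟩ := Submodule.FG.exists_span_finset_card_eq_spanFinrank fg
  classical
  choose l hl using Ideal.Quotient.mk_surjective (I := J)
  have hcomap : (maximalIdeal (S ⧸ J)).comap (Ideal.Quotient.mk J) = maximalIdeal S := by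
    have : ((maximalIdeal (S ⧸ J)).comap (Ideal.Quotient.mk J)).IsMaximal :=
      Ideal.comap_isMaximal_of_surjective _ Ideal.Quotient.mk_surjective
    exact eq_maximalIdeal this
  have hspan : Ideal.span (t.image l : Set S) ⊔ J = maximalIdeal S := by
    rw [← hcomap, ← htspan]
    have : Submodule.span (S ⧸ J) (t : Set (S ⧸ J)) =
        (Ideal.span (t.image l : Set S)).map (Ideal.Quotient.mk J) := by
      rw [Ideal.map_span, Finset.coe_image, ← Set.image_comp]
      have : (Ideal.Quotient.mk J) ∘ l = id := funext hl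
      rw [this, Set.image_id]
    rw [this, Ideal.comap_map_of_surjective _ Ideal.Quotient.mk_surjective,
      ← RingHom.ker_eq_comap_bot, Ideal.mk_ker]
  have hle : maximalIdeal S ≤ Ideal.span (t.image l : Set S) := by
    refine Submodule.le_of_le_smul_of_le_jacobson_bot (I := maximalIdeal S)
      (maximalIdeal S).fg_of_isNoetherianRing (maximalIdeal_le_jacobson _) ?_
    rw [smul_eq_mul, ← sq]
    exact hspan.ge.trans (sup_le_sup_left hJ _)
  have heq : maximalIdeal S = Ideal.span (t.image l : Set S) :=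
    le_antisymm hle (le_sup_left.trans hspan.le)
  have h3 : (maximalIdeal S).spanFinrank ≤ t.card := by
    rw [heq]
    refine (Submodule.spanFinrank_span_le_ncard_of_finite (Finset.finite_toSet _)).trans ?_
    rw [Set.ncard_coe_finset]
    exact Finset.card_image_le
  have h4 := ringKrullDim_le_spanFinrank_maximalIdeal S
  rw [← h2, ← ht] at h1
  have h5 : ((t.card : WithBot ℕ∞) + 1) ≤ t.card :=
    h1.trans (h4.trans (by exact_mod_cast h3))
  have h6 : t.card + 1 ≤ t.card := by exact_mod_cast h5
  omega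

variable {σ : Type} [Fintype σ]

/-- the ideal of the origin -/
noncomputable abbrev m0 (σ : Type) : Ideal (MvPolynomial σ ℂ) := vanishingIdeal ℂ {(0 : σ → ℂ)}

omit [Fintype σ] in
lemma mem_m0 {p : MvPolynomial σ ℂ} : p ∈ m0 σ ↔ eval 0 p = 0 := by
  rw [mem_vanishingIdeal_singleton_iff]; rfl

omit [Fintype σ] in
lemma sub_mem_span (p : MvPolynomial σ ℂ) :
    p - C (eval 0 p) ∈ Ideal.span (Set.range (X : σ → MvPolynomial σ ℂ)) := by
  induction p using MvPolynomial.induction_on with
  | C a => simp
  | add p q hp hq =>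
    have := Ideal.add_mem _ hp hq
    convert this using 1
    simp; ring
  | mul_X p s _ =>
    simp only [map_mul, eval_X, Pi.zero_apply, map_zero, mul_zero, sub_zero]
    exact Ideal.mul_mem_left _ _ (Ideal.subset_span ⟨s, rfl⟩)

omit [Fintype σ] in
lemma m0_eq : m0 σ = Ideal.span (Set.range (X : σ → MvPolynomial σ ℂ)) := by
  apply le_antisymm
  · intro p hp
    have := sub_mem_span p
    rwa [mem_m0.1 hp, map_zero, sub_zero] at this
  · rw [Ideal.span_le]
    rintro _ ⟨s, rfl⟩
    exact mem_m0.2 (by simp)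

lemma dim_m0 : ringKrullDim (Localization.AtPrime (m0 σ)) = Fintype.card σ := by
  have hd : ringKrullDim (MvPolynomial σ ℂ) = Fintype.card σ := by
    rw [MvPolynomial.ringKrullDim_of_isNoetherianRing, ringKrullDim_eq_zero_of_field, zero_add,
      Nat.card_eq_fintype_card]
  have : FiniteRingKrullDim (MvPolynomial σ ℂ) := by
    rw [finiteRingKrullDim_iff_ne_bot_and_top, hd]
    refine ⟨by simp, fun h => ?_⟩
    have h2 : ((Fintype.card σ : ℕ∞) : WithBot ℕ∞) = ((⊤ : ℕ∞) : WithBot ℕ∞) := h
    exact ENat.natCast_ne_top _ (WithBot.coe_injective h2)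
  obtain ⟨M, hM, hMh⟩ := Ideal.exists_isMaximal_height (R := MvPolynomial σ ℂ)
  obtain ⟨x, rfl⟩ := isMaximal_iff_eq_vanishingIdeal_singleton.1 hM
  let e : MvPolynomial σ ℂ ≃ₐ[ℂ] MvPolynomial σ ℂ :=
    AlgEquiv.ofAlgHom (aeval fun s => X s - C (x s)) (aeval fun s => X s + C (x s))
      (by ext s; simp) (by ext s; simp)
  have he : (vanishingIdeal ℂ {x}).comap e.toRingEquiv = m0 σ := by
    ext p
    rw [Ideal.mem_comap, mem_vanishingIdeal_singleton_iff, mem_vanishingIdeal_singleton_iff]
    have : (aeval x : MvPolynomial σ ℂ →ₐ[ℂ] ℂ).comp (aeval fun s => X s - C (x s)) =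
        aeval (0 : σ → ℂ) := by ext s; simp
    rw [← this]; rfl
  rw [IsLocalization.AtPrime.ringKrullDim_eq_height (m0 σ), ← he, RingEquiv.height_comap, hMh, hd]

lemma exists_linear_part (p : MvPolynomial σ ℂ) : ∃ a : σ → ℂ,
    p - C (eval 0 p) - ∑ s, C (a s) * X s ∈ m0 σ ^ 2 := by
  classical
  induction p using MvPolynomial.induction_on with
  | C a => exact ⟨0, by simp⟩
  | add p q hp hq =>
    obtain ⟨a, ha⟩ := hp
    obtain ⟨b, hb⟩ := hq
    refine ⟨a + b, ?_⟩
    convert Ideal.add_mem _ ha hb using 1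
    simp [add_mul, Finset.sum_add_distrib]; ring
  | mul_X p s _ =>
    refine ⟨Pi.single s (eval 0 p), ?_⟩
    have h1 : p - C (eval 0 p) ∈ m0 σ := mem_m0.2 (by simp)
    have h2 : (X s : MvPolynomial σ ℂ) ∈ m0 σ := mem_m0.2 (by simp)
    have h3 := Ideal.mul_mem_mul h1 h2
    rw [← sq] at h3
    convert h3 using 1
    rw [Finset.sum_eq_single s]
    · simp; ring
    · intro b _ hb; simp [Pi.single_eq_of_ne hb]
    · simp

/-- A polynomial vanishing on all coordinate axes lies in the square of the ideal of the origin. -/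
lemma mem_sq_of_axes [DecidableEq σ] {p : MvPolynomial σ ℂ}
    (h : ∀ (s : σ) (c : ℂ), eval (Pi.single s c) p = 0) [Nonempty σ] : p ∈ m0 σ ^ 2 := by
  obtain ⟨a, ha⟩ := exists_linear_part p
  have h0 : eval 0 p = 0 := by
    have := h (Classical.arbitrary σ) 0
    simpa using this
  have hz : ∀ s, a s = 0 := by
    intro s
    let φ : MvPolynomial σ ℂ →ₐ[ℂ] Polynomial ℂ := aeval (Pi.single s Polynomial.X)
    have hφ : φ p = 0 := by
      apply Polynomial.funext
      intro c
      have : (Polynomial.aeval c : Polynomial ℂ →ₐ[ℂ] ℂ).comp φ = aeval (Pi.single s c) := by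
        ext s'
        by_cases hs : s' = s
        · subst hs; simp [φ]
        · simp [φ, Pi.single_eq_of_ne hs]
      have h2 := DFunLike.congr_fun this p
      simp only [AlgHom.comp_apply, Polynomial.coe_aeval_eq_eval] at h2
      rw [h2, Polynomial.eval_zero]
      exact h s c
    have hm : (m0 σ).map φ ≤ Ideal.span {Polynomial.X} := by
      rw [m0_eq, Ideal.map_span, Ideal.span_le]
      rintro _ ⟨_, ⟨s', rfl⟩, rfl⟩
      by_cases hs : s' = s
      · subst hs; simp [φ]
      · simp [φ, Pi.single_eq_of_ne hs]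
    have h3 := Ideal.mem_map_of_mem φ ha
    rw [Ideal.map_pow] at h3
    have h4 := Ideal.pow_right_mono hm 2 h3
    rw [Ideal.span_singleton_pow, Ideal.mem_span_singleton, Polynomial.X_pow_dvd_iff] at h4
    have h5 := h4 1 (by norm_num)
    rw [map_sub, map_sub, hφ, h0, map_sum, Finset.sum_eq_single s] at h5
    · simpa [φ] using h5
    · intro b _ hb; simp [φ, Pi.single_eq_of_ne hb]
    · simp
  rw [h0] at ha
  simpa [hz] using ha

/-- the local ring at the origin of the algebraic set with ideal `I` -/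
abbrev LocQ (I : Ideal (MvPolynomial σ ℂ)) : Type :=
  Localization.AtPrime (m0 σ) ⧸ I.map (algebraMap _ (Localization.AtPrime (m0 σ)))

lemma not_regular_of_axes [DecidableEq σ] [Nonempty σ] {V : Set (σ → ℂ)}
    (hV : ∀ (s : σ) (c : ℂ), Pi.single s c ∈ V) {F : MvPolynomial σ ℂ} (hF : F ≠ 0)
    (hFV : F ∈ vanishingIdeal ℂ V) : ¬ IsRegularLocalRing (LocQ (vanishingIdeal ℂ V)) := by
  refine not_regular_of_le_sq _ ?_ (r := algebraMap _ _ F) ?_ (Ideal.mem_map_of_mem _ hFV)
  · rw [← Localization.AtPrime.map_eq_maximalIdeal, ← Ideal.map_pow]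
    exact Ideal.map_mono fun p hp => mem_sq_of_axes fun s c => hp _ (hV s c)
  · refine mem_nonZeroDivisors_of_ne_zero ?_
    rw [Ne, map_eq_zero_iff _ (IsLocalization.injective _ (m0 σ).primeCompl_le_nonZeroDivisors)]
    exact hF

omit [Fintype σ] in
lemma exists_pow_mul_mem [DecidableEq σ] {F α β : MvPolynomial σ ℂ} {t : σ}
    (hF : F = α * X t + β)
    (hα : ∀ u c, eval (Function.update u t c) α = eval u α)
    (hβ : ∀ u c, eval (Function.update u t c) β = eval u β) (hα0 : α ≠ 0)
    {h : MvPolynomial σ ℂ} (hh : ∀ u, eval u F = 0 → eval u h = 0) :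
    ∃ N : ℕ, α ^ N * h ∈ Ideal.span {F} := by
  have key : ∀ h : MvPolynomial σ ℂ, ∃ (N : ℕ) (r : MvPolynomial σ ℂ),
      α ^ N * h - r ∈ Ideal.span {F} ∧ ∀ u c, eval (Function.update u t c) r = eval u r := by
    intro h
    induction h using MvPolynomial.induction_on with
    | C a => exact ⟨0, C a, by simp, by simp⟩
    | add p q hp hq =>
      obtain ⟨N, r, h1, h2⟩ := hp
      obtain ⟨N', r', h1', h2'⟩ := hq
      refine ⟨N + N', α ^ N' * r + α ^ N * r', ?_, by simp [hα, h2, h2']⟩
      convert Ideal.add_mem _ (Ideal.mul_mem_left _ (α ^ N') h1)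
        (Ideal.mul_mem_left _ (α ^ N) h1') using 1
      ring
    | mul_X p s hp =>
      obtain ⟨N, r, h1, h2⟩ := hp
      by_cases hs : s = t
      · subst hs
        refine ⟨N + 1, -(r * β), ?_, by simp [hβ, h2]⟩
        convert Ideal.add_mem _ (Ideal.mul_mem_left _ (α * X s) h1)
          (Ideal.mul_mem_left _ r (Ideal.mem_span_singleton_self F)) using 1
        rw [hF]; ring
      · refine ⟨N, r * X s, ?_, by simp [h2, Function.update_of_ne hs]⟩
        convert Ideal.mul_mem_right (X s) _ h1 using 1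
        ring
  obtain ⟨N, r, h1, h2⟩ := key h
  have hr : r * α = 0 := by
    apply MvPolynomial.funext
    intro u
    rw [map_mul, map_zero]
    by_cases hu : eval u α = 0
    · rw [hu, mul_zero]
    · have hF0 : eval (Function.update u t (-(eval u β) / eval u α)) F = 0 := by
        rw [hF, map_add, map_mul, hα, hβ, eval_X, Function.update_self]
        field_simp; ring
      obtain ⟨q, hq⟩ := Ideal.mem_span_singleton'.1 h1
      have := congrArg (eval (Function.update u t (-(eval u β) / eval u α))) hq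
      rw [map_mul, hF0, map_sub, map_mul, hh _ hF0, h2] at this
      have h3 : eval u r = 0 := by simpa using this
      rw [h3, zero_mul]
  have hr0 : r = 0 := (mul_eq_zero.1 hr).resolve_right hα0
  exact ⟨N, by simpa [hr0] using h1⟩

lemma regular_of_linear [DecidableEq σ] {F α β : MvPolynomial σ ℂ} {t : σ}
    (hF : F = α * X t + β)
    (hα : ∀ u c, eval (Function.update u t c) α = eval u α)
    (hβ : ∀ u c, eval (Function.update u t c) β = eval u β) (hα0 : eval 0 α ≠ 0)
    (hF0 : eval 0 F = 0) {V : Set (σ → ℂ)} (hV : ∀ u, u ∈ V ↔ eval u F = 0) :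
    IsRegularLocalRing (LocQ (vanishingIdeal ℂ V)) := by
  set S := Localization.AtPrime (m0 σ) with hS
  have hαne : α ≠ 0 := fun h => hα0 (by simp [h])
  have hunit : IsUnit (algebraMap _ S α) :=
    IsLocalization.map_units S (⟨α, fun h => hα0 (mem_m0.1 h)⟩ : (m0 σ).primeCompl)
  have hI : (vanishingIdeal ℂ V).map (algebraMap _ S) = Ideal.span {algebraMap _ S F} := by
    apply le_antisymm
    · rw [Ideal.map_le_iff_le_comap]
      intro h hh
      obtain ⟨N, hN⟩ := exists_pow_mul_mem hF hα hβ hαne (h := h)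
        (fun u hu => hh u ((hV u).2 hu))
      have := Ideal.mem_map_of_mem (algebraMap _ S) hN
      rw [Ideal.map_span, Set.image_singleton, map_mul, map_pow] at this
      exact (Ideal.unit_mul_mem_iff_mem _ (hunit.pow N)).1 this
    · rw [Ideal.span_le, Set.singleton_subset_iff]
      exact Ideal.mem_map_of_mem _ fun u hu => (hV u).1 hu
  have hFm : algebraMap _ S F ∈ maximalIdeal S := by
    rw [← Localization.AtPrime.map_eq_maximalIdeal]
    exact Ideal.mem_map_of_mem _ (mem_m0.2 hF0)
  have hβ0 : eval 0 β = 0 := by simpa [hF] using hF0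
  have hFne : F ≠ 0 := by
    intro h
    have h1 := hβ 0 1
    have h2 := hα 0 1
    have h3 := congrArg (eval (Function.update (0 : σ → ℂ) t 1)) hF
    rw [h, map_zero, map_add, map_mul, h1, h2, hβ0, eval_X, Function.update_self] at h3
    exact hα0 (by simpa using h3.symm)
  have hnz : algebraMap _ S F ∈ nonZeroDivisors S := by
    refine mem_nonZeroDivisors_of_ne_zero ?_
    rw [Ne, map_eq_zero_iff _ (IsLocalization.injective _ (m0 σ).primeCompl_le_nonZeroDivisors)]
    exact hFne
  have hdim := ringKrullDim_quotient_span_singleton_succ_eq_ringKrullDim_of_mem_nonZeroDivisors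
    hnz hFm
  rw [dim_m0] at hdim
  change IsRegularLocalRing (S ⧸ (vanishingIdeal ℂ V).map (algebraMap _ S))
  rw [hI]
  set J := Ideal.span {algebraMap _ S F} with hJ
  have hJle : J ≤ maximalIdeal S := by rwa [hJ, Ideal.span_le, Set.singleton_subset_iff]
  have hJne : J ≠ ⊤ := fun h => (maximalIdeal.isMaximal S).ne_top (top_le_iff.1 (h ▸ hJle))
  have : Nontrivial (S ⧸ J) := Ideal.Quotient.nontrivial_iff.2 hJne
  have : IsLocalRing (S ⧸ J) := .of_surjective' _ Ideal.Quotient.mk_surjective
  apply IsRegularLocalRing.of_spanFinrank_maximalIdeal_le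
  let π : MvPolynomial σ ℂ →+* S ⧸ J := (Ideal.Quotient.mk J).comp (algebraMap _ S)
  let G : Finset (S ⧸ J) := by
    classical exact (Finset.univ.erase t).image fun s => π (X s)
  have hmax : maximalIdeal (S ⧸ J) = (m0 σ).map π := by
    rw [← Ideal.map_map, Localization.AtPrime.map_eq_maximalIdeal]
    exact (map_maximalIdeal_of_surjective _ Ideal.Quotient.mk_surjective).symm
  have hG : ∀ s, s ≠ t → π (X s) ∈ Ideal.span (G : Set (S ⧸ J)) := fun s hs =>
    Ideal.subset_span (by
      simp only [G, Finset.coe_image, Set.mem_image]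
      exact ⟨s, by simpa using hs, rfl⟩)
  have hkill : β = aeval (Function.update (X : σ → MvPolynomial σ ℂ) t 0) β := by
    apply MvPolynomial.funext
    intro u
    have : (aeval u : MvPolynomial σ ℂ →ₐ[ℂ] ℂ).comp
        (aeval (Function.update (X : σ → MvPolynomial σ ℂ) t 0)) =
        aeval (Function.update u t 0) := by
      ext s
      by_cases hs : s = t
      · subst hs; simp
      · simp [Function.update_of_ne hs]
    have h2 := DFunLike.congr_fun this β
    simp only [AlgHom.comp_apply, aeval_eq_eval] at h2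
    rw [h2, hβ]
  have hβG : π β ∈ Ideal.span (G : Set (S ⧸ J)) := by
    have h1 : β ∈ Ideal.span (Set.range (X : σ → MvPolynomial σ ℂ)) := m0_eq ▸ mem_m0.2 hβ0
    rw [hkill]
    have h2 : Ideal.span (Set.range (X : σ → MvPolynomial σ ℂ)) ≤
        ((Ideal.span (G : Set (S ⧸ J))).comap π).comap
          (aeval (Function.update (X : σ → MvPolynomial σ ℂ) t 0) :
            MvPolynomial σ ℂ →ₐ[ℂ] MvPolynomial σ ℂ) := by
      rw [Ideal.span_le]
      rintro _ ⟨s, rfl⟩
      simp only [SetLike.mem_coe, Ideal.mem_comap, aeval_X]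
      by_cases hs : s = t
      · subst hs; simp
      · rw [Function.update_of_ne hs]; exact hG s hs
    exact h2 h1
  have hspan : maximalIdeal (S ⧸ J) ≤ Ideal.span (G : Set (S ⧸ J)) := by
    rw [hmax, Ideal.map_le_iff_le_comap]
    refine m0_eq.le.trans ?_
    rw [Ideal.span_le]
    rintro _ ⟨s, rfl⟩
    rw [SetLike.mem_coe, Ideal.mem_comap]
    by_cases hs : s = t
    · subst hs
      have h1 : π F = 0 := Ideal.Quotient.eq_zero_iff_mem.2 (Ideal.mem_span_singleton_self _)
      have h2 : π α * π (X s) = - π β := by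
        rw [hF, map_add, map_mul] at h1
        linear_combination h1
      have h3 : IsUnit (π α) := hunit.map (Ideal.Quotient.mk J)
      refine (Ideal.unit_mul_mem_iff_mem _ h3).1 ?_
      rw [h2]
      exact neg_mem hβG
    · exact hG s hs
  have hspan' : maximalIdeal (S ⧸ J) = Ideal.span (G : Set (S ⧸ J)) := by
    refine le_antisymm hspan ?_
    rw [hmax, Ideal.span_le]
    intro y hy
    simp only [G, Finset.coe_image, Set.mem_image] at hy
    obtain ⟨s, -, rfl⟩ := hy
    exact Ideal.mem_map_of_mem _ (mem_m0.2 (by simp))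
  have hcard : (maximalIdeal (S ⧸ J)).spanFinrank + 1 ≤ Fintype.card σ := by
    rw [hspan']
    have h1 := Submodule.spanFinrank_span_le_ncard_of_finite (R := S ⧸ J) (Finset.finite_toSet G)
    rw [Set.ncard_coe_finset] at h1
    have h2 : G.card ≤ (Finset.univ.erase t).card := by
      classical exact Finset.card_image_le
    rw [Finset.card_erase_of_mem (Finset.mem_univ _), Finset.card_univ] at h2
    have h3 : 0 < Fintype.card σ := Fintype.card_pos_iff.2 ⟨t⟩
    have h4 : (Ideal.span (G : Set (S ⧸ J))).spanFinrank ≤ G.card := h1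
    omega
  have h5 : ((maximalIdeal (S ⧸ J)).spanFinrank : WithBot ℕ∞) + 1 ≤ ringKrullDim (S ⧸ J) + 1 := by
    rw [hdim]; exact_mod_cast hcard
  exact ENat.WithBot.add_le_add_one_right_iff.1 h5

end Pool.Agent.P.MP_25f57f_ag
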