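import Mathlib

set_option autoImplicit false

open MvPolynomial Matrix

namespace Pool.Agent.P.MP_25f57f_ag

noncomputable section

/-- `c` is a `(p,q)`-clan; `Sum.inl 1` is the sign plus, `Sum.inl (-1)` the sign minus and
`Sum.inr k` the natural number `k`. -/
def IsClan (p q : ℕ) (c : Fin (p + q) → Units ℤ ⊕ ℕ) : Prop :=
  (∀ k : ℕ, {i | c i = Sum.inr k}.ncard = 0 ∨ {i | c i = Sum.inr k}.ncard = 2) ∧
    ({i | c i = Sum.inl 1}.ncard : ℤ) - ({i | c i = Sum.inl (-1)}.ncard : ℤ) = (p : ℤ) - (q : ℤ)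

/-- `(i, j)` is an arc of `c`. -/
def IsArc {n : ℕ} (c : Fin n → Units ℤ ⊕ ℕ) (i j : Fin n) : Prop :=
  i < j ∧ ∃ k : ℕ, c i = Sum.inr k ∧ c j = Sum.inr k

/-- The Borel subgroup of upper triangular matrices. -/
def borel (n : ℕ) : Subgroup (GeneralLinearGroup (Fin n) ℂ) where
  carrier := {g | (g : Matrix (Fin n) (Fin n) ℂ).BlockTriangular id}
  one_mem' := blockTriangular_one
  mul_mem' := BlockTriangular.mul
  inv_mem' {g} hg := by
    have := g.invertible
    simpa using blockTriangular_inv_of_blockTriangular hg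

/-- The flag variety `G/B`. -/
def FlagVar (n : ℕ) : Type := GeneralLinearGroup (Fin n) ℂ ⧸ borel n

/-- The projection `g ↦ gB`. -/
def toFlag {n : ℕ} (g : GeneralLinearGroup (Fin n) ℂ) : FlagVar n := QuotientGroup.mk g

/-- The Zariski topology of `G/B`: the quotient of the Zariski topology of `G`. -/
instance (n : ℕ) : TopologicalSpace (FlagVar n) :=
  TopologicalSpace.coinduced toFlag (TopologicalSpace.induced
    (fun g : GeneralLinearGroup (Fin n) ℂ => pointToPoint (k := ℂ)
      (fun ij : Fin n × Fin n => (g : Matrix (Fin n) (Fin n) ℂ) ij.1 ij.2))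
    PrimeSpectrum.zariskiTopology)

/-- The involution `diag(I_p, -I_q)`, whose centraliser is `K = GL_p × GL_q`. -/
def theta (p q : ℕ) : Matrix (Fin (p + q)) (Fin (p + q)) ℂ :=
  diagonal fun i => if (i : ℕ) < p then 1 else -1

/-- The `K`-orbit of the clan `c`: the flags `gB` with the columns `v_i` of `g` satisfying
`θ v_i = ± v_i` at the signs and `θ v_i = v_j` at the arcs `(i, j)`. -/
def orbit (p q : ℕ) (c : Fin (p + q) → Units ℤ ⊕ ℕ) : Set (FlagVar (p + q)) :=
  {x | ∃ g : GeneralLinearGroup (Fin (p + q)) ℂ, toFlag g = x ∧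
    (∀ (i : Fin (p + q)) (ε : Units ℤ), c i = Sum.inl ε →
      (theta p q).mulVec (fun r => g.val r i) = ((ε : ℤ) : ℂ) • fun r => g.val r i) ∧
    (∀ i j : Fin (p + q), IsArc c i j →
      (theta p q).mulVec (fun r => g.val r i) = fun r => g.val r j)}

/-- Positions below the diagonal. -/
abbrev Low (n : ℕ) : Type := {ij : Fin n × Fin n // ij.2 < ij.1}

/-- The lower unitriangular matrix with entries `u` below the diagonal. -/
def unitri {n : ℕ} (u : Low n → ℂ) : Matrix (Fin n) (Fin n) ℂ :=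
  of fun i j => if h : j < i then u ⟨(i, j), h⟩ else if i = j then 1 else 0

/-- `Y` read in the affine chart `u ↦ g u B` (`u` lower unitriangular) centred at `gB`. -/
def chart {n : ℕ} (Y : Set (FlagVar n)) (g : GeneralLinearGroup (Fin n) ℂ) : Set (Low n → ℂ) :=
  {u | ∃ h : GeneralLinearGroup (Fin n) ℂ, h.val = g.val * unitri u ∧ toFlag h ∈ Y}

/-- The local ring of `R/I` at the prime `m` is not regular. -/
def NotRegularAt {R : Type} [CommRing R] (m : Ideal R) [m.IsPrime] (I : Ideal R) : Prop :=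
  ¬ IsRegularLocalRing (Localization.AtPrime m ⧸ I.map (algebraMap R (Localization.AtPrime m)))

/-- The singular locus: points `gB` of `Y` where the local ring of `Y` is not regular. -/
def sing {n : ℕ} (Y : Set (FlagVar n)) : Set (FlagVar n) :=
  {x | x ∈ Y ∧ ∃ g : GeneralLinearGroup (Fin n) ℂ, toFlag g = x ∧
    NotRegularAt (vanishingIdeal ℂ {(0 : Low n → ℂ)}) (vanishingIdeal ℂ (chart Y g))}

end

end Pool.Agent.P.MP_25f57f_ag
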