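import Pool.Agent.P.MP_25f57f_ag.Gen2

/-! The family of determinantal orbit closures: the sets and their singular loci. -/

set_option autoImplicit false

open MvPolynomial Matrix

namespace Pool.Agent.P.MP_25f57f_ag.Fam

noncomputable section

variable {n : ℕ}

/-- the set of flags defined by a condition on matrices -/
def Sset (f : Matrix (Fin n) (Fin n) ℂ → Prop) : Set (FlagVar n) :=
  {x | ∃ g : GL (Fin n) ℂ, toFlag g = x ∧ f g.val}

lemma mem_S {f : Matrix (Fin n) (Fin n) ℂ → Prop}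
    (hf : ∀ M b : Matrix (Fin n) (Fin n) ℂ, (∀ i j, j < i → b i j = 0) → f M → f (M * b))
    (g : GL (Fin n) ℂ) : toFlag g ∈ Sset f ↔ f g.val := by
  refine ⟨?_, fun h => ⟨g, rfl, h⟩⟩
  rintro ⟨g', hg', h⟩
  obtain ⟨b, hb, he⟩ := exists_borel hg'
  exact he ▸ hf _ b hb h

/-- positions in the lower left block -/
def Blk (p : ℕ) (r c : Fin n) : Prop := p ≤ (r : ℕ) ∧ (c : ℕ) + 1 < p

instance (p : ℕ) (r c : Fin n) : Decidable (Blk p r c) := by unfold Blk; infer_instance

/-- the block has rank at most one -/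
def fY (p : ℕ) (A : Matrix (Fin n) (Fin n) ℂ) : Prop :=
  ∃ a b : Fin n → ℂ, ∀ r c, Blk p r c → A r c = b c * a r

/-- the block vanishes -/
def fZ (p : ℕ) (A : Matrix (Fin n) (Fin n) ℂ) : Prop := ∀ r c, Blk p r c → A r c = 0

variable {p : ℕ}

lemma fZ.fY {A : Matrix (Fin n) (Fin n) ℂ} (h : fZ p A) : fY p A :=
  ⟨0, 0, fun r c e => by simp [h r c e]⟩

lemma fY_iff (A : Matrix (Fin n) (Fin n) ℂ) : fY p A ↔
    ∀ r c r' c', Blk p r c → Blk p r' c' → A r c * A r' c' - A r c' * A r' c = 0 := by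
  constructor
  · rintro ⟨a, b, h⟩ r c r' c' e e'
    rw [h r c e, h r' c' e', h r c' ⟨e.1, e'.2⟩, h r' c ⟨e'.1, e.2⟩]; ring
  · intro h
    obtain ⟨a, b, e⟩ := R1.factor (N := fun r c => if Blk p r c then A r c else 0) (by
      intro r r' c c'
      by_cases e1 : p ≤ (r : ℕ) <;> by_cases e2 : p ≤ (r' : ℕ) <;>
        by_cases e3 : (c : ℕ) + 1 < p <;> by_cases e4 : (c' : ℕ) + 1 < p <;>
        simp only [Blk, e1, e2, e3, e4, and_self, and_true, and_false, if_true, if_false,
          mul_zero, zero_mul]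
      exact sub_eq_zero.1 (h r c r' c' ⟨e1, e3⟩ ⟨e2, e4⟩))
    exact ⟨a, b, fun r c hb => by simpa [hb] using e r c⟩

lemma fY.right (M b : Matrix (Fin n) (Fin n) ℂ) (hb : ∀ i j, j < i → b i j = 0) (h : fY p M) :
    fY p (M * b) := by
  obtain ⟨x, y, h⟩ := h
  refine ⟨x, fun c => ∑ k, y k * b k c, fun r c e => ?_⟩
  rw [mul_apply, Finset.sum_mul]
  refine Finset.sum_congr rfl fun k _ => ?_
  by_cases hk : c < k
  · simp [hb k c hk]
  · rw [h r k ⟨e.1, by have := e.2; omega⟩]; ring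

lemma fZ.right (M b : Matrix (Fin n) (Fin n) ℂ) (hb : ∀ i j, j < i → b i j = 0) (h : fZ p M) :
    fZ p (M * b) := by
  intro r c e
  rw [mul_apply]
  refine Finset.sum_eq_zero fun k _ => ?_
  by_cases hk : c < k
  · simp [hb k c hk]
  · rw [h r k ⟨e.1, by have := e.2; omega⟩, zero_mul]

lemma mem_Y (g : GL (Fin n) ℂ) : toFlag g ∈ Sset (fY p) ↔ fY p g.val := mem_S fY.right g

lemma mem_Z (g : GL (Fin n) ℂ) : toFlag g ∈ Sset (fZ p) ↔ fZ p g.val := mem_S fZ.right g

lemma isClosed_Y : IsClosed (Sset (n := n) (fY p)) := by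
  rw [isClosed_iff]
  intro g hg
  rw [mem_Y, fY_iff]
  intro r c r' c' e e'
  have := hg (X (r, c) * X (r', c') - X (r, c') * X (r', c)) fun g' hg' => by
    simpa [ent] using (fY_iff _).1 ((mem_Y g').1 hg') r c r' c' e e'
  simpa [ent] using this

lemma isClosed_Z : IsClosed (Sset (n := n) (fZ p)) := by
  rw [isClosed_iff]
  intro g hg
  rw [mem_Z]
  intro r c e
  simpa [ent] using hg (X (r, c)) fun g' hg' => by simpa [ent] using (mem_Z g').1 hg' r c e

lemma not_regular_Z (hp : 3 ≤ p) (hn : p + 2 ≤ n) (g : GL (Fin n) ℂ) (hg : fZ p g.val) :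
    ¬ IsRegularLocalRing (LocQ (vanishingIdeal ℂ (chart (Sset (fY p)) g))) := by
  let i0 : Fin n := ⟨0, by omega⟩
  let i1 : Fin n := ⟨1, by omega⟩
  let a : Fin n := ⟨p, by omega⟩
  let b : Fin n := ⟨p + 1, by omega⟩
  have h01 : i0 ≠ i1 := by simp [i0, i1]
  have : Nonempty (Low n) := ⟨⟨(i1, i0), by simp [i0, i1, Fin.lt_def]⟩⟩
  have ea0 : Blk p a i0 := ⟨le_rfl, by simp [i0]; omega⟩
  have ea1 : Blk p a i1 := ⟨le_rfl, by simp [i1]; omega⟩
  have eb0 : Blk p b i0 := ⟨by simp [b], ea0.2⟩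
  have eb1 : Blk p b i1 := ⟨by simp [b], ea1.2⟩
  let F := chartX g.val a i0 * chartX g.val b i1 - chartX g.val a i1 * chartX g.val b i0
  have hF : ∀ u, eval u F = (g.val * unitri u) a i0 * (g.val * unitri u) b i1 -
      (g.val * unitri u) a i1 * (g.val * unitri u) b i0 := fun u => by
    simp only [F, map_sub, map_mul, eval_chartX]
  refine not_regular_of_axes (F := F) ?_ ?_ (fun u hu => ?_)
  · intro s c
    rw [mem_chart mem_Y]
    have : (Pi.single s c : Low n → ℂ) = Function.update (0 : Low n → ℂ) s c := rfl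
    refine ⟨fun r => g.val r s.1.1, fun j => if j = s.1.2 then c else 0, fun r j e => ?_⟩
    rw [this, mul_unitri_update, unitri_zero, Matrix.mul_one, hg r j e]
    by_cases hj : j = s.1.2 <;> simp [hj]
  · intro h0
    apply not_all_minors g (a := a) (b := b) (by simp [a, b])
    intro k l
    by_cases hk : (k : ℕ) + 1 < p
    · rw [hg a k ⟨ea0.1, hk⟩, hg b k ⟨eb0.1, hk⟩]; ring
    by_cases hl : (l : ℕ) + 1 < p
    · rw [hg a l ⟨ea0.1, hl⟩, hg b l ⟨eb0.1, hl⟩]; ring
    have h := hF (Function.update (Function.update 0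
      ⟨(k, i0), by simp only [i0, Fin.lt_def]; omega⟩ 1) ⟨(l, i1), by simp only [i1, Fin.lt_def]; omega⟩ 1)
    rw [h0, map_zero] at h
    simp only [mul_unitri_update, unitri_zero, Matrix.mul_one, hg _ _ ea0, hg _ _ ea1, hg _ _ eb0,
      hg _ _ eb1] at h
    rw [Function.update_of_ne (by simp [h01.symm])] at h
    simp [h01, h01.symm] at h
    linear_combination -h
  · rw [aeval_eq_eval, hF]
    exact (fY_iff _).1 ((mem_chart mem_Y g u).1 hu) _ _ _ _ ea0 eb1

lemma regular_off_Z (g : GL (Fin n) ℂ) (hf : fY p g.val) (hg : ¬ fZ p g.val) :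
    IsRegularLocalRing (LocQ (vanishingIdeal ℂ (chart (Sset (fY p)) g))) := by
  simp only [fZ, not_forall] at hg
  obtain ⟨r0, c0, e0, h0⟩ := hg
  let ι := {x : Fin n × Fin n // Blk p x.1 x.2 ∧ x.1 ≠ r0 ∧ x.2 ≠ c0}
  let φ := (Fintype.equivFin ι).symm
  let F : ι → MvPolynomial (Fin n × Fin n) ℂ := fun x =>
    X (r0, c0) * X (x.1.1, x.1.2) - X (r0, x.1.2) * X (x.1.1, c0)
  refine regular_chart mem_Y fY.right (fun i => F (φ i)) (X (r0, c0)) (fun M hM i => ?_)
    (fun M h1 h2 => ?_) g hf (by simpa [ent] using h0) (fun c hc => ?_)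
  · simpa [F, ent] using (fY_iff _).1 hM _ _ _ _ e0 (φ i).2.1
  · have h1' : M r0 c0 ≠ 0 := by simpa [ent] using h1
    refine ⟨fun r => M r c0, fun c => M r0 c / M r0 c0, fun r c e => ?_⟩
    by_cases hr : r = r0
    · subst hr; field_simp
    by_cases hc : c = c0
    · subst hc; field_simp
    have := h2 (φ.symm ⟨(r, c), e, hr, hc⟩)
    simp only [Equiv.apply_symm_apply, F, map_sub, map_mul, eval_X, ent] at this
    field_simp
    linear_combination this
  · funext i
    have key : ∀ j, dd (ent g.val) (ent (single (φ i).1.1 (φ i).1.2 (1 : ℂ))) (F (φ j)) =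
        if j = i then g.val r0 c0 else 0 := fun j => by
      refine dd_affine (c0 := eval (ent g.val) (F (φ j))) fun t => ?_
      have a1 := (φ i).2.2.1
      have a2 := (φ i).2.2.2
      simp only [F, map_sub, map_mul, eval_X, ent, Pi.add_apply, Pi.smul_apply, smul_eq_mul,
        single_apply, a1, a2, false_and, and_false, if_false]
      by_cases hj : j = i
      · subst hj; simp; ring
      · have : ¬ ((φ i).1.1 = (φ j).1.1 ∧ (φ i).1.2 = (φ j).1.2) := fun e =>
          hj (φ.injective (Subtype.ext (Prod.ext e.1 e.2))).symm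
        simp [hj, this]
    have := hc (single (φ i).1.1 (φ i).1.2 (1 : ℂ))
    simp only [key, mul_ite, mul_zero, Finset.sum_ite_eq', Finset.mem_univ, if_true] at this
    exact (mul_eq_zero.1 this).resolve_right h0

lemma sing_Y (hp : 3 ≤ p) (hn : p + 2 ≤ n) : sing (Sset (n := n) (fY p)) = Sset (fZ p) := by
  ext x
  constructor
  · rintro ⟨hx, g, rfl, hreg⟩
    by_contra hZ
    exact hreg (regular_off_Z g ((mem_Y g).1 hx) (mt (mem_Z g).2 hZ))
  · rintro ⟨g, rfl, hg⟩
    exact ⟨(mem_Y g).2 hg.fY, g, rfl, not_regular_Z hp hn g hg⟩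

lemma isIrreducible_Z : IsIrreducible (Sset (n := n) (fZ p)) := by
  constructor
  · refine ⟨toFlag 1, (mem_Z 1).2 fun r c e => one_apply_ne fun h => ?_⟩
    have := e.1
    have := e.2
    omega
  · refine isPreirreducible_of_linear {x | Blk p x.1 x.2} fun g => ?_
    rw [mem_Z]
    exact ⟨fun h ij e => h _ _ e, fun h r c e => h (r, c) e⟩

end

end Pool.Agent.P.MP_25f57f_ag.Fam
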