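import Pool.Agent.P.MP_25f57f_ag.Fam1

/-! The family of determinantal orbit closures: the two orbits and their closures. -/

set_option autoImplicit false
set_option linter.unusedSectionVars false
set_option linter.unnecessarySeqFocus false

open MvPolynomial Matrix

namespace Pool.Agent.P.MP_25f57f_ag.Fam

noncomputable section

variable {p q : ℕ}

/-- the clan `1 +...+ 2 -...- 2 1` -/
def gam (p q : ℕ) (k : Fin (p + q)) : ℤˣ ⊕ ℕ :=
  if (k : ℕ) = 0 ∨ (k : ℕ) + 1 = p + q then Sum.inr 1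
  else if (k : ℕ) + 1 = p ∨ (k : ℕ) + 2 = p + q then Sum.inr 2
  else if (k : ℕ) < p then Sum.inl 1 else Sum.inl (-1)

/-- the clan `+...+ 1 -...- 1` -/
def alp (p q : ℕ) (k : Fin (p + q)) : ℤˣ ⊕ ℕ :=
  if (k : ℕ) + 1 = p ∨ (k : ℕ) + 1 = p + q then Sum.inr 1
  else if (k : ℕ) < p then Sum.inl 1 else Sum.inl (-1)

lemma th_sq : theta p q * theta p q = 1 := by
  rw [theta, diagonal_mul_diagonal, ← diagonal_one]
  congr 1
  funext i
  split_ifs <;> simp

lemma th_fix {v : Fin (p + q) → ℂ} :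
    theta p q *ᵥ v = (1 : ℂ) • v ↔ ∀ r : Fin (p + q), p ≤ (r : ℕ) → v r = 0 := by
  rw [theta, one_smul]
  constructor
  · intro h r hr
    have := congrFun h r
    rw [mulVec_diagonal, if_neg (by omega)] at this
    linear_combination (-1 / 2 : ℂ) * this
  · intro h
    funext r
    rw [mulVec_diagonal]
    split_ifs with hr
    · simp
    · simp [h r (by omega)]

lemma th_neg {v : Fin (p + q) → ℂ} (h : ∀ r : Fin (p + q), (r : ℕ) < p → v r = 0) :
    theta p q *ᵥ v = (-1 : ℂ) • v := by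
  funext r
  rw [theta, mulVec_diagonal]
  split_ifs with hr
  · simp [h r hr]
  · simp

/-- the upper left block -/
def tl {R : Type} (A : Matrix (Fin (p + q)) (Fin (p + q)) R) : Matrix (Fin p) (Fin p) R :=
  A.submatrix (Fin.castAdd q) (Fin.castAdd q)

lemma exists_neg (A : Matrix (Fin (p + q)) (Fin (p + q)) ℂ) (h : (tl A).det ≠ 0) (j : Fin (p + q))
    (hj : p ≤ (j : ℕ)) : ∃ v : Fin (p + q) → ℂ, (∀ r, j < r → v r = 0) ∧ v j ≠ 0 ∧
      theta p q *ᵥ (A *ᵥ v) = (-1 : ℂ) • (A *ᵥ v) := by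
  let u : Fin p → ℂ := (tl A)⁻¹ *ᵥ fun r => A (Fin.castAdd q r) j
  have hu : tl A *ᵥ u = fun r => A (Fin.castAdd q r) j := by
    rw [mulVec_mulVec, mul_nonsing_inv _ (Ne.isUnit h), one_mulVec]
  let w : Fin (p + q) → ℂ := Fin.append u 0
  have hw : ∀ r : Fin (p + q), p ≤ (r : ℕ) → w r = 0 := fun r hr => by
    have : r = Fin.natAdd p ⟨r - p, by omega⟩ := Fin.ext (by simp; omega)
    rw [this]
    exact Fin.append_right u 0 _
  refine ⟨Pi.single j 1 - w, fun r hr => ?_, by simp [hw j hj], th_neg fun r hr => ?_⟩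
  · simp [hw r (by have := Fin.lt_def.1 hr; omega), hr.ne']
  · have e : r = Fin.castAdd q ⟨r, hr⟩ := rfl
    have := congrFun hu ⟨r, hr⟩
    rw [← e] at this
    rw [mulVec_sub, Pi.sub_apply, mulVec_single_one, col_apply, ← this]
    simp only [mulVec, dotProduct, Fin.sum_univ_add, w, Fin.append_left, Fin.append_right, tl,
      submatrix_apply, ← e]
    simp

section idx

variable (hp : 3 ≤ p) (hq : 2 ≤ q)

def i0 : Fin (p + q) := ⟨0, by omega⟩
def im : Fin (p + q) := ⟨p - 1, by omega⟩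
def ia : Fin (p + q) := ⟨p + q - 2, by omega⟩
def ib : Fin (p + q) := ⟨p + q - 1, by omega⟩

@[simp] lemma i0_val : (i0 hp hq : ℕ) = 0 := rfl
@[simp] lemma im_val : (im hp hq : ℕ) = p - 1 := rfl
@[simp] lemma ia_val : (ia hp hq : ℕ) = p + q - 2 := rfl
@[simp] lemma ib_val : (ib hp hq : ℕ) = p + q - 1 := rfl

include hp hq

lemma arc_gam {i j : Fin (p + q)} : IsArc (gam p q) i j ↔
    (i = i0 hp hq ∧ j = ib hp hq) ∨ (i = im hp hq ∧ j = ia hp hq) := by
  have hj := j.2
  simp only [IsArc, gam, Fin.ext_iff, Fin.lt_def, i0_val, im_val, ia_val, ib_val]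
  constructor
  · rintro ⟨h, k, h1, h2⟩
    split_ifs at h1 h2 <;> simp at h1 h2 <;> omega
  · rintro (⟨h1, h2⟩ | ⟨h1, h2⟩)
    · exact ⟨by omega, 1, if_pos (by omega), if_pos (by omega)⟩
    · exact ⟨by omega, 2, by rw [if_neg (by omega), if_pos (by omega)],
        by rw [if_neg (by omega), if_pos (by omega)]⟩

lemma arc_alp {i j : Fin (p + q)} :
    IsArc (alp p q) i j ↔ (i : ℕ) + 1 = p ∧ (j : ℕ) + 1 = p + q := by
  have hj := j.2
  simp only [IsArc, alp, Fin.lt_def]
  constructor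
  · rintro ⟨h, k, h1, h2⟩
    split_ifs at h1 h2 <;> simp at h1 h2 <;> omega
  · rintro ⟨h1, h2⟩
    exact ⟨by omega, 1, if_pos (by omega), if_pos (by omega)⟩

lemma orbit_gam_subset : orbit p q (gam p q) ⊆ Sset (fY p) := by
  rintro x ⟨g, hg, hs, -⟩
  refine ⟨g, hg, fun r => g.val r (i0 hp hq), fun c => if c = i0 hp hq then 1 else 0,
    fun r c e => ?_⟩
  by_cases hc : c = i0 hp hq
  · simp [hc]
  · have h1 := e.2
    have h2 : (c : ℕ) ≠ 0 := fun h => hc (Fin.ext h)
    have := hs c 1 (by rw [gam, if_neg (by omega), if_neg (by omega), if_pos (by omega)])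
    simpa [hc] using th_fix.1 (by simpa using this) r e.1

lemma orbit_alp_subset : orbit p q (alp p q) ⊆ Sset (fZ p) := by
  rintro x ⟨g, hg, hs, -⟩
  refine ⟨g, hg, fun r c e => ?_⟩
  have h1 := e.2
  have := hs c 1 (by rw [alp, if_neg (by omega), if_pos (by omega)])
  exact th_fix.1 (by simpa using this) r e.1

lemma mem_alp (g : GL (Fin (p + q)) ℂ) (hf : fZ p g.val)
    (h1 : Nm (theta p q) g.val (ib hp hq) (im hp hq) ≠ 0) (h3 : (tl g.val).det ≠ 0) :
    toFlag g ∈ orbit p q (alp p q) := by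
  obtain ⟨M, hM, -, hMv⟩ := exists_conj (theta p q) th_sq g
  rw [Nm_eq hM, Matrix.smul_apply, smul_eq_mul] at h1
  have k1 := right_ne_zero_of_mul h1
  have key : ∀ j : Fin (p + q), ∃ w : Fin (p + q) → ℂ, (∀ r, j < r → w r = 0) ∧ w j ≠ 0 ∧
      (∀ ε : ℤˣ, alp p q j = Sum.inl ε → M *ᵥ w = ((ε : ℤ) : ℂ) • w) ∧
      ((j : ℕ) + 1 = p → w = Pi.single (im hp hq) 1) ∧
      ((j : ℕ) + 1 = p + q → w = M *ᵥ Pi.single (im hp hq) 1) := fun j => by
    by_cases a1 : (j : ℕ) + 1 = p + q
    · obtain rfl : j = ib hp hq := Fin.ext (by simp; omega)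
      refine ⟨M *ᵥ Pi.single (im hp hq) 1, fun r hr => ?_, by simpa using k1, fun ε h => ?_,
        fun h => by omega, fun _ => rfl⟩
      · have := Fin.lt_def.1 hr
        have := r.2
        omega
      · rw [alp, if_pos (Or.inr a1)] at h
        cases h
    by_cases a2 : (j : ℕ) < p
    · refine ⟨Pi.single j 1, fun r hr => by simp [hr.ne'], by simp, fun ε h => ?_,
        fun h => by rw [show j = im hp hq from Fin.ext (by simp; omega)], fun h => absurd h a1⟩
      rw [alp] at h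
      split_ifs at h with a3
      obtain rfl : 1 = ε := Sum.inl.inj h
      refine hMv _ _ (by
        simpa using th_fix.2 fun r hr => by simpa using hf r j ⟨hr, by omega⟩)
    · obtain ⟨v, v1, v2, v3⟩ := exists_neg g.val h3 j (by omega)
      refine ⟨v, v1, v2, fun ε h => ?_, fun h => by omega, fun h => absurd h a1⟩
      rw [alp, if_neg (by omega), if_neg a2] at h
      obtain rfl : -1 = ε := Sum.inl.inj h
      simpa using hMv _ _ v3
  choose v v1 v2 v3 v4 v5 using key
  refine mem_orbit_of_basis g M hM v v1 v2 v3 fun i j h => ?_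
  obtain ⟨e1, e2⟩ := (arc_alp hp hq).1 h
  rw [v4 i e1, v5 j e2]

lemma mem_gam (g : GL (Fin (p + q)) ℂ) (hf : fY p g.val)
    (h1 : Nm (theta p q) g.val (ib hp hq) (i0 hp hq) ≠ 0)
    (h2 : Nm (theta p q) g.val (ia hp hq) (im hp hq) * Nm (theta p q) g.val (ib hp hq) (i0 hp hq) -
      Nm (theta p q) g.val (ib hp hq) (im hp hq) * Nm (theta p q) g.val (ia hp hq) (i0 hp hq) ≠ 0)
    (h3 : (tl g.val).det ≠ 0) : toFlag g ∈ orbit p q (gam p q) := by
  obtain ⟨M, hM, -, hMv⟩ := exists_conj (theta p q) th_sq g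
  rw [Nm_eq hM] at h1 h2
  simp only [Matrix.smul_apply, smul_eq_mul] at h1 h2
  have k1 := right_ne_zero_of_mul h1
  have k2 : M (ia hp hq) (im hp hq) * M (ib hp hq) (i0 hp hq) -
      M (ib hp hq) (im hp hq) * M (ia hp hq) (i0 hp hq) ≠ 0 := fun h =>
    h2 (by linear_combination (g.val.det ^ 2) * h)
  obtain ⟨a, b, hab⟩ := hf
  have b0 : ∀ r : Fin (p + q), p ≤ (r : ℕ) → Blk p r (i0 hp hq) := fun r hr => ⟨hr, by simp; omega⟩
  have hb : b (i0 hp hq) ≠ 0 := fun h => k1 (by
    have := hMv (Pi.single (i0 hp hq) 1) 1 (th_fix.2 fun r hr => by simp [hab r _ (b0 r hr), h])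
    have := congrFun this (ib hp hq)
    rw [one_smul, Pi.single_eq_of_ne (by simp [Fin.ext_iff]; omega)] at this
    simpa using this)
  let z : Fin (p + q) → ℂ := M (ib hp hq) (i0 hp hq) • Pi.single (im hp hq) 1 -
    M (ib hp hq) (im hp hq) • Pi.single (i0 hp hq) 1
  have hz : ∀ r, (M *ᵥ z) r = M (ib hp hq) (i0 hp hq) * M r (im hp hq) -
      M (ib hp hq) (im hp hq) * M r (i0 hp hq) := fun r => by
    simp [z, mulVec_sub, mulVec_smul]
  have key : ∀ j : Fin (p + q), ∃ w : Fin (p + q) → ℂ, (∀ r, j < r → w r = 0) ∧ w j ≠ 0 ∧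
      (∀ ε : ℤˣ, gam p q j = Sum.inl ε → M *ᵥ w = ((ε : ℤ) : ℂ) • w) ∧
      ((j : ℕ) = 0 → w = Pi.single (i0 hp hq) 1) ∧
      ((j : ℕ) + 1 = p + q → w = M *ᵥ Pi.single (i0 hp hq) 1) ∧
      ((j : ℕ) + 1 = p → w = z) ∧ ((j : ℕ) + 2 = p + q → w = M *ᵥ z) := fun j => by
    by_cases a0 : (j : ℕ) = 0
    · obtain rfl : j = i0 hp hq := Fin.ext a0
      refine ⟨Pi.single (i0 hp hq) 1, fun r hr => by simp [hr.ne'], by simp, fun ε h => ?_,
        fun _ => rfl, fun h => by omega, fun h => by omega, fun h => by omega⟩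
      rw [gam, if_pos (Or.inl a0)] at h
      cases h
    by_cases a1 : (j : ℕ) + 1 = p + q
    · obtain rfl : j = ib hp hq := Fin.ext (by simp; omega)
      refine ⟨M *ᵥ Pi.single (i0 hp hq) 1, fun r hr => ?_, by simpa using k1, fun ε h => ?_,
        fun h => absurd h a0, fun _ => rfl, fun h => by omega, fun h => by omega⟩
      · have := Fin.lt_def.1 hr
        have := r.2
        omega
      · rw [gam, if_pos (Or.inr a1)] at h
        cases h
    by_cases a2 : (j : ℕ) + 1 = p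
    · obtain rfl : j = im hp hq := Fin.ext (by simp; omega)
      have e : im hp hq ≠ i0 hp hq := fun h => a0 (congrArg Fin.val h)
      refine ⟨z, fun r hr => ?_, by simpa [z, e] using k1, fun ε h => ?_,
        fun h => absurd h a0, fun h => absurd h a1, fun _ => rfl, fun h => by omega⟩
      · have : r ≠ i0 hp hq := fun h => by simp [h, Fin.lt_def] at hr
        simp [z, hr.ne', this]
      · rw [gam, if_neg (by omega), if_pos (Or.inl a2)] at h
        cases h
    by_cases a3 : (j : ℕ) + 2 = p + q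
    · obtain rfl : j = ia hp hq := Fin.ext (by simp; omega)
      refine ⟨M *ᵥ z, fun r hr => ?_, fun h => k2 ?_, fun ε h => ?_,
        fun h => absurd h a0, fun h => absurd h a1, fun h => absurd h a2, fun _ => rfl⟩
      · obtain rfl : r = ib hp hq := Fin.ext (by
          have := Fin.lt_def.1 hr
          have := r.2
          simp
          omega)
        rw [hz]; ring
      · rw [hz] at h; linear_combination h
      · rw [gam, if_neg (by omega), if_pos (Or.inr a3)] at h
        cases h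
    by_cases a4 : (j : ℕ) < p
    · have e : j ≠ i0 hp hq := fun h => a0 (congrArg Fin.val h)
      refine ⟨b (i0 hp hq) • Pi.single j 1 - b j • Pi.single (i0 hp hq) 1, fun r hr => ?_,
        by simpa [e] using hb, fun ε h => ?_, fun h => absurd h a0, fun h => absurd h a1,
        fun h => absurd h a2, fun h => absurd h a3⟩
      · have : r ≠ i0 hp hq := fun h => by simp [h, Fin.lt_def] at hr
        simp [hr.ne', this]
      · rw [gam, if_neg (by omega), if_neg (by omega), if_pos a4] at h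
        obtain rfl : 1 = ε := Sum.inl.inj h
        refine (hMv _ 1 (th_fix.2 fun r hr => ?_)).trans (by simp)
        simp [mulVec_sub, mulVec_smul, hab r _ (b0 r hr), hab r j ⟨hr, by omega⟩]
        ring
    · obtain ⟨v, v1, v2, v3⟩ := exists_neg g.val h3 j (by omega)
      refine ⟨v, v1, v2, fun ε h => ?_, fun h => absurd h a0, fun h => absurd h a1,
        fun h => absurd h a2, fun h => absurd h a3⟩
      rw [gam, if_neg (by omega), if_neg (by omega), if_neg a4] at h
      obtain rfl : -1 = ε := Sum.inl.inj h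
      simpa using hMv _ _ v3
  choose v v1 v2 v3 v4 v5 v6 v7 using key
  refine mem_orbit_of_basis g M hM v v1 v2 v3 fun i j h => ?_
  rcases (arc_gam hp hq).1 h with ⟨rfl, rfl⟩ | ⟨rfl, rfl⟩
  · rw [v4 _ rfl, v5 _ (by simp; omega)]
  · rw [v6 _ (by simp; omega), v7 _ (by simp; omega)]

end idx

end

end Pool.Agent.P.MP_25f57f_ag.Fam
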