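import Pool.Agent.P.MP_25f57f_ag.Fam2

/-! The family of determinantal orbit closures: density of the orbits and the clan conditions. -/

set_option autoImplicit false
set_option linter.unusedSectionVars false
set_option linter.unnecessarySeqFocus false

open MvPolynomial Matrix

namespace Pool.Agent.P.MP_25f57f_ag.Fam

noncomputable section

variable {p q : ℕ}

/-- supported in the rows `≥ p` and the columns `< p` -/
def Nil (E : Matrix (Fin (p + q)) (Fin (p + q)) ℂ) : Prop :=
  ∀ r c, E r c ≠ 0 → p ≤ (r : ℕ) ∧ (c : ℕ) < p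

lemma Nil.base {E : Matrix (Fin (p + q)) (Fin (p + q)) ℂ} (h : Nil E) :
    (1 + E).det ≠ 0 ∧ (tl (1 + E)).det ≠ 0 ∧ ∀ r c : Fin (p + q), r ≠ c →
      Nm (theta p q) (1 + E) r c = (1 + E).det * (-2 * E r c) := by
  have h1 : E * E = 0 := by
    ext r c
    rw [mul_apply]
    refine Finset.sum_eq_zero fun k _ => ?_
    by_contra e
    have := (h _ _ (left_ne_zero_of_mul e)).2
    have := (h _ _ (right_ne_zero_of_mul e)).1
    omega
  have h2 : theta p q * E = -E := by
    ext r c
    rw [theta, diagonal_mul]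
    split_ifs with e
    · by_contra e'
      have := (h r c fun e0 => e' (by simp [e0])).1
      omega
    · simp
  have h3 : E * theta p q = E := by
    ext r c
    rw [theta, mul_diagonal]
    split_ifs with e
    · simp
    · by_contra e'
      exact e (h r c fun e0 => e' (by simp [e0])).2
  refine ⟨det_ne_zero_of_right_inverse (B := 1 - E) ?_, ?_, fun r c e => ?_⟩
  · simp [Matrix.add_mul, Matrix.mul_sub, h1]
  · have : tl (1 + E) = 1 := by
      ext r c
      have : E (Fin.castAdd q r) (Fin.castAdd q c) = 0 := by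
        by_contra e
        have := (h _ _ e).1
        have := r.2
        simp at *
        omega
      simp [tl, this, one_apply, Fin.ext_iff]
    simp [this]
  · rw [Nm_eq (M := theta p q - (2 : ℂ) • E) (by
      simp only [Matrix.add_mul, Matrix.mul_sub, Matrix.mul_add, Matrix.mul_smul, Matrix.one_mul,
        Matrix.mul_one, h1, h2, h3]
      module)]
    simp [theta, diagonal_apply_ne _ e]

lemma eval_tl (P : Matrix (Fin (p + q)) (Fin (p + q)) (Polynomial ℂ)) (t : ℂ) :
    (tl P).det.eval t = (tl (P.map (Polynomial.evalRingHom t))).det := eval_det _ t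

variable (hp : 3 ≤ p) (hq : 2 ≤ q)
include hp hq

lemma closure_alp : closure (orbit p q (alp p q)) = Sset (fZ p) := by
  apply subset_antisymm (closure_minimal (orbit_alp_subset hp hq) isClosed_Z)
  rintro x ⟨g, rfl, hg⟩
  let E : Matrix (Fin (p + q)) (Fin (p + q)) ℂ := single (ib hp hq) (im hp hq) 1
  have hE : Nil E := fun r c e => by
    simp only [E, single_apply, ne_eq, ite_eq_right_iff, one_ne_zero, imp_false, not_not] at e
    obtain ⟨rfl, rfl⟩ := e
    simp
    omega
  obtain ⟨b1, b2, b3⟩ := hE.base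
  set P := seg g.val (1 + E) with hP
  set N := Nm ((theta p q).map Polynomial.C) P with hN
  refine mem_closure_of_curve P (P.det * N (ib hp hq) (im hp hq) * (tl P).det)
    ?_ ?_ (seg_zero _ _).symm
  · intro h
    have := congrArg (Polynomial.eval 1) h
    simp only [Polynomial.eval_mul, hN, eval_Nm, eval_tl, eval_det P, Polynomial.eval_zero] at this
    rw [hP, seg_one, b3 _ _ (by simp [Fin.ext_iff]; omega)] at this
    simp [E, b1, b2] at this
  · intro t ht
    simp only [Polynomial.eval_mul, hN, eval_Nm, eval_tl, eval_det P] at ht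
    obtain ⟨g', hg'⟩ := exists_GL (left_ne_zero_of_mul (left_ne_zero_of_mul ht))
    rw [← hg'] at ht
    refine ⟨g', hg', mem_alp hp hq g' (fun r c e => ?_)
      (right_ne_zero_of_mul (left_ne_zero_of_mul ht)) (right_ne_zero_of_mul ht)⟩
    have e1 := e.1
    have e2 := e.2
    have e3 : r ≠ c := fun h => by subst h; omega
    have e4 : im hp hq ≠ c := fun h => by subst h; simp at e2; omega
    rw [hg', hP, seg_eval, hg r c e]
    simp [E, one_apply_ne e3, e4]

lemma closure_gam : closure (orbit p q (gam p q)) = Sset (fY p) := by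
  apply subset_antisymm (closure_minimal (orbit_gam_subset hp hq) isClosed_Y)
  rintro x ⟨g, rfl, a, b, hg⟩
  let E : Matrix (Fin (p + q)) (Fin (p + q)) ℂ :=
    single (ib hp hq) (i0 hp hq) 1 + single (ia hp hq) (im hp hq) 1
  have n1 : ia hp hq ≠ ib hp hq := by simp [Fin.ext_iff]; omega
  have n2 : i0 hp hq ≠ im hp hq := by simp [Fin.ext_iff]; omega
  have hE : Nil E := fun r c e => by
    by_contra h
    refine e ?_
    simp only [E, Matrix.add_apply, single_apply]
    rw [if_neg, if_neg, add_zero]
    · rintro ⟨rfl, rfl⟩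
      simp at h
      omega
    · rintro ⟨rfl, rfl⟩
      simp at h
      omega
  obtain ⟨b1, b2, b3⟩ := hE.base
  let A : Fin (p + q) → Polynomial ℂ := fun r =>
    Polynomial.C (a r) + Polynomial.X * Polynomial.C ((if ib hp hq = r then 1 else 0) - a r)
  let B : Fin (p + q) → Polynomial ℂ := fun c =>
    Polynomial.C (b c) + Polynomial.X * Polynomial.C ((if i0 hp hq = c then 1 else 0) - b c)
  let P : Matrix (Fin (p + q)) (Fin (p + q)) (Polynomial ℂ) := of fun r c =>
    if Blk p r c then B c * A r else seg g.val (1 + E) r c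
  have hP0 : P.map (Polynomial.evalRingHom 0) = g.val := by
    ext r c
    by_cases e : Blk p r c <;> simp [P, A, B, seg, e, hg]
  have hP1 : P.map (Polynomial.evalRingHom 1) = 1 + E := by
    ext r c
    by_cases e : Blk p r c
    · have e1 := e.1
      have e2 := e.2
      have e3 : r ≠ c := fun h => by subst h; omega
      have e4 : im hp hq ≠ c := fun h => by subst h; simp at e2; omega
      by_cases e5 : ib hp hq = r <;> by_cases e6 : i0 hp hq = c <;>
        simp [P, A, B, E, e, one_apply_ne e3, e4, e5, e6]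
    · simp [P, seg, e]
  set N := Nm ((theta p q).map Polynomial.C) P with hN
  refine mem_closure_of_curve P (P.det * N (ib hp hq) (i0 hp hq) *
    (N (ia hp hq) (im hp hq) * N (ib hp hq) (i0 hp hq) -
      N (ib hp hq) (im hp hq) * N (ia hp hq) (i0 hp hq)) * (tl P).det) ?_ ?_ hP0.symm
  · intro h
    have := congrArg (Polynomial.eval 1) h
    simp only [Polynomial.eval_mul, Polynomial.eval_sub, hN, eval_Nm, eval_tl, eval_det P, hP1,
      Polynomial.eval_zero] at this
    rw [b3 _ _ (by simp [Fin.ext_iff]; omega), b3 _ _ (by simp [Fin.ext_iff]; omega),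
      b3 _ _ (by simp [Fin.ext_iff]; omega), b3 _ _ (by simp [Fin.ext_iff]; omega)] at this
    simp [E, b1, b2, n1, n2, n1.symm, n2.symm] at this
  · intro t ht
    simp only [Polynomial.eval_mul, Polynomial.eval_sub, hN, eval_Nm, eval_tl, eval_det P] at ht
    have h1 := left_ne_zero_of_mul ht
    obtain ⟨g', hg'⟩ := exists_GL (left_ne_zero_of_mul (left_ne_zero_of_mul h1))
    rw [← hg'] at ht h1
    refine ⟨g', hg', mem_gam hp hq g' ⟨fun r => (A r).eval t, fun c => (B c).eval t,
      fun r c e => ?_⟩ (right_ne_zero_of_mul (left_ne_zero_of_mul h1)) (right_ne_zero_of_mul h1)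
      (right_ne_zero_of_mul ht)⟩
    rw [hg']
    simp [P, e]

lemma sing_main : sing (closure (orbit p q (gam p q))) = closure (orbit p q (alp p q)) := by
  rw [closure_gam hp hq, closure_alp hp hq, sing_Y hp (by omega)]

lemma maximal_main : Maximal (fun Z : Set (FlagVar (p + q)) => IsIrreducible Z ∧
    Z ⊆ sing (closure (orbit p q (gam p q)))) (closure (orbit p q (alp p q))) := by
  rw [sing_main hp hq, closure_alp hp hq]
  exact ⟨⟨isIrreducible_Z, subset_rfl⟩, fun Z hZ _ => hZ.2⟩

omit hp hq in
lemma ncard_Ico {n : ℕ} {s : Set (Fin n)} {a b : ℕ} (hb : b ≤ n)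
    (h : ∀ i : Fin n, i ∈ s ↔ a ≤ (i : ℕ) ∧ (i : ℕ) < b) : s.ncard = b - a := by
  rw [← Set.ncard_image_of_injective s Fin.val_injective, ← Nat.card_Ico, ← Set.ncard_coe_finset]
  congr 1
  ext k
  simp only [Set.mem_image, h, Finset.coe_Ico, Set.mem_Ico]
  exact ⟨fun ⟨i, e, e'⟩ => e' ▸ e, fun e => ⟨⟨k, by omega⟩, e, rfl⟩⟩

omit hp hq in
lemma ncard_two {n : ℕ} {s : Set (Fin n)} {a b : Fin n} (hab : (a : ℕ) ≠ b)
    (h : ∀ i : Fin n, i ∈ s ↔ (i : ℕ) = a ∨ (i : ℕ) = b) : s.ncard = 2 := by
  rw [← Set.ncard_pair (a := a) (b := b) fun e => hab (congrArg _ e)]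
  congr 1
  ext i
  simp [h, Fin.ext_iff]

lemma isClan_gam : IsClan p q (gam p q) := by
  refine ⟨fun k => ?_, ?_⟩
  · by_cases h1 : k = 1
    · refine Or.inr (ncard_two (a := i0 hp hq) (b := ib hp hq) (by simp; omega) fun i => ?_)
      simp only [Set.mem_ofPred_eq, gam, h1, i0_val, ib_val]
      split_ifs <;> simp <;> omega
    by_cases h2 : k = 2
    · refine Or.inr (ncard_two (a := im hp hq) (b := ia hp hq) (by simp; omega) fun i => ?_)
      simp only [Set.mem_ofPred_eq, gam, h2, im_val, ia_val]
      split_ifs <;> simp <;> omega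
    · refine Or.inl (ncard_Ico (a := 0) (b := 0) (Nat.zero_le _) fun i => ?_)
      simp only [Set.mem_ofPred_eq, gam]
      split_ifs <;> simp <;> omega
  · rw [ncard_Ico (a := 1) (b := p - 1) (by omega) fun i => ?_,
      ncard_Ico (a := p) (b := p + q - 2) (by omega) fun i => ?_]
    · omega
    all_goals
      have := i.2
      simp only [Set.mem_ofPred_eq, gam]
      split_ifs <;> simp <;> omega

lemma isClan_alp : IsClan p q (alp p q) := by
  refine ⟨fun k => ?_, ?_⟩
  · by_cases h1 : k = 1
    · refine Or.inr (ncard_two (a := im hp hq) (b := ib hp hq) (by simp; omega) fun i => ?_)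
      simp only [Set.mem_ofPred_eq, alp, h1, im_val, ib_val]
      split_ifs <;> simp <;> omega
    · refine Or.inl (ncard_Ico (a := 0) (b := 0) (Nat.zero_le _) fun i => ?_)
      simp only [Set.mem_ofPred_eq, alp]
      split_ifs <;> simp <;> omega
  · rw [ncard_Ico (a := 0) (b := p - 1) (by omega) fun i => ?_,
      ncard_Ico (a := p) (b := p + q - 1) (by omega) fun i => ?_]
    · omega
    all_goals
      have := i.2
      simp only [Set.mem_ofPred_eq, alp]
      split_ifs <;> simp <;> omega

lemma arcs_gam : {ij : Fin (p + q) × Fin (p + q) | IsArc (gam p q) ij.1 ij.2}.ncard = 2 := by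
  rw [← Set.ncard_pair (a := (i0 hp hq, ib hp hq)) (b := (im hp hq, ia hp hq))
    (by simp [Fin.ext_iff]; omega)]
  congr 1
  ext ⟨i, j⟩
  simp [arc_gam hp hq]

end

end Pool.Agent.P.MP_25f57f_ag.Fam
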