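import Pool.Agent.P.MP_25f57f_ag.Defs
import Pool.Agent.P.MP_25f57f_ag.Alg

/-! General lemmas on the flag variety. -/

set_option autoImplicit false

open MvPolynomial Matrix

namespace Pool.Agent.P.MP_25f57f_ag

noncomputable section

variable {n : ℕ}

/-- entries of a matrix -/
def ent {R : Type} (A : Matrix (Fin n) (Fin n) R) : Fin n × Fin n → R := fun ij => A ij.1 ij.2

lemma isClosed_iff (Z : Set (FlagVar n)) : IsClosed Z ↔ ∀ g : GL (Fin n) ℂ,
    (∀ h : MvPolynomial (Fin n × Fin n) ℂ,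
      (∀ g' : GL (Fin n) ℂ, toFlag g' ∈ Z → eval (ent g'.val) h = 0) → eval (ent g.val) h = 0) →
    toFlag g ∈ Z := by
  rw [isClosed_coinduced, isClosed_induced_iff]
  have key : ∀ (g : GL (Fin n) ℂ) (s : Set (MvPolynomial (Fin n × Fin n) ℂ)),
      pointToPoint (k := ℂ) (fun ij : Fin n × Fin n => (g : Matrix (Fin n) (Fin n) ℂ) ij.1 ij.2) ∈
        PrimeSpectrum.zeroLocus s ↔ ∀ h ∈ s, eval (ent g.val) h = 0 := by
    intro g s
    rw [PrimeSpectrum.mem_zeroLocus]
    refine forall₂_congr fun h _ => ?_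
    exact mem_vanishingIdeal_singleton_iff _ _
  constructor
  · rintro ⟨t, ht, hZ⟩ g hg
    obtain ⟨s, rfl⟩ := (PrimeSpectrum.isClosed_iff_zeroLocus _).1 ht
    have hZ' : ∀ g' : GL (Fin n) ℂ, toFlag g' ∈ Z ↔ ∀ h ∈ s, eval (ent g'.val) h = 0 := by
      intro g'
      rw [← key]
      exact (Set.ext_iff.1 hZ g').symm
    rw [hZ']
    intro h hh
    exact hg h fun g' hg' => (hZ' g').1 hg' h hh
  · intro H
    refine ⟨PrimeSpectrum.zeroLocus {h | ∀ g' : GL (Fin n) ℂ, toFlag g' ∈ Z →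
      eval (ent g'.val) h = 0}, PrimeSpectrum.isClosed_zeroLocus _, ?_⟩
    ext g
    rw [Set.mem_preimage, key]
    exact ⟨fun hg => H g hg, fun hg h hh => hh g hg⟩

lemma toFlag_surj (x : FlagVar n) : ∃ g, toFlag g = x := QuotientGroup.mk_surjective x

lemma toFlag_eq_iff {g g' : GL (Fin n) ℂ} : toFlag g = toFlag g' ↔ g⁻¹ * g' ∈ borel n :=
  QuotientGroup.eq

lemma exists_borel {g g' : GL (Fin n) ℂ} (h : toFlag g = toFlag g') :
    ∃ b : Matrix (Fin n) (Fin n) ℂ, (∀ i j, j < i → b i j = 0) ∧ g'.val = g.val * b :=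
  ⟨(g⁻¹ * g').val, fun _ _ hij => toFlag_eq_iff.1 h hij, by
    rw [← Units.val_mul, mul_inv_cancel_left]⟩

lemma eval_curve (P : Matrix (Fin n) (Fin n) (Polynomial ℂ)) (h : MvPolynomial (Fin n × Fin n) ℂ)
    (t : ℂ) : Polynomial.eval t (aeval (ent P) h) =
      eval (ent (P.map (Polynomial.evalRingHom t))) h := by
  have : (Polynomial.aeval t : Polynomial ℂ →ₐ[ℂ] ℂ).comp (aeval (ent P)) =
      aeval (ent (P.map (Polynomial.evalRingHom t))) := by
    ext s; simp [ent]
  have h2 := DFunLike.congr_fun this h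
  simpa only [AlgHom.comp_apply, Polynomial.coe_aeval_eq_eval, aeval_eq_eval] using h2

lemma mem_closure_of_curve {O : Set (FlagVar n)} {g : GL (Fin n) ℂ}
    (P : Matrix (Fin n) (Fin n) (Polynomial ℂ)) (d : Polynomial ℂ) (hd : d ≠ 0)
    (hP : ∀ t, d.eval t ≠ 0 → ∃ g' : GL (Fin n) ℂ, g'.val = P.map (Polynomial.evalRingHom t) ∧
      toFlag g' ∈ O) (h0 : g.val = P.map (Polynomial.evalRingHom 0)) :
    toFlag g ∈ closure O := by
  refine (isClosed_iff _).1 isClosed_closure g fun h hh => ?_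
  have : aeval (ent P) h * d = 0 := by
    apply Polynomial.funext
    intro t
    rw [Polynomial.eval_mul, Polynomial.eval_zero]
    by_cases ht : d.eval t = 0
    · rw [ht, mul_zero]
    · obtain ⟨g', hg', hO⟩ := hP t ht
      rw [eval_curve, ← hg', hh g' (subset_closure hO), zero_mul]
  have h2 := (mul_eq_zero.1 this).resolve_right hd
  rw [h0, ← eval_curve, h2, Polynomial.eval_zero]

/-- the segment between two matrices -/
def seg (A A' : Matrix (Fin n) (Fin n) ℂ) : Matrix (Fin n) (Fin n) (Polynomial ℂ) :=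
  of fun i j => Polynomial.C (A i j) + Polynomial.X * Polynomial.C (A' i j - A i j)

lemma seg_eval (A A' : Matrix (Fin n) (Fin n) ℂ) (t : ℂ) (i j : Fin n) :
    (seg A A').map (Polynomial.evalRingHom t) i j = A i j + t * (A' i j - A i j) := by
  simp [seg]

lemma seg_zero (A A' : Matrix (Fin n) (Fin n) ℂ) :
    (seg A A').map (Polynomial.evalRingHom 0) = A := by
  ext i j; rw [seg_eval]; ring

lemma seg_one (A A' : Matrix (Fin n) (Fin n) ℂ) :
    (seg A A').map (Polynomial.evalRingHom 1) = A' := by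
  ext i j; rw [seg_eval]; ring

lemma eval_det (P : Matrix (Fin n) (Fin n) (Polynomial ℂ)) (t : ℂ) :
    P.det.eval t = (P.map (Polynomial.evalRingHom t)).det :=
  (Polynomial.evalRingHom t).map_det P

lemma exists_GL {A : Matrix (Fin n) (Fin n) ℂ} (h : A.det ≠ 0) : ∃ g : GL (Fin n) ℂ, g.val = A :=
  ⟨GeneralLinearGroup.mkOfDetNeZero A h, rfl⟩

/-- A set whose preimage is cut out by vanishing of some entries is irreducible. -/
lemma isPreirreducible_of_linear {Z : Set (FlagVar n)} (E : Set (Fin n × Fin n))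
    (hZ : ∀ g : GL (Fin n) ℂ, toFlag g ∈ Z ↔ ∀ ij ∈ E, g.val ij.1 ij.2 = 0) :
    IsPreirreducible Z := by
  rw [isPreirreducible_iff_isClosed_union_isClosed]
  intro z1 z2 h1 h2 hsub
  by_contra hc
  rw [not_or, Set.not_subset, Set.not_subset] at hc
  obtain ⟨⟨x1, hx1, hx1'⟩, ⟨x2, hx2, hx2'⟩⟩ := hc
  obtain ⟨g1, rfl⟩ := toFlag_surj x1
  obtain ⟨g2, rfl⟩ := toFlag_surj x2
  have e1 := mt ((isClosed_iff _).1 h1 g1) hx1'
  have e2 := mt ((isClosed_iff _).1 h2 g2) hx2'
  push Not at e1 e2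
  obtain ⟨p1, hp1, hp1'⟩ := e1
  obtain ⟨p2, hp2, hp2'⟩ := e2
  set P := seg g1.val g2.val with hP
  have n0 : P.det ≠ 0 := by
    intro h
    have := eval_det P 0
    rw [h, hP, seg_zero, Polynomial.eval_zero] at this
    exact g1.det_ne_zero this.symm
  have n1 : aeval (ent P) p1 ≠ 0 := by
    intro h
    have := eval_curve P p1 0
    rw [h, hP, seg_zero, Polynomial.eval_zero] at this
    exact hp1' this.symm
  have n2 : aeval (ent P) p2 ≠ 0 := by
    intro h
    have := eval_curve P p2 1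
    rw [h, hP, seg_one, Polynomial.eval_zero] at this
    exact hp2' this.symm
  apply mul_ne_zero (mul_ne_zero n0 n1) n2
  apply Polynomial.funext
  intro t
  rw [Polynomial.eval_mul, Polynomial.eval_mul, Polynomial.eval_zero, eval_det, eval_curve,
    eval_curve]
  by_cases ht : (P.map (Polynomial.evalRingHom t)).det = 0
  · rw [ht, zero_mul, zero_mul]
  · obtain ⟨g, hg⟩ := exists_GL ht
    have hgZ : toFlag g ∈ Z := by
      rw [hZ]
      intro ij hij
      rw [hg, hP, seg_eval, (hZ g1).1 hx1 ij hij, (hZ g2).1 hx2 ij hij]; ring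
    rw [← hg]
    rcases hsub hgZ with h | h
    · rw [hp1 g h, mul_zero, zero_mul]
    · rw [hp2 g h, mul_zero]

/-- Criterion for membership in an orbit. -/
lemma mem_orbit_of_basis {p q : ℕ} {c : Fin (p + q) → ℤˣ ⊕ ℕ} (g : GL (Fin (p + q)) ℂ)
    (M : Matrix (Fin (p + q)) (Fin (p + q)) ℂ) (hM : g.val * M = theta p q * g.val)
    (v : Fin (p + q) → Fin (p + q) → ℂ) (hv0 : ∀ i r, i < r → v i r = 0) (hv1 : ∀ i, v i i ≠ 0)
    (hs : ∀ (i : Fin (p + q)) (ε : ℤˣ), c i = Sum.inl ε → M *ᵥ v i = ((ε : ℤ) : ℂ) • v i)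
    (ha : ∀ i j, IsArc c i j → M *ᵥ v i = v j) : toFlag g ∈ orbit p q c := by
  have hb : (of fun r i => v i r).BlockTriangular id := fun r i h => hv0 i r h
  have hdet : (of fun r i => v i r).det ≠ 0 := by
    rw [det_of_isUpperTriangular hb]
    exact Finset.prod_ne_zero_iff.2 fun i _ => hv1 i
  obtain ⟨b, hb'⟩ := exists_GL hdet
  have hcol : ∀ i, (fun r => (g * b).val r i) = g.val *ᵥ v i := by
    intro i; funext r
    rw [Units.val_mul, hb']; rfl
  refine ⟨g * b, ?_, fun i ε hi => ?_, fun i j hij => ?_⟩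
  · symm
    rw [toFlag_eq_iff, inv_mul_cancel_left]
    change b.val.BlockTriangular id
    rwa [hb']
  · rw [hcol, mulVec_mulVec, ← hM, ← mulVec_mulVec, hs i ε hi, mulVec_smul]
  · rw [hcol, hcol, mulVec_mulVec, ← hM, ← mulVec_mulVec, ha i j hij]

/-- generic lower unitriangular matrix -/
def unitriX (n : ℕ) : Matrix (Fin n) (Fin n) (MvPolynomial (Low n) ℂ) :=
  of fun i j => if h : j < i then X ⟨(i, j), h⟩ else if i = j then 1 else 0

lemma det_unitri (u : Low n → ℂ) : (unitri u).det = 1 := by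
  rw [det_of_isLowerTriangular]
  · simp [unitri]
  · intro i j hij
    have h : i < j := hij
    simp [unitri, h.ne, not_lt.2 h.le]

lemma unitri_zero : unitri (0 : Low n → ℂ) = 1 := by
  ext i j
  simp only [unitri, of_apply, Pi.zero_apply, one_apply]
  split_ifs with h1 h2
  · exact absurd h2 h1.ne'
  · rfl
  · rfl
  · rfl

/-- entries of `g u` as polynomials in `u` -/
def chartX (A : Matrix (Fin n) (Fin n) ℂ) : Matrix (Fin n) (Fin n) (MvPolynomial (Low n) ℂ) :=
  A.map C * unitriX n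

lemma eval_chartX (A : Matrix (Fin n) (Fin n) ℂ) (u : Low n → ℂ) (i j : Fin n) :
    eval u (chartX A i j) = (A * unitri u) i j := by
  simp only [chartX, mul_apply, map_sum, map_mul, map_apply, eval_C]
  refine Finset.sum_congr rfl fun k _ => ?_
  congr 1
  simp only [unitriX, unitri, of_apply]
  split_ifs <;> simp

lemma mul_unitri_update (A : Matrix (Fin n) (Fin n) ℂ) (u : Low n → ℂ) (t : Low n) (c : ℂ)
    (i j : Fin n) : (A * unitri (Function.update u t c)) i j =
      (A * unitri u) i j + if j = t.1.2 then (c - u t) * A i t.1.1 else 0 := by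
  have : unitri (Function.update u t c) = unitri u + single t.1.1 t.1.2 (c - u t) := by
    ext a b
    obtain ⟨⟨k, l⟩, hkl⟩ := t
    simp only [unitri, of_apply, Matrix.add_apply, single_apply]
    by_cases h : k = a ∧ l = b
    · obtain ⟨rfl, rfl⟩ := h
      have hkl' : l < k := hkl
      simp [hkl']
    · rw [if_neg h, add_zero]
      split_ifs with h1
      · rw [Function.update_of_ne]
        intro h2
        simp only [Subtype.mk.injEq, Prod.mk.injEq] at h2
        exact h ⟨h2.1.symm, h2.2.symm⟩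
      · rfl
      · rfl
  rw [this, mul_add, Matrix.add_apply]
  congr 1
  split_ifs with h
  · rw [h, mul_single_apply_same, mul_comm]
  · rw [mul_single_apply_of_ne _ _ _ _ _ h]

lemma mem_chart {Y : Set (FlagVar n)} {f : Matrix (Fin n) (Fin n) ℂ → Prop}
    (hY : ∀ g : GL (Fin n) ℂ, toFlag g ∈ Y ↔ f g.val) (g : GL (Fin n) ℂ) (u : Low n → ℂ) :
    u ∈ chart Y g ↔ f (g.val * unitri u) := by
  constructor
  · rintro ⟨h, hh, hY'⟩
    rw [← hh]; exact (hY h).1 hY'
  · intro hf
    have : (g.val * unitri u).det ≠ 0 := by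
      rw [det_mul, det_unitri, mul_one]; exact g.det_ne_zero
    obtain ⟨h, hh⟩ := exists_GL this
    exact ⟨h, hh, (hY h).2 (hh ▸ hf)⟩

lemma not_all_minors (g : GL (Fin n) ℂ) {a b : Fin n} (hab : a ≠ b)
    (h : ∀ k l, g.val a k * g.val b l = g.val a l * g.val b k) : False := by
  have hi : g.val * (g⁻¹).val = 1 := by rw [← Units.val_mul, mul_inv_cancel, Units.val_one]
  have e1 := congrFun (congrFun hi a) a
  have e2 := congrFun (congrFun hi b) b
  have e3 := congrFun (congrFun hi a) b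
  rw [mul_apply] at e1 e2 e3
  rw [one_apply_eq] at e1 e2
  rw [one_apply_ne hab] at e3
  have e4 : (∑ k, g.val a k * (g⁻¹).val k a) * (∑ l, g.val b l * (g⁻¹).val l b) =
      (∑ k, g.val b k * (g⁻¹).val k a) * (∑ l, g.val a l * (g⁻¹).val l b) := by
    rw [Finset.sum_mul_sum, Finset.sum_mul_sum]
    refine Finset.sum_congr rfl fun k _ => Finset.sum_congr rfl fun l _ => ?_
    linear_combination ((g⁻¹).val k a * (g⁻¹).val l b) * h k l
  rw [e1, e2, e3] at e4
  simp at e4

/-- `adj(A) θ A` -/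
def Nm {R : Type} [CommRing R] (θ A : Matrix (Fin n) (Fin n) R) : Matrix (Fin n) (Fin n) R :=
  adjugate A * θ * A

lemma eval_Nm (θ : Matrix (Fin n) (Fin n) ℂ) (P : Matrix (Fin n) (Fin n) (Polynomial ℂ)) (t : ℂ)
    (i j : Fin n) : (Nm (θ.map Polynomial.C) P i j).eval t =
      Nm θ (P.map (Polynomial.evalRingHom t)) i j := by
  have : (Nm (θ.map Polynomial.C) P).map (Polynomial.evalRingHom t) =
      Nm θ (P.map (Polynomial.evalRingHom t)) := by
    simp only [Nm, Matrix.map_mul]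
    congr 2
    · exact (Polynomial.evalRingHom t).map_adjugate P
    · ext a b; simp
  exact congrFun (congrFun this i) j

lemma Nm_eq {θ A M : Matrix (Fin n) (Fin n) ℂ} (h : A * M = θ * A) : Nm θ A = A.det • M := by
  rw [Nm, Matrix.mul_assoc, ← h, ← Matrix.mul_assoc, adjugate_mul, smul_mul, Matrix.one_mul]

lemma exists_conj (θ : Matrix (Fin n) (Fin n) ℂ) (hθ : θ * θ = 1) (g : GL (Fin n) ℂ) :
    ∃ M : Matrix (Fin n) (Fin n) ℂ, g.val * M = θ * g.val ∧ M * M = 1 ∧
      ∀ (v : Fin n → ℂ) (ε : ℂ), θ *ᵥ (g.val *ᵥ v) = ε • (g.val *ᵥ v) → M *ᵥ v = ε • v := by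
  have hi : g.val * (g⁻¹).val = 1 := by rw [← Units.val_mul, mul_inv_cancel, Units.val_one]
  have hi' : (g⁻¹).val * g.val = 1 := by rw [← Units.val_mul, inv_mul_cancel, Units.val_one]
  refine ⟨(g⁻¹).val * θ * g.val, ?_, ?_, fun v ε hv => ?_⟩
  · rw [← Matrix.mul_assoc, ← Matrix.mul_assoc, hi, Matrix.one_mul]
  · calc _ = (g⁻¹).val * (θ * (g.val * (g⁻¹).val) * θ) * g.val := by
          simp only [Matrix.mul_assoc]
      _ = 1 := by rw [hi, Matrix.mul_one, hθ, Matrix.mul_one, hi']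
  · rw [← mulVec_mulVec, ← mulVec_mulVec, hv, mulVec_smul, mulVec_mulVec, hi', one_mulVec]

end

end Pool.Agent.P.MP_25f57f_ag
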