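import Pool.Agent.P.MP_25f57f_ag.Alg

/-! Jacobian criteria for regularity and for singularity at the origin. -/

set_option autoImplicit false
set_option linter.unusedSectionVars false

open MvPolynomial IsLocalRing

namespace Pool.Agent.P.MP_25f57f_ag

variable {σ : Type} [Fintype σ] [DecidableEq σ]

/-- derivative of `p` at `a` in the direction `D` -/
noncomputable def dd (a D : σ → ℂ) (p : MvPolynomial σ ℂ) : ℂ := ∑ s, D s * eval a (pderiv s p)

lemma dd_add (a D : σ → ℂ) (p q : MvPolynomial σ ℂ) : dd a D (p + q) = dd a D p + dd a D q := by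
  simp [dd, mul_add, Finset.sum_add_distrib]

lemma dd_mul (a D : σ → ℂ) (p q : MvPolynomial σ ℂ) :
    dd a D (p * q) = eval a p * dd a D q + eval a q * dd a D p := by
  simp only [dd, Derivation.leibniz, smul_eq_mul, map_add, map_mul, Finset.mul_sum,
    ← Finset.sum_add_distrib]
  exact Finset.sum_congr rfl fun s _ => by ring

lemma dd_C (a D : σ → ℂ) (c : ℂ) : dd a D (C c) = 0 := by simp [dd]

lemma dd_X (a D : σ → ℂ) (s : σ) : dd a D (X s) = D s := by
  simp only [dd, pderiv_X]
  rw [Finset.sum_eq_single s]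
  · simp
  · intro b _ hb; simp [Pi.single_eq_of_ne hb.symm]
  · simp

lemma dd_dir_add (a D D' : σ → ℂ) (p : MvPolynomial σ ℂ) :
    dd a (D + D') p = dd a D p + dd a D' p := by
  simp [dd, add_mul, Finset.sum_add_distrib]

lemma dd_dir_sum {ι : Type} [Fintype ι] (a : σ → ℂ) (w : ι → ℂ) (D : ι → σ → ℂ)
    (p : MvPolynomial σ ℂ) : dd a (∑ i, w i • D i) p = ∑ i, w i * dd a (D i) p := by
  simp only [dd, Finset.sum_apply, Pi.smul_apply, smul_eq_mul, Finset.sum_mul, Finset.mul_sum]
  rw [Finset.sum_comm]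
  exact Finset.sum_congr rfl fun i _ => Finset.sum_congr rfl fun s _ => by ring

/-- restriction to a line -/
noncomputable def onLine (a D : σ → ℂ) (p : MvPolynomial σ ℂ) : Polynomial ℂ :=
  aeval (fun s => Polynomial.C (a s) + Polynomial.C (D s) * Polynomial.X) p

omit [Fintype σ] [DecidableEq σ] in
lemma eval_onLine (a D : σ → ℂ) (p : MvPolynomial σ ℂ) (t : ℂ) :
    (onLine a D p).eval t = eval (a + t • D) p := by
  unfold onLine
  induction p using MvPolynomial.induction_on with
  | C c => simp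
  | add p q hp hq => simp only [map_add, Polynomial.eval_add, hp, hq]
  | mul_X p s hp =>
    simp only [map_mul, Polynomial.eval_mul, hp, aeval_X, eval_X]
    simp; left; ring

lemma coeff_onLine (a D : σ → ℂ) (p : MvPolynomial σ ℂ) :
    (onLine a D p).derivative.eval 0 = dd a D p := by
  induction p using MvPolynomial.induction_on with
  | C c => simp [onLine, dd_C]
  | add p q hp hq =>
    rw [dd_add, ← hp, ← hq]
    simp [onLine]
  | mul_X p s hp =>
    have h0 := eval_onLine a D p 0
    rw [zero_smul, add_zero] at h0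
    rw [dd_mul, dd_X, ← hp, ← h0]
    simp only [onLine, map_mul, aeval_X, Polynomial.derivative_mul]
    simp; ring

lemma dd_congr {τ : Type} [Fintype τ] [DecidableEq τ] {a D : σ → ℂ} {a' D' : τ → ℂ}
    {p : MvPolynomial σ ℂ} {p' : MvPolynomial τ ℂ}
    (h : ∀ t : ℂ, eval (a + t • D) p = eval (a' + t • D') p') : dd a D p = dd a' D' p' := by
  rw [← coeff_onLine, ← coeff_onLine]
  congr 2
  apply Polynomial.funext
  intro t
  rw [eval_onLine, eval_onLine, h]

lemma dd_affine {a D : σ → ℂ} {p : MvPolynomial σ ℂ} {c0 c1 : ℂ}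
    (h : ∀ t : ℂ, eval (a + t • D) p = c0 + t * c1) : dd a D p = c1 := by
  rw [← coeff_onLine]
  have : onLine a D p = Polynomial.C c0 + Polynomial.X * Polynomial.C c1 := by
    apply Polynomial.funext
    intro t
    rw [eval_onLine, h]; simp; ring
  rw [this]; simp

lemma sub_linear_mem (p : MvPolynomial σ ℂ) (hp : eval 0 p = 0) :
    p - ∑ s, C (eval 0 (pderiv s p)) * X s ∈ m0 σ ^ 2 := by
  obtain ⟨a, ha⟩ := exists_linear_part p
  have key : ∀ q ∈ m0 σ ^ 2, ∀ D, dd 0 D q = 0 := by
    intro q hq D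
    rw [sq] at hq
    refine Submodule.mul_induction_on hq (fun x hx y hy => ?_) (fun x y hx hy => ?_)
    · rw [dd_mul, mem_m0.1 hx, mem_m0.1 hy]; simp
    · rw [dd_add, hx, hy, add_zero]
  have e : ∀ s, eval 0 (pderiv s p) = a s := by
    intro s
    have h1 := key _ ha (Pi.single s 1)
    simp only [dd, map_sub, map_sum, pderiv_C, Derivation.leibniz, pderiv_X] at h1
    rw [Finset.sum_eq_single s] at h1
    · rw [Finset.sum_eq_single s] at h1
      · simpa [sub_eq_zero] using h1
      · intro b _ hb; simp [Pi.single_eq_of_ne hb]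
      · simp
    · intro b _ hb; simp [Pi.single_eq_of_ne hb]
    · simp
  simp only [e]
  rwa [hp, map_zero, sub_zero] at ha

lemma nakayama_max {R : Type} [CommRing R] [IsLocalRing R] [IsNoetherianRing R] (N : Ideal R)
    (h : maximalIdeal R ≤ N ⊔ maximalIdeal R ^ 2) : maximalIdeal R ≤ N := by
  refine Submodule.le_of_le_smul_of_le_jacobson_bot (I := maximalIdeal R)
    (maximalIdeal R).fg_of_isNoetherianRing (maximalIdeal_le_jacobson _) ?_
  rwa [smul_eq_mul, ← sq]

/-- Singularity: more independent lines through the origin than the number of equations needed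
to cut the set down to the origin. -/
lemma not_regular_of_lines' (S : Type) [CommRing S] [Algebra (MvPolynomial σ ℂ) S]
    [IsLocalization.AtPrime S (m0 σ)] [IsLocalRing S] [IsNoetherianRing S]
    {V : Set (σ → ℂ)} {d : ℕ} (D : Fin (d + 1) → σ → ℂ)
    (hD : ∀ w : Fin (d + 1) → ℂ, ∑ i, w i • D i = 0 → w = 0) (hV : ∀ i (t : ℂ), t • D i ∈ V)
    (x : Fin d → MvPolynomial σ ℂ) (hx0 : ∀ i, eval 0 (x i) = 0)
    (hx : ∀ u, (∀ p ∈ vanishingIdeal ℂ V, eval u p = 0) → (∀ i, eval u (x i) = 0) → u = 0) :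
    ¬ IsRegularLocalRing (S ⧸ (vanishingIdeal ℂ V).map (algebraMap _ S)) := by
  intro hreg
  set I := vanishingIdeal ℂ V with hI
  set J := I.map (algebraMap _ S) with hJ
  have hreg' : IsRegularLocalRing (S ⧸ J) := hreg
  let π : MvPolynomial σ ℂ →+* S ⧸ J := (Ideal.Quotient.mk J).comp (algebraMap _ S)
  have hmax : maximalIdeal (S ⧸ J) = (m0 σ).map π := by
    rw [← Ideal.map_map, IsLocalization.AtPrime.map_eq_maximalIdeal (m0 σ) S]
    exact (map_maximalIdeal_of_surjective _ Ideal.Quotient.mk_surjective).symm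
  have hπI : ∀ p ∈ I, π p = 0 := fun p hp =>
    Ideal.Quotient.eq_zero_iff_mem.2 (Ideal.mem_map_of_mem _ hp)
  classical
  -- upper bound for the dimension
  have hdim : ringKrullDim (S ⧸ J) ≤ d := by
    rw [← IsLocalRing.maximalIdeal_height_eq_ringKrullDim]
    have hmin : maximalIdeal (S ⧸ J) ∈
        (Ideal.span ((Finset.univ.image fun i => π (x i) : Finset (S ⧸ J)) : Set (S ⧸ J))).minimalPrimes := by
      refine ⟨⟨inferInstance, ?_⟩, fun q hq _ => ?_⟩
      · rw [Ideal.span_le, hmax]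
        intro y hy
        simp only [Finset.coe_image, Set.mem_image] at hy
        obtain ⟨i, -, rfl⟩ := hy
        exact Ideal.mem_map_of_mem _ (mem_m0.2 (hx0 i))
      · rw [hmax, Ideal.map_le_iff_le_comap]
        have hq1 := hq.1
        have h1 : I ⊔ Ideal.span (Set.range x) ≤ q.comap π := by
          refine sup_le (fun p hp => ?_) ?_
          · rw [Ideal.mem_comap, hπI p hp]; exact q.zero_mem
          · rw [Ideal.span_le]
            rintro _ ⟨i, rfl⟩
            exact hq.2 (Ideal.subset_span (by simp))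
        refine le_trans ?_ ((Ideal.IsPrime.isRadical inferInstance).radical_le_iff.2 h1)
        rw [← vanishingIdeal_zeroLocus_eq_radical (K := ℂ)]
        intro p hp u hu
        rw [hx u (fun p hp => hu p (Ideal.mem_sup_left hp)) fun i =>
          hu _ (Ideal.mem_sup_right (Ideal.subset_span ⟨i, rfl⟩))]
        exact mem_m0.1 hp
    have h2 := Ideal.height_le_card_of_mem_minimalPrimes_span_finset hmin
    have h3 : (Finset.univ.image fun i => π (x i)).card ≤ d :=
      Finset.card_image_le.trans (by simp)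
    exact_mod_cast h2.trans (by exact_mod_cast h3)
  have h2 := hreg'.spanFinrank_maximalIdeal
  have fg := (maximalIdeal (S ⧸ J)).fg_of_isNoetherianRing
  obtain ⟨t, ht, htspan⟩ := Submodule.FG.exists_span_finset_card_eq_spanFinrank fg
  have hcard : t.card ≤ d := by
    have : ((t.card : ℕ) : WithBot ℕ∞) ≤ d := by rw [ht, h2]; exact hdim
    exact_mod_cast this
  have hlift : ∀ y : t, ∃ a ∈ m0 σ, y.1 ∈ Ideal.span {π a} := by
    rintro ⟨y, hy⟩
    obtain ⟨z, rfl⟩ := Ideal.Quotient.mk_surjective y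
    obtain ⟨⟨a, b⟩, rfl⟩ := IsLocalization.mk'_surjective (m0 σ).primeCompl z
    have hb : IsUnit (π b) := (IsLocalization.map_units S b).map (Ideal.Quotient.mk J)
    have e : Ideal.Quotient.mk J (IsLocalization.mk' S a b) * π b = π a := by
      change _ * Ideal.Quotient.mk J _ = Ideal.Quotient.mk J _
      rw [← map_mul, IsLocalization.mk'_spec]
    refine ⟨a, ?_, ?_⟩
    · by_contra ha
      have h4 : IsUnit (π a) :=
        (IsLocalization.map_units S (⟨a, ha⟩ : (m0 σ).primeCompl)).map (Ideal.Quotient.mk J)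
      rw [← e] at h4
      have h5 : Ideal.Quotient.mk J (IsLocalization.mk' S a b) ∈ maximalIdeal (S ⧸ J) :=
        htspan ▸ Submodule.subset_span hy
      exact h5 (isUnit_of_mul_isUnit_left h4)
    · exact (Ideal.mul_unit_mem_iff_mem _ hb).1 (e ▸ Ideal.mem_span_singleton_self _)
  choose a ha0 ha using hlift
  let f : (Fin (d + 1) → ℂ) →ₗ[ℂ] (t → ℂ) :=
    Matrix.mulVecLin (Matrix.of fun (y : t) i => dd 0 (D i) (a y))
  obtain ⟨w, hw, hw0⟩ := (Submodule.ne_bot_iff _).1 (f.ker_ne_bot_of_finrank_lt (by simp; omega))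
  apply hw0
  apply hD
  set E := ∑ i, w i • D i with hE
  let A : Ideal (MvPolynomial σ ℂ) :=
    { carrier := {p | eval 0 p = 0 ∧ dd 0 E p = 0}
      zero_mem' := ⟨by simp, by simp [dd]⟩
      add_mem' := fun {p q} hp hq => ⟨by rw [map_add, hp.1, hq.1, add_zero],
        by rw [dd_add, hp.2, hq.2, add_zero]⟩
      smul_mem' := fun c p hp => ⟨by rw [smul_eq_mul, map_mul, hp.1, mul_zero],
        by rw [smul_eq_mul, dd_mul, hp.1, hp.2]; simp⟩ }
  have hIA : I ≤ A := by
    intro p hp
    refine ⟨by simpa using hp _ (hV 0 0), ?_⟩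
    rw [hE, dd_dir_sum]
    refine Finset.sum_eq_zero fun i _ => ?_
    rw [dd_affine (c0 := 0) (c1 := 0), mul_zero]
    intro s
    simpa using hp _ (hV i s)
  have haA : ∀ y, a y ∈ A := by
    intro y
    refine ⟨mem_m0.1 (ha0 y), ?_⟩
    have := congrFun (LinearMap.mem_ker.1 hw) y
    rw [hE, dd_dir_sum]
    simpa [f, Matrix.mulVec, dotProduct, mul_comm] using this
  have hle : maximalIdeal (S ⧸ J) ≤ A.map π := by
    rw [← htspan, Submodule.span_le]
    intro y hy
    exact (Ideal.span_singleton_le_iff_mem _).2 (Ideal.mem_map_of_mem _ (haA ⟨y, hy⟩)) (ha ⟨y, hy⟩)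
  funext s
  have h6 : π (X s) ∈ A.map π := hle (hmax ▸ Ideal.mem_map_of_mem _ (mem_m0.2 (by simp)))
  rw [← Ideal.map_map] at h6
  have h7 : algebraMap (MvPolynomial σ ℂ) S (X s) ∈ A.map (algebraMap _ S) := by
    have h8 : algebraMap (MvPolynomial σ ℂ) S (X s) ∈ ((A.map (algebraMap _ S)).map (Ideal.Quotient.mk J)).comap
        (Ideal.Quotient.mk J) := h6
    rw [Ideal.comap_map_of_surjective _ Ideal.Quotient.mk_surjective, ← RingHom.ker_eq_comap_bot,
      Ideal.mk_ker, sup_eq_left.2 (Ideal.map_mono hIA)] at h8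
    exact h8
  obtain ⟨b, hb, hbA⟩ := (IsLocalization.algebraMap_mem_map_algebraMap_iff (m0 σ).primeCompl S A _).1 h7
  have h9 := hbA.2
  rw [dd_mul, dd_X, eval_X] at h9
  have hb0 : eval 0 b ≠ 0 := fun h => hb (mem_m0.2 h)
  rw [Pi.zero_apply, zero_mul, add_zero] at h9
  exact (mul_eq_zero.1 h9).resolve_left hb0

/-- Regularity: locally the set is cut out by equations with independent differentials. -/
lemma regular_of_jac' (S : Type) [CommRing S] [Algebra (MvPolynomial σ ℂ) S]
    [IsLocalization.AtPrime S (m0 σ)] [IsLocalRing S] [IsNoetherianRing S]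
    (hS : ringKrullDim S = Fintype.card σ) {V : Set (σ → ℂ)} {r : ℕ} (G : Fin r → MvPolynomial σ ℂ)
    (hG0 : ∀ i, eval 0 (G i) = 0) (hGV : ∀ i, G i ∈ vanishingIdeal ℂ V)
    (hind : ∀ c : Fin r → ℂ, (∀ D, ∑ i, c i * dd 0 D (G i) = 0) → c = 0)
    (h : MvPolynomial σ ℂ) (h0 : eval 0 h ≠ 0)
    (hV : ∀ u, eval u h ≠ 0 → (∀ i, eval u (G i) = 0) → u ∈ V) :
    IsRegularLocalRing (S ⧸ (vanishingIdeal ℂ V).map (algebraMap _ S)) := by
  set I := vanishingIdeal ℂ V with hI
  set J := I.map (algebraMap _ S) with hJ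
  classical
  have hIm : I ≤ m0 σ := fun p hp => mem_m0.2 (hp 0 (hV 0 h0 hG0))
  have hJle : J ≤ maximalIdeal S := by
    rw [← IsLocalization.AtPrime.map_eq_maximalIdeal (m0 σ) S]; exact Ideal.map_mono hIm
  have hJne : J ≠ ⊤ := fun e => (maximalIdeal.isMaximal S).ne_top (top_le_iff.1 (e ▸ hJle))
  have : Nontrivial (S ⧸ J) := Ideal.Quotient.nontrivial_iff.2 hJne
  have : IsLocalRing (S ⧸ J) := .of_surjective' _ Ideal.Quotient.mk_surjective
  let π : MvPolynomial σ ℂ →+* S ⧸ J := (Ideal.Quotient.mk J).comp (algebraMap _ S)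
  have hmax : maximalIdeal (S ⧸ J) = (m0 σ).map π := by
    rw [← Ideal.map_map, IsLocalization.AtPrime.map_eq_maximalIdeal (m0 σ) S]
    exact (map_maximalIdeal_of_surjective _ Ideal.Quotient.mk_surjective).symm
  have hπI : ∀ p ∈ I, π p = 0 := fun p hp =>
    Ideal.Quotient.eq_zero_iff_mem.2 (Ideal.mem_map_of_mem _ hp)
  -- lower bound for the dimension
  let T : Finset S := Finset.univ.image fun i => algebraMap _ S (G i)
  have hunit : IsUnit (algebraMap _ S h) :=
    IsLocalization.map_units S (⟨h, fun e => h0 (mem_m0.1 e)⟩ : (m0 σ).primeCompl)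
  have hrad : J ≤ (Ideal.span (T : Set S)).radical := by
    rw [hJ, Ideal.map_le_iff_le_comap]
    intro p hp
    have h1 : h * p ∈ (Ideal.span (Set.range G)).radical := by
      rw [← vanishingIdeal_zeroLocus_eq_radical (K := ℂ)]
      intro u hu
      rw [map_mul]
      by_cases e : eval u h = 0
      · exact mul_eq_zero_of_left e _
      · exact mul_eq_zero_of_right _ (hp u (hV u e fun i => hu _ (Ideal.subset_span ⟨i, rfl⟩)))
    obtain ⟨n, hn⟩ := h1
    refine ⟨n, ?_⟩
    have h2 := Ideal.mem_map_of_mem (algebraMap _ S) hn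
    rw [Ideal.map_span, ← Set.range_comp, map_pow, map_mul, mul_pow] at h2
    have h3 := (Ideal.unit_mul_mem_iff_mem _ (hunit.pow n)).1 h2
    refine Ideal.span_mono ?_ h3
    rintro _ ⟨i, rfl⟩
    simp [T]
  have hdim : (Fintype.card σ : WithBot ℕ∞) ≤ ringKrullDim (S ⧸ J) + r := by
    have h1 := ringKrullDim_le_ringKrullDim_quotient_add_card T (by
      rw [IsLocalRing.ringJacobson_eq_maximalIdeal, ← IsLocalization.AtPrime.map_eq_maximalIdeal (m0 σ) S]
      intro y hy
      simp only [T, Finset.coe_image, Set.mem_image] at hy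
      obtain ⟨i, -, rfl⟩ := hy
      exact Ideal.mem_map_of_mem _ (mem_m0.2 (hG0 i)))
    rw [hS] at h1
    have h2 : ringKrullDim (S ⧸ Ideal.span (T : Set S)) ≤ ringKrullDim (S ⧸ J) := by
      rw [ringKrullDim_quotient, ringKrullDim_quotient, ← PrimeSpectrum.zeroLocus_radical]
      exact Order.krullDim_le_of_strictMono
        (Set.inclusion (PrimeSpectrum.zeroLocus_anti_mono_ideal hrad)) fun _ _ hab => hab
    have h3 : T.card ≤ r := Finset.card_image_le.trans (by simp)
    exact h1.trans (add_le_add h2 (by exact_mod_cast h3))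
  -- upper bound for the embedding dimension
  let v : Fin r → σ → ℂ := fun i s => eval 0 (pderiv s (G i))
  have hv : LinearIndependent ℂ v := by
    rw [Fintype.linearIndependent_iff]
    intro c hc
    refine congrFun (hind c fun D => ?_)
    simp only [dd, Finset.mul_sum]
    rw [Finset.sum_comm]
    refine Finset.sum_eq_zero fun s _ => ?_
    have := congrFun hc s
    simp only [Finset.sum_apply, Pi.smul_apply, smul_eq_mul, Pi.zero_apply, v] at this
    rw [← mul_zero (D s), ← this, Finset.mul_sum]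
    exact Finset.sum_congr rfl fun i _ => by ring
  obtain ⟨U, hU⟩ := (Submodule.span ℂ (Set.range v)).exists_isCompl
  have hrk : r + Module.finrank ℂ U = Fintype.card σ := by
    have := Submodule.finrank_add_eq_of_isCompl hU
    rwa [finrank_span_eq_card hv, Fintype.card_fin, Module.finrank_fintype_fun_eq_card] at this
  let b := Module.finBasis ℂ U
  let L : (σ → ℂ) →ₗ[ℂ] MvPolynomial σ ℂ :=
    { toFun := fun w => ∑ s, C (w s) * X s
      map_add' := fun w w' => by simp [add_mul, Finset.sum_add_distrib]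
      map_smul' := fun c w => by simp [Finset.smul_sum, smul_eq_C_mul, mul_assoc] }
  have hL0 : ∀ w, L w ∈ m0 σ := fun w => mem_m0.2 (by simp [L])
  let Y : Finset (S ⧸ J) := Finset.univ.image fun j => π (L (b j))
  have hY : Ideal.span (Y : Set (S ⧸ J)) ≤ maximalIdeal (S ⧸ J) := by
    rw [Ideal.span_le, hmax]
    intro y hy
    simp only [Y, Finset.coe_image, Set.mem_image] at hy
    obtain ⟨i, -, rfl⟩ := hy
    exact Ideal.mem_map_of_mem _ (hL0 _)
  have hle : maximalIdeal (S ⧸ J) ≤ Ideal.span (Y : Set (S ⧸ J)) := by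
    refine nakayama_max _ ?_
    set B := (Ideal.span (Y : Set (S ⧸ J)) ⊔ maximalIdeal (S ⧸ J) ^ 2).comap π with hB
    have hall : ∀ w, L w ∈ B := by
      intro w
      have hw : w ∈ Submodule.span ℂ (Set.range v) ⊔ U := hU.sup_eq_top ▸ Submodule.mem_top
      obtain ⟨w1, h1, w2, h2, rfl⟩ := Submodule.mem_sup.1 hw
      clear hw
      rw [map_add]
      refine B.add_mem ?_ ?_
      · induction h1 using Submodule.span_induction with
        | mem _ hx =>
          obtain ⟨i, rfl⟩ := hx
          have h3 := Ideal.mem_map_of_mem π (sub_linear_mem (G i) (hG0 i))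
          rw [Ideal.map_pow, ← hmax, map_sub, hπI _ (hGV i), zero_sub] at h3
          exact Ideal.mem_sup_right (neg_mem_iff.1 h3)
        | zero => simp
        | add _ _ _ _ hx hy => rw [map_add]; exact B.add_mem hx hy
        | smul c _ _ hx => rw [map_smul, smul_eq_C_mul]; exact B.mul_mem_left _ hx
      · have h3 : w2 = ∑ j, b.repr ⟨w2, h2⟩ j • (b j : σ → ℂ) := by
          have := congrArg Subtype.val (b.sum_repr ⟨w2, h2⟩)
          rw [Submodule.coe_sum] at this
          exact this.symm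
        rw [h3, map_sum]
        refine B.sum_mem fun j _ => ?_
        rw [map_smul, smul_eq_C_mul]
        exact B.mul_mem_left _ (Ideal.mem_sup_left (Ideal.subset_span (by simp [Y])))
    conv_lhs => rw [hmax]
    rw [Ideal.map_le_iff_le_comap]
    refine m0_eq.le.trans ?_
    rw [Ideal.span_le]
    rintro _ ⟨s, rfl⟩
    have h4 : L (Pi.single s 1) = X s := by
      change ∑ s', C ((Pi.single s 1 : σ → ℂ) s') * X s' = X s
      rw [Finset.sum_eq_single s]
      · simp
      · intro b _ hb; simp [Pi.single_eq_of_ne hb]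
      · simp
    exact h4 ▸ hall _
  apply IsRegularLocalRing.of_spanFinrank_maximalIdeal_le
  have hcard : (maximalIdeal (S ⧸ J)).spanFinrank ≤ Module.finrank ℂ U := by
    rw [le_antisymm hle hY]
    refine (Submodule.spanFinrank_span_le_ncard_of_finite (Finset.finite_toSet Y)).trans ?_
    rw [Set.ncard_coe_finset]
    exact Finset.card_image_le.trans (by simp)
  have h5 : ((maximalIdeal (S ⧸ J)).spanFinrank : WithBot ℕ∞) + r ≤ ringKrullDim (S ⧸ J) + r := by
    refine le_trans ?_ hdim
    rw [← hrk]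
    exact_mod_cast (by omega)
  exact ENat.WithBot.add_le_add_natCast_right_iff.1 h5

lemma not_regular_of_lines {V : Set (σ → ℂ)} {d : ℕ} (D : Fin (d + 1) → σ → ℂ)
    (hD : ∀ w : Fin (d + 1) → ℂ, ∑ i, w i • D i = 0 → w = 0) (hV : ∀ i (t : ℂ), t • D i ∈ V)
    (x : Fin d → MvPolynomial σ ℂ) (hx0 : ∀ i, eval 0 (x i) = 0)
    (hx : ∀ u, (∀ p ∈ vanishingIdeal ℂ V, eval u p = 0) → (∀ i, eval u (x i) = 0) → u = 0) :
    ¬ IsRegularLocalRing (LocQ (vanishingIdeal ℂ V)) :=
  not_regular_of_lines' (Localization.AtPrime (m0 σ)) D hD hV x hx0 hx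

lemma regular_of_jac {V : Set (σ → ℂ)} {r : ℕ} (G : Fin r → MvPolynomial σ ℂ)
    (hG0 : ∀ i, eval 0 (G i) = 0) (hGV : ∀ i, G i ∈ vanishingIdeal ℂ V)
    (hind : ∀ c : Fin r → ℂ, (∀ D, ∑ i, c i * dd 0 D (G i) = 0) → c = 0)
    (h : MvPolynomial σ ℂ) (h0 : eval 0 h ≠ 0)
    (hV : ∀ u, eval u h ≠ 0 → (∀ i, eval u (G i) = 0) → u ∈ V) :
    IsRegularLocalRing (LocQ (vanishingIdeal ℂ V)) :=
  regular_of_jac' (Localization.AtPrime (m0 σ)) dim_m0 G hG0 hGV hind h h0 hV

end Pool.Agent.P.MP_25f57f_ag
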