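import Pool.Agent.P.MP_25f57f_ag.Gen
import Pool.Agent.P.MP_25f57f_ag.Jac

/-! More general lemmas on the flag variety. -/

set_option autoImplicit false

open MvPolynomial Matrix

namespace Pool.Agent.P.MP_25f57f_ag

noncomputable section

variable {n : ℕ}

lemma eval_aeval_ent {τ : Type} (P : Matrix (Fin n) (Fin n) (MvPolynomial τ ℂ)) (u : τ → ℂ)
    (h : MvPolynomial (Fin n × Fin n) ℂ) :
    eval u (aeval (ent P) h) = eval (ent (P.map (eval u))) h := by
  have : (aeval u : MvPolynomial τ ℂ →ₐ[ℂ] ℂ).comp (aeval (ent P)) =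
      aeval (ent (P.map (eval u))) := by
    ext s; simp [ent, aeval_eq_eval]
  have h2 := DFunLike.congr_fun this h
  simpa only [AlgHom.comp_apply, aeval_eq_eval] using h2

/-- the generic matrix -/
def Xm (n : ℕ) : Matrix (Fin n) (Fin n) (MvPolynomial (Fin n × Fin n) ℂ) := of fun i j => X (i, j)

lemma eval_Xm (A : Matrix (Fin n) (Fin n) ℂ) (i j : Fin n) : eval (ent A) (Xm n i j) = A i j := by
  simp [Xm, ent]

lemma Xm_map (A : Matrix (Fin n) (Fin n) ℂ) : (Xm n).map (eval (ent A)) = A := by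
  ext i j; exact eval_Xm A i j

lemma eval_chart (A : Matrix (Fin n) (Fin n) ℂ) (u : Low n → ℂ)
    (h : MvPolynomial (Fin n × Fin n) ℂ) :
    eval u (aeval (ent (chartX A)) h) = eval (ent (A * unitri u)) h := by
  rw [eval_aeval_ent]
  congr 3
  ext i j
  exact eval_chartX A u i j

lemma toFlag_mul_borel (g b : GL (Fin n) ℂ) (hb : ∀ i j, j < i → b.val i j = 0) :
    toFlag (g * b) = toFlag g := by
  symm
  rw [toFlag_eq_iff, inv_mul_cancel_left]
  exact fun i j h => hb i j h

lemma isClosed_forall_rep (q : MvPolynomial (Fin n × Fin n) ℂ) :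
    IsClosed {x : FlagVar n | ∀ g : GL (Fin n) ℂ, toFlag g = x → eval (ent g.val) q = 0} := by
  rw [isClosed_iff]
  intro g hg g' hg'
  have hb : g⁻¹ * g' ∈ borel n := toFlag_eq_iff.1 hg'.symm
  have key : ∀ A : Matrix (Fin n) (Fin n) ℂ,
      eval (ent A) (aeval (ent (Xm n * (g⁻¹ * g').val.map C)) q) =
        eval (ent (A * (g⁻¹ * g').val)) q := by
    intro A
    rw [eval_aeval_ent, Matrix.map_mul, Xm_map]
    congr 4
    ext i j; simp only [map_apply, eval_C]
  have := hg (aeval (ent (Xm n * (g⁻¹ * g').val.map C)) q) fun g'' h'' => by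
    rw [key, ← Units.val_mul]
    exact h'' _ (toFlag_mul_borel g'' _ fun i j h => hb h)
  rwa [key, ← Units.val_mul, mul_inv_cancel_left] at this

lemma isPreirreducible_orbit (p q : ℕ) (c : Fin (p + q) → ℤˣ ⊕ ℕ) :
    IsPreirreducible (orbit p q c) := by
  rw [isPreirreducible_iff_isClosed_union_isClosed]
  intro z1 z2 h1 h2 hsub
  by_contra hc
  rw [not_or, Set.not_subset, Set.not_subset] at hc
  obtain ⟨⟨x1, ⟨g1, rfl, s1, a1⟩, hx1'⟩, ⟨x2, ⟨g2, rfl, s2, a2⟩, hx2'⟩⟩ := hc
  have e1 := mt ((isClosed_iff _).1 h1 g1) hx1'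
  have e2 := mt ((isClosed_iff _).1 h2 g2) hx2'
  push Not at e1 e2
  obtain ⟨p1, hp1, hp1'⟩ := e1
  obtain ⟨p2, hp2, hp2'⟩ := e2
  set P := seg g1.val g2.val with hP
  have n0 : P.det ≠ 0 := by
    intro h
    have := eval_det P 0
    rw [h, hP, seg_zero, Polynomial.eval_zero] at this
    exact g1.det_ne_zero this.symm
  have n1 : aeval (ent P) p1 ≠ 0 := by
    intro h
    have := eval_curve P p1 0
    rw [h, hP, seg_zero, Polynomial.eval_zero] at this
    exact hp1' this.symm
  have n2 : aeval (ent P) p2 ≠ 0 := by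
    intro h
    have := eval_curve P p2 1
    rw [h, hP, seg_one, Polynomial.eval_zero] at this
    exact hp2' this.symm
  apply mul_ne_zero (mul_ne_zero n0 n1) n2
  apply Polynomial.funext
  intro t
  rw [Polynomial.eval_mul, Polynomial.eval_mul, Polynomial.eval_zero, eval_det, eval_curve,
    eval_curve]
  by_cases ht : (P.map (Polynomial.evalRingHom t)).det = 0
  · rw [ht, zero_mul, zero_mul]
  · obtain ⟨g, hg⟩ := exists_GL ht
    have hcol : ∀ i, (fun r => g.val r i) =
        (1 - t) • (fun r => g1.val r i) + t • fun r => g2.val r i := by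
      intro i; funext r
      rw [hg, hP, seg_eval]; simp; ring
    have hgZ : toFlag g ∈ orbit p q c := by
      refine ⟨g, rfl, fun i ε hi => ?_, fun i j hij => ?_⟩
      · rw [hcol, mulVec_add, mulVec_smul, mulVec_smul, s1 i ε hi, s2 i ε hi, smul_add,
          smul_comm (1 - t), smul_comm t]
      · rw [hcol, hcol, mulVec_add, mulVec_smul, mulVec_smul, a1 i j hij, a2 i j hij]
    rw [← hg]
    rcases hsub hgZ with h | h
    · rw [hp1 g h, mul_zero, zero_mul]
    · rw [hp2 g h, mul_zero]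

lemma orbit_left {p q : ℕ} {c : Fin (p + q) → ℤˣ ⊕ ℕ} (k g : GL (Fin (p + q)) ℂ)
    (hk : theta p q * k.val = k.val * theta p q) (hg : toFlag g ∈ orbit p q c) :
    toFlag (k * g) ∈ orbit p q c := by
  obtain ⟨g0, h0, s, a⟩ := hg
  have hcol : ∀ i, (fun r => (k * g0).val r i) = k.val *ᵥ fun r => g0.val r i := fun i => rfl
  refine ⟨k * g0, ?_, fun i ε hi => ?_, fun i j hij => ?_⟩
  · rw [toFlag_eq_iff] at h0 ⊢
    have : (k * g0)⁻¹ * (k * g) = g0⁻¹ * g := by group
    rwa [this]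
  · rw [hcol, mulVec_mulVec, hk, ← mulVec_mulVec, s i ε hi, mulVec_smul]
  · rw [hcol, hcol, mulVec_mulVec, hk, ← mulVec_mulVec, a i j hij]

/-- strictly lower triangular matrix with given entries -/
def lowM (u : Low n → ℂ) : Matrix (Fin n) (Fin n) ℂ :=
  of fun i j => if h : j < i then u ⟨(i, j), h⟩ else 0

lemma unitri_smul (u : Low n → ℂ) (t : ℂ) : unitri (t • u) = 1 + t • lowM u := by
  ext i j
  simp only [unitri, lowM, of_apply, Matrix.add_apply, Matrix.smul_apply, one_apply, Pi.smul_apply]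
  split_ifs with h1 h2
  · exact absurd h2 h1.ne'
  · simp
  · simp
  · simp

lemma ent_line (A D : Matrix (Fin n) (Fin n) ℂ) (t : ℂ) : ent A + t • ent D = ent (A + t • D) := rfl

/-- Jacobian criterion in a chart, tested on the space of all matrices. -/
lemma regular_chart {Y : Set (FlagVar n)} {f : Matrix (Fin n) (Fin n) ℂ → Prop}
    (hY : ∀ g : GL (Fin n) ℂ, toFlag g ∈ Y ↔ f g.val)
    (hf : ∀ M b : Matrix (Fin n) (Fin n) ℂ, (∀ i j, j < i → b i j = 0) → f M → f (M * b))
    {r : ℕ} (F : Fin r → MvPolynomial (Fin n × Fin n) ℂ) (H : MvPolynomial (Fin n × Fin n) ℂ)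
    (hF : ∀ M, f M → ∀ i, eval (ent M) (F i) = 0)
    (hH : ∀ M, eval (ent M) H ≠ 0 → (∀ i, eval (ent M) (F i) = 0) → f M)
    (g : GL (Fin n) ℂ) (hg : f g.val) (hg' : eval (ent g.val) H ≠ 0)
    (hind : ∀ c : Fin r → ℂ, (∀ D, ∑ i, c i * dd (ent g.val) (ent D) (F i) = 0) → c = 0) :
    IsRegularLocalRing (LocQ (vanishingIdeal ℂ (chart Y g))) := by
  refine regular_of_jac (fun i => aeval (ent (chartX g.val)) (F i)) (fun i => ?_)
    (fun i u hu => ?_) (fun c hc => hind c fun D => ?_) (aeval (ent (chartX g.val)) H) ?_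
    (fun u h1 h2 => ?_)
  · rw [eval_chart, unitri_zero, Matrix.mul_one, hF _ hg]
  · rw [aeval_eq_eval, eval_chart]
    exact hF _ ((mem_chart hY g u).1 hu) i
  · set N := (g⁻¹).val * D with hN
    let w : Low n → ℂ := fun s => N s.1.1 s.1.2
    have hD : ent D = ent (g.val * lowM w) + ent (g.val * (N - lowM w)) := by
      have : D = g.val * lowM w + g.val * (N - lowM w) := by
        rw [← Matrix.mul_add, add_sub_cancel, hN, ← Matrix.mul_assoc, ← Units.val_mul,
          mul_inv_cancel, Units.val_one, Matrix.one_mul]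
      conv_lhs => rw [this]
      rfl
    rw [← hc w]
    refine Finset.sum_congr rfl fun i _ => ?_
    rw [hD, dd_dir_add]
    have h1 : dd (ent g.val) (ent (g.val * (N - lowM w))) (F i) = 0 := by
      refine dd_affine (c0 := 0) fun t => ?_
      rw [ent_line, mul_zero, add_zero]
      have : g.val + t • (g.val * (N - lowM w)) = g.val * (1 + t • (N - lowM w)) := by
        rw [Matrix.mul_add, Matrix.mul_one, Matrix.mul_smul]
      rw [this]
      refine hF _ (hf _ _ (fun a b hab => ?_) hg) i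
      simp [lowM, hab, w, one_apply_ne hab.ne']
    rw [h1, add_zero]
    congr 1
    refine dd_congr fun t => ?_
    rw [zero_add, eval_chart, unitri_smul, ent_line, Matrix.mul_add, Matrix.mul_one,
      Matrix.mul_smul]
  · rwa [eval_chart, unitri_zero, Matrix.mul_one]
  · rw [mem_chart hY]
    rw [eval_chart] at h1
    exact hH _ h1 fun i => by rw [← eval_chart]; exact h2 i

lemma col_indep (g : GL (Fin n) ℂ) (w : Fin n → ℂ) (h : g.val *ᵥ w = 0) : w = 0 :=
  eq_zero_of_mulVec_eq_zero g.det_ne_zero h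

/-- all `2 × 2` minors vanish -/
def R1 {m k : Type} (N : m → k → ℂ) : Prop := ∀ i i' j j', N i j * N i' j' = N i j' * N i' j

lemma R1.factor {m k : Type} {N : m → k → ℂ} (h : R1 N) :
    ∃ (a : m → ℂ) (b : k → ℂ), ∀ i j, N i j = b j * a i := by
  by_cases h0 : ∀ i j, N i j = 0
  · exact ⟨0, 0, fun i j => by simp [h0]⟩
  · push Not at h0
    obtain ⟨i0, j0, h0⟩ := h0
    refine ⟨fun i => N i j0, fun j => N i0 j / N i0 j0, fun i j => ?_⟩
    field_simp
    linear_combination h i i0 j j0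

lemma R1.of_factor {m k : Type} {N : m → k → ℂ} (a : m → ℂ) (b : k → ℂ)
    (h : ∀ i j, N i j = b j * a i) : R1 N := fun i i' j j' => by
  rw [h, h, h, h]; ring

lemma exists_perp (a b : Fin 3 → ℂ) : ∃ l : Fin 3 → ℂ, l ≠ 0 ∧ l ⬝ᵥ a = 0 ∧ l ⬝ᵥ b = 0 := by
  obtain ⟨l, hl, h⟩ := (exists_mulVec_eq_zero_iff (M := of ![a, b, 0])).2
    (by simp [det_fin_three])
  refine ⟨l, hl, ?_, ?_⟩
  · rw [dotProduct_comm]; exact congrFun h 0
  · rw [dotProduct_comm]; exact congrFun h 1

lemma exists_last_row {l : Fin 3 → ℂ} (hl : l ≠ 0) :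
    ∃ κ : Matrix (Fin 3) (Fin 3) ℂ, κ.det ≠ 0 ∧ κ 2 = l := by
  by_cases h0 : l 0 = 0
  · by_cases h1 : l 1 = 0
    · have h2 : l 2 ≠ 0 := fun h2 => hl (by funext i; fin_cases i <;> simpa)
      exact ⟨of ![![1, 0, 0], ![0, 1, 0], l], by simpa [det_fin_three] using h2, rfl⟩
    · exact ⟨of ![![1, 0, 0], ![0, 0, 1], l], by simpa [det_fin_three] using h1, rfl⟩
  · exact ⟨of ![![0, 1, 0], ![0, 0, 1], l], by simpa [det_fin_three] using h0, rfl⟩

lemma exists_third {a b : Fin 3 → ℂ} (h : ∀ s t : ℂ, s • a + t • b = 0 → s = 0 ∧ t = 0) :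
    ∃ c : Fin 3 → ℂ, (of fun i j => ![a, b, c] j i).det ≠ 0 := by
  by_contra hc
  push Not at hc
  have e0 := hc ![1, 0, 0]
  have e1 := hc ![0, 1, 0]
  have e2 := hc ![0, 0, 1]
  simp [det_fin_three] at e0 e1 e2
  have k : ∀ i, a i = 0 := by
    intro i
    refine neg_eq_zero.1 (h (b i) (-a i) ?_).2
    funext j
    fin_cases i <;> fin_cases j <;> simp <;>
      first | ring1 | linear_combination e0 | linear_combination -e0 | linear_combination e1
            | linear_combination -e1 | linear_combination e2 | linear_combination -e2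
  exact one_ne_zero (h 1 0 (by funext j; simp [k])).1

end

end Pool.Agent.P.MP_25f57f_ag
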