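import Pool.Agent.P.MP_25f57f_ag.Gen

/-! The counterexample: the closure of the orbit `1+221` is singular exactly along the closure
of the orbit `++1-1`. -/

set_option autoImplicit false

open MvPolynomial Matrix

namespace Pool.Agent.P.MP_25f57f_ag

noncomputable section

/-- the clan `1+221` -/
def gam : Fin 5 → ℤˣ ⊕ ℕ := ![Sum.inr 1, Sum.inl 1, Sum.inr 2, Sum.inr 2, Sum.inr 1]

/-- the clan `++1-1` -/
def alp : Fin 5 → ℤˣ ⊕ ℕ := ![Sum.inl 1, Sum.inl 1, Sum.inr 1, Sum.inl (-1), Sum.inr 1]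

/-- theta for `(3,2)` -/
def th : Matrix (Fin 5) (Fin 5) ℂ := theta 3 2

lemma th_eq : th = diagonal ![1, 1, 1, -1, -1] := by
  unfold th theta
  congr 1
  funext i
  fin_cases i <;> rfl

lemma th_sq : th * th = 1 := by
  rw [th_eq, diagonal_mul_diagonal, ← diagonal_one]
  congr 1
  funext i
  fin_cases i <;> simp

lemma th_fix {v : Fin 5 → ℂ} : th *ᵥ v = (1 : ℂ) • v ↔ v 3 = 0 ∧ v 4 = 0 := by
  rw [th_eq, one_smul]
  constructor
  · intro h
    have h3 := congrFun h 3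
    have h4 := congrFun h 4
    rw [mulVec_diagonal] at h3 h4
    simp only [cons_val] at h3 h4
    exact ⟨by linear_combination (-1 / 2 : ℂ) * h3, by linear_combination (-1 / 2 : ℂ) * h4⟩
  · rintro ⟨h3, h4⟩
    funext i
    rw [mulVec_diagonal]
    fin_cases i <;> simp [h3, h4]

/-- the equation of the divisor -/
def fdet {R : Type} [CommRing R] (A : Matrix (Fin 5) (Fin 5) R) : R :=
  A 3 0 * A 4 1 - A 3 1 * A 4 0

/-- the vanishing of the lower left block -/
def blockZero (A : Matrix (Fin 5) (Fin 5) ℂ) : Prop := A 3 0 = 0 ∧ A 3 1 = 0 ∧ A 4 0 = 0 ∧ A 4 1 = 0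

/-- the divisor -/
def Yset : Set (FlagVar 5) := {x | ∃ g : GL (Fin 5) ℂ, toFlag g = x ∧ fdet g.val = 0}

/-- its singular locus -/
def Zset : Set (FlagVar 5) := {x | ∃ g : GL (Fin 5) ℂ, toFlag g = x ∧ blockZero g.val}

lemma mul_col (A b : Matrix (Fin 5) (Fin 5) ℂ) (hb : ∀ i j, j < i → b i j = 0) (r : Fin 5) :
    (A * b) r 0 = A r 0 * b 0 0 ∧ (A * b) r 1 = A r 0 * b 0 1 + A r 1 * b 1 1 := by
  simp only [mul_apply, Fin.sum_univ_five]
  rw [hb 1 0 (by decide), hb 2 0 (by decide), hb 3 0 (by decide), hb 4 0 (by decide),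
    hb 2 1 (by decide), hb 3 1 (by decide), hb 4 1 (by decide)]
  constructor <;> ring

lemma mem_Y (g : GL (Fin 5) ℂ) : toFlag g ∈ Yset ↔ fdet g.val = 0 := by
  refine ⟨?_, fun h => ⟨g, rfl, h⟩⟩
  rintro ⟨g', hg', h⟩
  obtain ⟨b, hb, he⟩ := exists_borel hg'
  rw [he]
  unfold fdet at h ⊢
  rw [(mul_col _ b hb 3).1, (mul_col _ b hb 3).2, (mul_col _ b hb 4).1, (mul_col _ b hb 4).2]
  linear_combination (b 0 0 * b 1 1) * h

lemma mem_Z (g : GL (Fin 5) ℂ) : toFlag g ∈ Zset ↔ blockZero g.val := by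
  refine ⟨?_, fun h => ⟨g, rfl, h⟩⟩
  rintro ⟨g', hg', h1, h2, h3, h4⟩
  obtain ⟨b, hb, he⟩ := exists_borel hg'
  rw [he]
  unfold blockZero
  rw [(mul_col _ b hb 3).1, (mul_col _ b hb 3).2, (mul_col _ b hb 4).1, (mul_col _ b hb 4).2,
    h1, h2, h3, h4]
  simp

lemma isClosed_Y : IsClosed Yset := by
  rw [isClosed_iff]
  intro g hg
  rw [mem_Y]
  have := hg (X (3, 0) * X (4, 1) - X (3, 1) * X (4, 0)) fun g' hg' => by
    simpa [ent, fdet] using (mem_Y g').1 hg'
  simpa [ent, fdet] using this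

lemma isClosed_Z : IsClosed Zset := by
  rw [isClosed_iff]
  intro g hg
  rw [mem_Z]
  refine ⟨?_, ?_, ?_, ?_⟩
  · simpa [ent] using hg (X (3, 0)) fun g' hg' => by simpa [ent] using ((mem_Z g').1 hg').1
  · simpa [ent] using hg (X (3, 1)) fun g' hg' => by simpa [ent] using ((mem_Z g').1 hg').2.1
  · simpa [ent] using hg (X (4, 0)) fun g' hg' => by simpa [ent] using ((mem_Z g').1 hg').2.2.1
  · simpa [ent] using hg (X (4, 1)) fun g' hg' => by simpa [ent] using ((mem_Z g').1 hg').2.2.2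

lemma orbit_gam_subset : (orbit 3 2 gam : Set (FlagVar 5)) ⊆ Yset := by
  rintro x ⟨g, hg, hs, -⟩
  have h := hs (1 : Fin 5) 1 rfl
  have h' : th *ᵥ (fun r : Fin 5 => g.val r (1 : Fin 5)) = (1 : ℂ) • fun r : Fin 5 =>
    g.val r (1 : Fin 5) := by simpa [th] using h
  obtain ⟨h3, h4⟩ := th_fix.1 h'
  refine ⟨g, hg, ?_⟩
  unfold fdet
  rw [h3, h4]; ring

lemma orbit_alp_subset : (orbit 3 2 alp : Set (FlagVar 5)) ⊆ Zset := by
  rintro x ⟨g, hg, hs, -⟩
  have h := hs (1 : Fin 5) 1 rfl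
  have h' : th *ᵥ (fun r : Fin 5 => g.val r (1 : Fin 5)) = (1 : ℂ) • fun r : Fin 5 =>
    g.val r (1 : Fin 5) := by simpa [th] using h
  obtain ⟨h3, h4⟩ := th_fix.1 h'
  have k := hs (0 : Fin 5) 1 rfl
  have k' : th *ᵥ (fun r : Fin 5 => g.val r (0 : Fin 5)) = (1 : ℂ) • fun r : Fin 5 =>
    g.val r (0 : Fin 5) := by simpa [th] using k
  obtain ⟨k3, k4⟩ := th_fix.1 k'
  exact ⟨g, hg, k3, h3, k4, h4⟩

lemma arc_gam {i j : Fin 5} (h : IsArc gam i j) : (i = 0 ∧ j = 4) ∨ (i = 2 ∧ j = 3) := by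
  obtain ⟨hij, k, h1, h2⟩ := h
  have key : ∀ i j : Fin 5, i < j → gam i = gam j → (gam i).isRight = true →
      (i = 0 ∧ j = 4) ∨ (i = 2 ∧ j = 3) := by decide
  exact key i j hij (h1.trans h2.symm) (by rw [h1]; rfl)

lemma arc_alp {i j : Fin 5} (h : IsArc alp i j) : i = 2 ∧ j = 4 := by
  obtain ⟨hij, k, h1, h2⟩ := h
  have key : ∀ i j : Fin 5, i < j → alp i = alp j → (alp i).isRight = true →
      i = 2 ∧ j = 4 := by decide
  exact key i j hij (h1.trans h2.symm) (by rw [h1]; rfl)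

lemma mv (M : Matrix (Fin 5) (Fin 5) ℂ) (a b c d e : ℂ) (r : Fin 5) :
    (M *ᵥ ![a, b, c, d, e]) r = M r 0 * a + M r 1 * b + M r 2 * c + M r 3 * d + M r 4 * e := by
  simp [mulVec, dotProduct, Fin.sum_univ_five]

lemma mem_gam (g : GL (Fin 5) ℂ) (hf : fdet g.val = 0) (h1 : Nm th g.val 4 0 ≠ 0)
    (h2 : Nm th g.val 3 2 * Nm th g.val 4 0 - Nm th g.val 4 2 * Nm th g.val 3 0 ≠ 0) :
    toFlag g ∈ (orbit 3 2 gam : Set (FlagVar 5)) := by
  obtain ⟨M, hM, hM2, hMv⟩ := exists_conj th th_sq g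
  rw [Nm_eq hM] at h1 h2
  simp only [Matrix.smul_apply, smul_eq_mul] at h1 h2
  have k1 : M 4 0 ≠ 0 := right_ne_zero_of_mul h1
  have k2 : M 3 2 * M 4 0 - M 4 2 * M 3 0 ≠ 0 := by
    intro h; apply h2; linear_combination (g.val.det ^ 2) * h
  -- a fixed vector in the second step of the flag
  obtain ⟨x, y, hxy, e3, e4⟩ : ∃ x y : ℂ, (x ≠ 0 ∨ y ≠ 0) ∧ g.val 3 0 * x + g.val 3 1 * y = 0 ∧
      g.val 4 0 * x + g.val 4 1 * y = 0 := by
    unfold fdet at hf
    by_cases a : g.val 3 0 = 0 ∧ g.val 3 1 = 0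
    · by_cases b : g.val 4 0 = 0 ∧ g.val 4 1 = 0
      · exact ⟨1, 0, Or.inl one_ne_zero, by simp [a.1], by simp [b.1]⟩
      · refine ⟨g.val 4 1, -g.val 4 0, ?_, by simp [a.1, a.2], by ring⟩
        rw [neg_ne_zero]; tauto
    · refine ⟨g.val 3 1, -g.val 3 0, ?_, by ring, by linear_combination -hf⟩
      rw [neg_ne_zero]; tauto
  have hfix : M *ᵥ ![x, y, 0, 0, 0] = (1 : ℂ) • ![x, y, 0, 0, 0] := by
    apply hMv
    rw [th_fix]
    simp [mulVec, dotProduct, Fin.sum_univ_five, e3, e4]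
  have hy : y ≠ 0 := by
    intro hy
    have := congrFun hfix 4
    simp [mulVec, dotProduct, Fin.sum_univ_five, hy, k1] at this
    tauto
  let v : Fin 5 → Fin 5 → ℂ := ![![1, 0, 0, 0, 0], ![x, y, 0, 0, 0], ![-M 4 2, 0, M 4 0, 0, 0],
    M *ᵥ ![-M 4 2, 0, M 4 0, 0, 0], M *ᵥ ![1, 0, 0, 0, 0]]
  have hv0 : ∀ i r, i < r → v i r = 0 := by
    intro i r hir
    fin_cases i <;> fin_cases r <;> simp_all [v, mulVec, dotProduct, Fin.sum_univ_five]
    ring
  have hv1 : ∀ i, v i i ≠ 0 := by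
    intro i
    fin_cases i
    · simp [v]
    · simpa [v] using hy
    · simpa [v] using k1
    · change (M *ᵥ ![-M 4 2, 0, M 4 0, 0, 0]) 3 ≠ 0
      rw [mv]
      intro h; apply k2; linear_combination h
    · simpa [v, mulVec, dotProduct, Fin.sum_univ_five] using k1
  have hs : ∀ (i : Fin 5) (ε : ℤˣ), gam i = Sum.inl ε → M *ᵥ v i = ((ε : ℤ) : ℂ) • v i := by
    intro i ε hi
    fin_cases i <;> simp [gam] at hi
    subst hi
    simpa [v] using hfix
  have ha : ∀ i j, IsArc gam i j → M *ᵥ v i = v j := by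
    intro i j hij
    rcases arc_gam hij with ⟨rfl, rfl⟩ | ⟨rfl, rfl⟩ <;> rfl
  exact mem_orbit_of_basis (p := 3) (q := 2) g M hM v hv0 hv1 hs ha

lemma mem_alp (g : GL (Fin 5) ℂ) (hf : blockZero g.val) (h1 : Nm th g.val 4 2 ≠ 0)
    (h2 : Nm th g.val 4 2 * (g.val.det - Nm th g.val 3 3) + Nm th g.val 4 3 * Nm th g.val 3 2 ≠ 0) :
    toFlag g ∈ (orbit 3 2 alp : Set (FlagVar 5)) := by
  obtain ⟨M, hM, hM2, hMv⟩ := exists_conj th th_sq g
  rw [Nm_eq hM] at h1 h2
  simp only [Matrix.smul_apply, smul_eq_mul] at h1 h2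
  have k1 : M 4 2 ≠ 0 := right_ne_zero_of_mul h1
  have k2 : M 4 2 * (1 - M 3 3) + M 4 3 * M 3 2 ≠ 0 := by
    intro h; apply h2; linear_combination (g.val.det ^ 2) * h
  obtain ⟨a1, a2, a3, a4⟩ := hf
  have hfix0 : M *ᵥ ![1, 0, 0, 0, 0] = (1 : ℂ) • ![1, 0, 0, 0, 0] := by
    apply hMv
    rw [th_fix]
    simp [mulVec, dotProduct, Fin.sum_univ_five, a1, a3]
  have hfix1 : M *ᵥ ![0, 1, 0, 0, 0] = (1 : ℂ) • ![0, 1, 0, 0, 0] := by
    apply hMv
    rw [th_fix]
    simp [mulVec, dotProduct, Fin.sum_univ_five, a2, a4]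
  let z : Fin 5 → ℂ := ![0, 0, -M 4 3, M 4 2, 0]
  let v : Fin 5 → Fin 5 → ℂ := ![![1, 0, 0, 0, 0], ![0, 1, 0, 0, 0], ![0, 0, 1, 0, 0],
    z - M *ᵥ z, M *ᵥ ![0, 0, 1, 0, 0]]
  have hv34 : v 3 4 = 0 := by
    change (0 : ℂ) - (M *ᵥ ![0, 0, -M 4 3, M 4 2, 0]) 4 = 0
    rw [mv]; ring
  have hv0 : ∀ i r, i < r → v i r = 0 := by
    intro i r hir
    fin_cases i <;> fin_cases r <;> first | rfl | exact hv34 | exact absurd hir (by decide)
  have hv1 : ∀ i, v i i ≠ 0 := by
    intro i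
    fin_cases i
    · simp [v]
    · simp [v]
    · simp [v]
    · change M 4 2 - (M *ᵥ ![0, 0, -M 4 3, M 4 2, 0]) 3 ≠ 0
      rw [mv]
      intro h; apply k2; linear_combination h
    · simpa [v, mulVec, dotProduct, Fin.sum_univ_five] using k1
  have hneg : M *ᵥ (z - M *ᵥ z) = -(z - M *ᵥ z) := by
    rw [mulVec_sub, mulVec_mulVec, hM2, one_mulVec, neg_sub]
  have hs : ∀ (i : Fin 5) (ε : ℤˣ), alp i = Sum.inl ε → M *ᵥ v i = ((ε : ℤ) : ℂ) • v i := by
    intro i ε hi
    fin_cases i <;> simp [alp] at hi <;> subst hi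
    · simpa [v] using hfix0
    · simpa [v] using hfix1
    · have : v 3 = z - M *ᵥ z := rfl
      change M *ᵥ v 3 = _ • v 3
      rw [this, hneg]; simp
  have ha : ∀ i j, IsArc alp i j → M *ᵥ v i = v j := by
    intro i j hij
    obtain ⟨rfl, rfl⟩ := arc_alp hij
    rfl
  exact mem_orbit_of_basis (p := 3) (q := 2) g M hM v hv0 hv1 hs ha

/-- base point of the orbit of `gam` -/
def g0 : Matrix (Fin 5) (Fin 5) ℂ :=
  !![1, 0, 0, 0, 1; 0, 1, 0, 0, 0; 0, 0, 1, 1, 0; 1, 0, 0, 0, -1; 0, 0, 1, -1, 0]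

/-- signed involution of `gam` -/
def w0 : Matrix (Fin 5) (Fin 5) ℂ :=
  !![0, 0, 0, 0, 1; 0, 1, 0, 0, 0; 0, 0, 0, 1, 0; 0, 0, 1, 0, 0; 1, 0, 0, 0, 0]

/-- base point of the orbit of `alp` -/
def g1 : Matrix (Fin 5) (Fin 5) ℂ :=
  !![1, 0, 0, 0, 0; 0, 1, 0, 0, 0; 0, 0, 1, 0, 1; 0, 0, 1, 0, -1; 0, 0, 0, 1, 0]

/-- signed involution of `alp` -/
def w1 : Matrix (Fin 5) (Fin 5) ℂ :=
  !![1, 0, 0, 0, 0; 0, 1, 0, 0, 0; 0, 0, 0, 0, 1; 0, 0, 0, -1, 0; 0, 0, 1, 0, 0]

lemma g0_w0 : g0 * w0 = th * g0 := by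
  rw [th_eq]
  ext i j
  rw [diagonal_mul]
  fin_cases i <;> fin_cases j <;> simp [g0, w0, mul_apply, Fin.sum_univ_five]

lemma g1_w1 : g1 * w1 = th * g1 := by
  rw [th_eq]
  ext i j
  rw [diagonal_mul]
  fin_cases i <;> fin_cases j <;> simp [g1, w1, mul_apply, Fin.sum_univ_five]

lemma det_g0 : g0.det ≠ 0 := by
  refine det_ne_zero_of_right_inverse (B := !![1 / 2, 0, 0, 1 / 2, 0; 0, 1, 0, 0, 0;
    0, 0, 1 / 2, 0, 1 / 2; 0, 0, 1 / 2, 0, -1 / 2; 1 / 2, 0, 0, -1 / 2, 0]) ?_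
  ext i j
  fin_cases i <;> fin_cases j <;> simp [g0, mul_apply, Fin.sum_univ_five] <;> norm_num

lemma det_g1 : g1.det ≠ 0 := by
  refine det_ne_zero_of_right_inverse (B := !![1, 0, 0, 0, 0; 0, 1, 0, 0, 0;
    0, 0, 1 / 2, 1 / 2, 0; 0, 0, 0, 0, 1; 0, 0, 1 / 2, -1 / 2, 0]) ?_
  ext i j
  fin_cases i <;> fin_cases j <;> simp [g1, mul_apply, Fin.sum_univ_five] <;> norm_num

lemma closure_alp : closure (orbit 3 2 alp : Set (FlagVar 5)) = Zset := by
  apply subset_antisymm (closure_minimal orbit_alp_subset isClosed_Z)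
  rintro x ⟨g, rfl, a1, a2, a3, a4⟩
  set P := seg g.val g1 with hP
  set N := Nm (th.map Polynomial.C) P with hN
  refine mem_closure_of_curve P (P.det * N 4 2 * (N 4 2 * (P.det - N 3 3) + N 4 3 * N 3 2))
    ?_ ?_ (seg_zero _ _).symm
  · intro h
    have := congrArg (Polynomial.eval 1) h
    simp only [Polynomial.eval_mul, Polynomial.eval_add, Polynomial.eval_sub, hN, eval_Nm,
      eval_det, hP, seg_one, Nm_eq g1_w1, Polynomial.eval_zero] at this
    simp [w1, det_g1] at this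
  · intro t ht
    simp only [Polynomial.eval_mul, Polynomial.eval_add, Polynomial.eval_sub, hN, eval_Nm,
      eval_det] at ht
    obtain ⟨g', hg'⟩ := exists_GL (left_ne_zero_of_mul (left_ne_zero_of_mul ht))
    rw [← hg'] at ht
    refine ⟨g', hg', mem_alp g' ?_ (right_ne_zero_of_mul (left_ne_zero_of_mul ht))
      (right_ne_zero_of_mul ht)⟩
    unfold blockZero
    rw [hg', hP, seg_eval, seg_eval, seg_eval, seg_eval, a1, a2, a3, a4]
    simp [g1]

lemma closure_gam : closure (orbit 3 2 gam : Set (FlagVar 5)) = Yset := by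
  apply subset_antisymm (closure_minimal orbit_gam_subset isClosed_Y)
  rintro x ⟨g, rfl, hf⟩
  obtain ⟨a0, a1, b0, b1, e1, e2, e3, e4⟩ : ∃ a0 a1 b0 b1 : ℂ, g.val 3 0 = a0 * b0 ∧
      g.val 3 1 = a0 * b1 ∧ g.val 4 0 = a1 * b0 ∧ g.val 4 1 = a1 * b1 := by
    unfold fdet at hf
    by_cases a : g.val 3 0 = 0
    · by_cases b : g.val 3 1 = 0
      · exact ⟨0, 1, g.val 4 0, g.val 4 1, by simp [a], by simp [b], by simp, by simp⟩
      · refine ⟨g.val 3 1, g.val 4 1, 0, 1, by simp [a], by simp, ?_, by simp⟩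
        rw [a] at hf
        simpa [b] using hf
    · refine ⟨1, g.val 4 0 / g.val 3 0, g.val 3 0, g.val 3 1, by simp, by simp, by field_simp, ?_⟩
      field_simp
      linear_combination hf
  let A : Fin 5 → Polynomial ℂ := ![0, 0, 0, Polynomial.C a0 + Polynomial.X * Polynomial.C (1 - a0),
    Polynomial.C a1 - Polynomial.X * Polynomial.C a1]
  let B : Fin 5 → Polynomial ℂ := ![Polynomial.C b0 + Polynomial.X * Polynomial.C (1 - b0),
    Polynomial.C b1 - Polynomial.X * Polynomial.C b1, 0, 0, 0]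
  let P : Matrix (Fin 5) (Fin 5) (Polynomial ℂ) := of fun i j =>
    if 3 ≤ i ∧ j ≤ 1 then A i * B j else seg g.val g0 i j
  have hP0 : P.map (Polynomial.evalRingHom 0) = g.val := by
    ext i j
    fin_cases i <;> fin_cases j <;> simp [P, A, B, seg, e1, e2, e3, e4]
  have hP1 : P.map (Polynomial.evalRingHom 1) = g0 := by
    ext i j
    fin_cases i <;> fin_cases j <;> simp [P, A, B, seg, g0]
  set N := Nm (th.map Polynomial.C) P with hN
  refine mem_closure_of_curve P (P.det * N 4 0 * (N 3 2 * N 4 0 - N 4 2 * N 3 0))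
    ?_ ?_ hP0.symm
  · intro h
    have := congrArg (Polynomial.eval 1) h
    simp only [Polynomial.eval_mul, Polynomial.eval_sub, hN, eval_Nm,
      eval_det, hP1, Nm_eq g0_w0, Polynomial.eval_zero] at this
    simp [w0, det_g0] at this
  · intro t ht
    simp only [Polynomial.eval_mul, Polynomial.eval_sub, hN, eval_Nm, eval_det] at ht
    obtain ⟨g', hg'⟩ := exists_GL (left_ne_zero_of_mul (left_ne_zero_of_mul ht))
    rw [← hg'] at ht
    refine ⟨g', hg', mem_gam g' ?_ (right_ne_zero_of_mul (left_ne_zero_of_mul ht))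
      (right_ne_zero_of_mul ht)⟩
    unfold fdet
    rw [hg']
    simp [P, A, B]
    ring

lemma eval_fdet (g : GL (Fin 5) ℂ) (u : Low 5 → ℂ) :
    eval u (fdet (chartX g.val)) = fdet (g.val * unitri u) := by
  simp only [fdet, map_sub, map_mul, eval_chartX]

lemma mem_chart_Y (g : GL (Fin 5) ℂ) (u : Low 5 → ℂ) :
    u ∈ chart Yset g ↔ eval u (fdet (chartX g.val)) = 0 := by
  rw [eval_fdet]
  exact mem_chart (f := fun A => fdet A = 0) mem_Y g u

lemma not_regular_Z (g : GL (Fin 5) ℂ) (hg : blockZero g.val) :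
    ¬ IsRegularLocalRing (LocQ (vanishingIdeal ℂ (chart Yset g))) := by
  obtain ⟨a1, a2, a3, a4⟩ := hg
  have : Nonempty (Low 5) := ⟨⟨(1, 0), by decide⟩⟩
  refine not_regular_of_axes (F := fdet (chartX g.val)) ?_ ?_
    (fun u hu => (mem_chart_Y g u).1 hu)
  · intro s c
    rw [mem_chart_Y, eval_fdet]
    have : (Pi.single s c : Low 5 → ℂ) = Function.update (0 : Low 5 → ℂ) s c := rfl
    rw [this]
    simp only [fdet, mul_unitri_update, unitri_zero, Matrix.mul_one, a1, a2, a3, a4]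
    by_cases h0 : (0 : Fin 5) = s.1.2
    · have h1 : ¬ (1 : Fin 5) = s.1.2 := by rw [← h0]; decide
      simp [h1]
    · simp [h0]
  · intro hF
    apply not_all_minors g (a := 3) (b := 4) (by decide)
    have key : ∀ (k l : Fin 5) (_ : 1 < k) (_ : 1 < l),
        g.val 3 k * g.val 4 l = g.val 3 l * g.val 4 k := by
      intro k l hk hl
      have h := eval_fdet g (Function.update (Function.update 0 ⟨(k, 0), lt_trans zero_lt_one hk⟩ 1)
        ⟨(l, 1), hl⟩ 1)
      rw [hF, map_zero] at h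
      simp only [fdet, mul_unitri_update, unitri_zero, Matrix.mul_one, a1, a2, a3, a4] at h
      rw [Function.update_of_ne (by simp)] at h
      simp at h
      linear_combination -h
    intro k l
    by_cases hk : 1 < k
    · by_cases hl : 1 < l
      · exact key k l hk hl
      · have : l = 0 ∨ l = 1 := by omega
        rcases this with rfl | rfl <;> simp [a1, a2, a3, a4]
    · have : k = 0 ∨ k = 1 := by omega
      rcases this with rfl | rfl <;> simp [a1, a2, a3, a4]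

lemma regular_aux (g : GL (Fin 5) ℂ) (hf : fdet g.val = 0) (t : Low 5)
    (α : MvPolynomial (Low 5) ℂ)
    (H1 : ∀ u c, eval (Function.update u t c) (fdet (chartX g.val)) =
      eval u (fdet (chartX g.val)) + (c - u t) * eval u α)
    (H2 : ∀ u c, eval (Function.update u t c) α = eval u α) (H3 : eval 0 α ≠ 0) :
    IsRegularLocalRing (LocQ (vanishingIdeal ℂ (chart Yset g))) := by
  refine regular_of_linear (F := fdet (chartX g.val)) (α := α)
    (β := fdet (chartX g.val) - α * X t) (t := t) (by ring) H2 ?_ H3 ?_ (mem_chart_Y g)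
  · intro u c
    rw [map_sub, map_sub, map_mul, map_mul, H1, H2, eval_X, eval_X, Function.update_self]
    ring
  · rw [eval_fdet, unitri_zero, Matrix.mul_one, hf]

lemma regular_off_Z (g : GL (Fin 5) ℂ) (hf : fdet g.val = 0) (hg : ¬ blockZero g.val) :
    IsRegularLocalRing (LocQ (vanishingIdeal ℂ (chart Yset g))) := by
  by_contra hreg
  have k1 : ∀ k : Fin 5, g.val 3 0 * g.val 4 k = g.val 3 k * g.val 4 0 := by
    intro k
    by_cases hk : 1 < k
    · by_contra hne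
      apply hreg
      refine regular_aux g hf ⟨(k, 1), hk⟩
        (chartX g.val 3 0 * C (g.val 4 k) - C (g.val 3 k) * chartX g.val 4 0) ?_ ?_ ?_
      · intro u c
        simp only [fdet, map_sub, map_mul, eval_chartX, eval_C, mul_unitri_update]
        simp; ring
      · intro u c
        simp only [map_sub, map_mul, eval_chartX, eval_C, mul_unitri_update]
        simp
      · simp only [map_sub, map_mul, eval_chartX, eval_C, unitri_zero, Matrix.mul_one]
        exact sub_ne_zero.2 hne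
    · have : k = 0 ∨ k = 1 := by omega
      rcases this with rfl | rfl
      · rfl
      · exact sub_eq_zero.1 hf
  have k2 : ∀ k : Fin 5, g.val 3 k * g.val 4 1 = g.val 3 1 * g.val 4 k := by
    intro k
    by_cases hk : 1 < k
    · by_contra hne
      apply hreg
      refine regular_aux g hf ⟨(k, 0), lt_trans zero_lt_one hk⟩
        (C (g.val 3 k) * chartX g.val 4 1 - chartX g.val 3 1 * C (g.val 4 k)) ?_ ?_ ?_
      · intro u c
        simp only [fdet, map_sub, map_mul, eval_chartX, eval_C, mul_unitri_update]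
        simp; ring
      · intro u c
        simp only [map_sub, map_mul, eval_chartX, eval_C, mul_unitri_update]
        simp
      · simp only [map_sub, map_mul, eval_chartX, eval_C, unitri_zero, Matrix.mul_one]
        exact sub_ne_zero.2 hne
    · have : k = 0 ∨ k = 1 := by omega
      rcases this with rfl | rfl
      · exact sub_eq_zero.1 hf
      · rfl
  apply not_all_minors g (a := 3) (b := 4) (by decide)
  intro k l
  unfold blockZero at hg
  by_cases a1 : g.val 3 0 = 0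
  · by_cases a2 : g.val 3 1 = 0
    · by_cases a3 : g.val 4 0 = 0
      · have a4 : g.val 4 1 ≠ 0 := fun a4 => hg ⟨a1, a2, a3, a4⟩
        apply mul_left_cancel₀ a4
        linear_combination g.val 4 l * k2 k - g.val 4 k * k2 l
      · apply mul_left_cancel₀ a3
        linear_combination g.val 4 k * k1 l - g.val 4 l * k1 k
    · apply mul_left_cancel₀ a2
      linear_combination g.val 3 l * k2 k - g.val 3 k * k2 l
  · apply mul_left_cancel₀ a1
    linear_combination g.val 3 k * k1 l - g.val 3 l * k1 k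

lemma sing_Y : sing Yset = Zset := by
  ext x
  constructor
  · rintro ⟨hx, g, rfl, hreg⟩
    by_contra hZ
    exact hreg (regular_off_Z g ((mem_Y g).1 hx) (mt (mem_Z g).2 hZ))
  · rintro ⟨g, rfl, hg⟩
    refine ⟨(mem_Y g).2 ?_, g, rfl, not_regular_Z g hg⟩
    obtain ⟨a1, a2, a3, a4⟩ := hg
    simp [fdet, a1, a2]

lemma isIrreducible_Z : IsIrreducible Zset := by
  constructor
  · obtain ⟨g, hg⟩ := exists_GL det_g1
    exact ⟨toFlag g, (mem_Z g).2 (by rw [hg]; simp [blockZero, g1])⟩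
  · refine isPreirreducible_of_linear {(3, 0), (3, 1), (4, 0), (4, 1)} fun g => ?_
    rw [mem_Z]; simp [blockZero]

lemma maximal_main : Maximal (fun Z : Set (FlagVar 5) => IsIrreducible Z ∧
    Z ⊆ sing (closure (orbit 3 2 gam : Set (FlagVar 5))))
    (closure (orbit 3 2 alp : Set (FlagVar 5))) := by
  rw [closure_gam, closure_alp, sing_Y]
  exact ⟨⟨isIrreducible_Z, subset_rfl⟩, fun Z hZ _ => hZ.2⟩

lemma ncard_eq (c : Fin 5 → ℤˣ ⊕ ℕ) (s : ℤˣ ⊕ ℕ) :
    {i | c i = s}.ncard = (Finset.univ.filter fun i => c i = s).card := by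
  rw [← Set.ncard_coe_finset]; congr 1; ext i; simp

lemma isClan_gam : IsClan 3 2 gam := by
  refine ⟨fun k => ?_, ?_⟩
  · have := ncard_eq gam (Sum.inr k)
    change {i | gam i = Sum.inr k}.ncard = 0 ∨ {i | gam i = Sum.inr k}.ncard = 2
    rw [this]
    by_cases h1 : k = 1
    · subst h1; right; decide
    by_cases h2 : k = 2
    · subst h2; right; decide
    · left
      rw [Finset.card_eq_zero, Finset.filter_eq_empty_iff]
      intro i _
      fin_cases i <;> simp [gam] <;> omega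
  · change ({i | gam i = Sum.inl 1}.ncard : ℤ) - ({i | gam i = Sum.inl (-1)}.ncard : ℤ) = _
    rw [ncard_eq, ncard_eq]
    decide

lemma isClan_alp : IsClan 3 2 alp := by
  refine ⟨fun k => ?_, ?_⟩
  · have := ncard_eq alp (Sum.inr k)
    change {i | alp i = Sum.inr k}.ncard = 0 ∨ {i | alp i = Sum.inr k}.ncard = 2
    rw [this]
    by_cases h1 : k = 1
    · subst h1; right; decide
    · left
      rw [Finset.card_eq_zero, Finset.filter_eq_empty_iff]
      intro i _
      fin_cases i <;> simp [alp] <;> omega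
  · change ({i | alp i = Sum.inl 1}.ncard : ℤ) - ({i | alp i = Sum.inl (-1)}.ncard : ℤ) = _
    rw [ncard_eq, ncard_eq]
    decide

end

end Pool.Agent.P.MP_25f57f_ag
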