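import Pool.Agent.P.MP_25f57f_ag.Gen2

/-! The example with `n = 6`: rank conditions, invariance and closedness. -/

set_option autoImplicit false

open MvPolynomial Matrix

namespace Pool.Agent.P.MP_25f57f_ag.Six

noncomputable section

abbrev M6 (R : Type) : Type := Matrix (Fin 6) (Fin 6) R

/-- upper half of a column -/
def tp {R : Type} (M : M6 R) (j : Fin 6) : Fin 3 → R := ![M 0 j, M 1 j, M 2 j]

/-- lower half of a column -/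
def bt {R : Type} (M : M6 R) (j : Fin 6) : Fin 3 → R := ![M 3 j, M 4 j, M 5 j]

/-- determinant of three vectors -/
def d3 {R : Type} [CommRing R] (x y z : Fin 3 → R) : R :=
  x 0 * (y 1 * z 2 - y 2 * z 1) - x 1 * (y 0 * z 2 - y 2 * z 0) + x 2 * (y 0 * z 1 - y 1 * z 0)

lemma d3_iff (x y z : Fin 3 → ℂ) :
    d3 x y z = 0 ↔ ∃ l : Fin 3 → ℂ, l ≠ 0 ∧ l ⬝ᵥ x = 0 ∧ l ⬝ᵥ y = 0 ∧ l ⬝ᵥ z = 0 := by
  have h1 : d3 x y z = (of ![x, y, z]).det := by simp [d3, det_fin_three]; ring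
  rw [h1, ← exists_mulVec_eq_zero_iff]
  refine exists_congr fun l => and_congr_right fun _ => ?_
  rw [dotProduct_comm l x, dotProduct_comm l y, dotProduct_comm l z]
  constructor
  · intro h
    exact ⟨congrFun h 0, congrFun h 1, congrFun h 2⟩
  · rintro ⟨h0, h1, h2⟩
    funext i
    fin_cases i
    exacts [h0, h1, h2]

def cA (M : M6 ℂ) : Prop := ∃ (a : Fin 3 → ℂ) (b0 b1 : ℂ), bt M 0 = b0 • a ∧ bt M 1 = b1 • a

def cC (M : M6 ℂ) : Prop := ∃ l : Fin 3 → ℂ, l ≠ 0 ∧ l ⬝ᵥ bt M 0 = 0 ∧ l ⬝ᵥ bt M 1 = 0 ∧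
  l ⬝ᵥ bt M 2 = 0 ∧ l ⬝ᵥ bt M 3 = 0

def cD (M : M6 ℂ) : Prop := ∃ l : Fin 3 → ℂ, l ≠ 0 ∧ l ⬝ᵥ tp M 0 = 0 ∧ l ⬝ᵥ tp M 1 = 0 ∧
  l ⬝ᵥ tp M 2 = 0

def cE (M : M6 ℂ) : Prop := ∃ (a : Fin 3 → ℂ) (b0 b1 b2 : ℂ), tp M 0 = b0 • a ∧ tp M 1 = b1 • a ∧
  tp M 2 = b2 • a

def fY (M : M6 ℂ) : Prop := cA M ∧ cC M ∧ cD M

def fZ (M : M6 ℂ) : Prop := cA M ∧ cC M ∧ cE M

lemma cE.cD {M : M6 ℂ} (h : cE M) : cD M := by
  obtain ⟨a, b0, b1, b2, h0, h1, h2⟩ := h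
  obtain ⟨l, hl, e, -⟩ := exists_perp a a
  exact ⟨l, hl, by simp [h0, e], by simp [h1, e], by simp [h2, e]⟩

lemma fZ.fY {M : M6 ℂ} (h : fZ M) : fY M := ⟨h.1, h.2.1, h.2.2.cD⟩

lemma cA_iff (M : M6 ℂ) : cA M ↔ M 3 0 * M 4 1 - M 3 1 * M 4 0 = 0 ∧
    M 3 0 * M 5 1 - M 3 1 * M 5 0 = 0 ∧ M 4 0 * M 5 1 - M 4 1 * M 5 0 = 0 := by
  constructor
  · rintro ⟨a, b0, b1, h0, h1⟩
    have e0 := congrFun h0 0
    have e1 := congrFun h0 1
    have e2 := congrFun h0 2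
    have e3 := congrFun h1 0
    have e4 := congrFun h1 1
    have e5 := congrFun h1 2
    simp [bt] at e0 e1 e2 e3 e4 e5
    rw [e0, e1, e2, e3, e4, e5]
    refine ⟨by ring, by ring, by ring⟩
  · rintro ⟨e0, e1, e2⟩
    have h : R1 fun (i : Fin 3) (j : Fin 2) => ![bt M 0, bt M 1] j i := by
      intro i i' j j'
      fin_cases i <;> fin_cases i' <;> fin_cases j <;> fin_cases j' <;> simp [bt] <;>
        first | ring1 | linear_combination e0 | linear_combination -e0 | linear_combination e1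
              | linear_combination -e1 | linear_combination e2 | linear_combination -e2
    obtain ⟨a, b, hab⟩ := h.factor
    exact ⟨a, b 0, b 1, funext fun i => hab i 0, funext fun i => hab i 1⟩

lemma cE_iff (M : M6 ℂ) : cE M ↔ R1 fun (i j : Fin 3) => ![tp M 0, tp M 1, tp M 2] j i := by
  constructor
  · rintro ⟨a, b0, b1, b2, h0, h1, h2⟩
    refine R1.of_factor a ![b0, b1, b2] fun i j => ?_
    fin_cases j <;> simp [h0, h1, h2]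
  · intro h
    obtain ⟨a, b, hab⟩ := h.factor
    exact ⟨a, b 0, b 1, b 2, funext fun i => hab i 0, funext fun i => hab i 1,
      funext fun i => hab i 2⟩

lemma cD_iff (M : M6 ℂ) : cD M ↔ d3 (tp M 0) (tp M 1) (tp M 2) = 0 := (d3_iff _ _ _).symm

lemma mul_col (A b : M6 ℂ) (hb : ∀ i j, j < i → b i j = 0) (r : Fin 6) :
    (A * b) r 0 = A r 0 * b 0 0 ∧ (A * b) r 1 = A r 0 * b 0 1 + A r 1 * b 1 1 ∧
    (A * b) r 2 = A r 0 * b 0 2 + A r 1 * b 1 2 + A r 2 * b 2 2 ∧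
    (A * b) r 3 = A r 0 * b 0 3 + A r 1 * b 1 3 + A r 2 * b 2 3 + A r 3 * b 3 3 := by
  simp only [mul_apply, Fin.sum_univ_six]
  rw [hb 1 0 (by decide), hb 2 0 (by decide), hb 3 0 (by decide), hb 4 0 (by decide),
    hb 5 0 (by decide), hb 2 1 (by decide), hb 3 1 (by decide), hb 4 1 (by decide),
    hb 5 1 (by decide), hb 3 2 (by decide), hb 4 2 (by decide), hb 5 2 (by decide),
    hb 4 3 (by decide), hb 5 3 (by decide)]
  refine ⟨by ring, by ring, by ring, by ring⟩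

lemma tp_mul (A b : M6 ℂ) (hb : ∀ i j, j < i → b i j = 0) :
    tp (A * b) 0 = b 0 0 • tp A 0 ∧ tp (A * b) 1 = b 0 1 • tp A 0 + b 1 1 • tp A 1 ∧
    tp (A * b) 2 = b 0 2 • tp A 0 + b 1 2 • tp A 1 + b 2 2 • tp A 2 := by
  refine ⟨?_, ?_, ?_⟩ <;> funext i <;> fin_cases i <;> simp [tp, mul_col A b hb] <;> ring

lemma bt_mul (A b : M6 ℂ) (hb : ∀ i j, j < i → b i j = 0) :
    bt (A * b) 0 = b 0 0 • bt A 0 ∧ bt (A * b) 1 = b 0 1 • bt A 0 + b 1 1 • bt A 1 ∧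
    bt (A * b) 2 = b 0 2 • bt A 0 + b 1 2 • bt A 1 + b 2 2 • bt A 2 ∧
    bt (A * b) 3 = b 0 3 • bt A 0 + b 1 3 • bt A 1 + b 2 3 • bt A 2 + b 3 3 • bt A 3 := by
  refine ⟨?_, ?_, ?_, ?_⟩ <;> funext i <;> fin_cases i <;> simp [bt, mul_col A b hb] <;> ring

section right
variable {M : M6 ℂ} (b : M6 ℂ) (hb : ∀ i j, j < i → b i j = 0)
include hb

lemma cA.right (h : cA M) : cA (M * b) := by
  obtain ⟨a, b0, b1, h0, h1⟩ := h
  obtain ⟨e0, e1, -⟩ := bt_mul M b hb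
  exact ⟨a, b 0 0 * b0, b 0 1 * b0 + b 1 1 * b1, by rw [e0, h0]; module, by rw [e1, h0, h1]; module⟩

lemma cC.right (h : cC M) : cC (M * b) := by
  obtain ⟨l, hl, h0, h1, h2, h3⟩ := h
  obtain ⟨e0, e1, e2, e3⟩ := bt_mul M b hb
  exact ⟨l, hl, by simp [e0, h0], by simp [e1, h0, h1], by simp [e2, h0, h1, h2],
    by simp [e3, h0, h1, h2, h3]⟩

lemma cD.right (h : cD M) : cD (M * b) := by
  obtain ⟨l, hl, h0, h1, h2⟩ := h
  obtain ⟨e0, e1, e2⟩ := tp_mul M b hb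
  exact ⟨l, hl, by simp [e0, h0], by simp [e1, h0, h1], by simp [e2, h0, h1, h2]⟩

lemma cE.right (h : cE M) : cE (M * b) := by
  obtain ⟨a, b0, b1, b2, h0, h1, h2⟩ := h
  obtain ⟨e0, e1, e2⟩ := tp_mul M b hb
  exact ⟨a, b 0 0 * b0, b 0 1 * b0 + b 1 1 * b1, b 0 2 * b0 + b 1 2 * b1 + b 2 2 * b2,
    by rw [e0, h0]; module, by rw [e1, h0, h1]; module, by rw [e2, h0, h1, h2]; module⟩

lemma fY.right (h : fY M) : fY (M * b) := ⟨h.1.right b hb, h.2.1.right b hb, h.2.2.right b hb⟩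

lemma fZ.right (h : fZ M) : fZ (M * b) := ⟨h.1.right b hb, h.2.1.right b hb, h.2.2.right b hb⟩

end right

/-- the set of flags defined by a condition on matrices -/
def Sset (f : M6 ℂ → Prop) : Set (FlagVar 6) := {x | ∃ g : GL (Fin 6) ℂ, toFlag g = x ∧ f g.val}

lemma mem_S {f : M6 ℂ → Prop}
    (hf : ∀ M b : M6 ℂ, (∀ i j, j < i → b i j = 0) → f M → f (M * b)) (g : GL (Fin 6) ℂ) :
    toFlag g ∈ Sset f ↔ f g.val := by
  refine ⟨?_, fun h => ⟨g, rfl, h⟩⟩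
  rintro ⟨g', hg', h⟩
  obtain ⟨b, hb, he⟩ := exists_borel hg'
  rw [he]
  exact hf _ b hb h

lemma mem_Y (g : GL (Fin 6) ℂ) : toFlag g ∈ Sset fY ↔ fY g.val :=
  mem_S (fun _ b hb h => h.right b hb) g

lemma mem_Z (g : GL (Fin 6) ℂ) : toFlag g ∈ Sset fZ ↔ fZ g.val :=
  mem_S (fun _ b hb h => h.right b hb) g

/-- the condition is Zariski closed -/
def Clo (f : M6 ℂ → Prop) : Prop := ∀ M : M6 ℂ, (∀ h : MvPolynomial (Fin 6 × Fin 6) ℂ,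
  (∀ M' : M6 ℂ, f M' → eval (ent M') h = 0) → eval (ent M) h = 0) → f M

lemma Clo.and {f f' : M6 ℂ → Prop} (h : Clo f) (h' : Clo f') : Clo fun M => f M ∧ f' M :=
  fun M hM => ⟨h M fun p hp => hM p fun M' e => hp M' e.1,
    h' M fun p hp => hM p fun M' e => hp M' e.2⟩

lemma eval_d3 (M : M6 ℂ) (x y z : Fin 3 → MvPolynomial (Fin 6 × Fin 6) ℂ) :
    eval (ent M) (d3 x y z) = d3 (fun i => eval (ent M) (x i)) (fun i => eval (ent M) (y i))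
      (fun i => eval (ent M) (z i)) := by
  simp [d3]

lemma eval_tp (M : M6 ℂ) (j : Fin 6) : (fun i => eval (ent M) (tp (Xm 6) j i)) = tp M j := by
  funext i; fin_cases i <;> simp [tp, eval_Xm]

lemma eval_bt (M : M6 ℂ) (j : Fin 6) : (fun i => eval (ent M) (bt (Xm 6) j i)) = bt M j := by
  funext i; fin_cases i <;> simp [bt, eval_Xm]

lemma clo_A : Clo cA := by
  intro M hM
  rw [cA_iff]
  refine ⟨?_, ?_, ?_⟩
  · simpa [eval_Xm] using hM (Xm 6 3 0 * Xm 6 4 1 - Xm 6 3 1 * Xm 6 4 0) fun M' h => by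
      simpa [eval_Xm] using ((cA_iff M').1 h).1
  · simpa [eval_Xm] using hM (Xm 6 3 0 * Xm 6 5 1 - Xm 6 3 1 * Xm 6 5 0) fun M' h => by
      simpa [eval_Xm] using ((cA_iff M').1 h).2.1
  · simpa [eval_Xm] using hM (Xm 6 4 0 * Xm 6 5 1 - Xm 6 4 1 * Xm 6 5 0) fun M' h => by
      simpa [eval_Xm] using ((cA_iff M').1 h).2.2

lemma clo_D : Clo cD := by
  intro M hM
  have key : ∀ M' : M6 ℂ, eval (ent M') (d3 (tp (Xm 6) 0) (tp (Xm 6) 1) (tp (Xm 6) 2)) =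
      d3 (tp M' 0) (tp M' 1) (tp M' 2) := fun M' => by rw [eval_d3, eval_tp, eval_tp, eval_tp]
  rw [cD_iff, ← key]
  exact hM _ fun M' h => by rw [key]; exact (cD_iff M').1 h

lemma clo_E : Clo cE := by
  intro M hM
  rw [cE_iff]
  intro i i' j j'
  have key : ∀ (M' : M6 ℂ) (i j : Fin 3),
      eval (ent M') (![tp (Xm 6) 0, tp (Xm 6) 1, tp (Xm 6) 2] j i) =
        ![tp M' 0, tp M' 1, tp M' 2] j i := by
    intro M' i j
    fin_cases j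
    exacts [congrFun (eval_tp M' 0) i, congrFun (eval_tp M' 1) i, congrFun (eval_tp M' 2) i]
  have := hM (![tp (Xm 6) 0, tp (Xm 6) 1, tp (Xm 6) 2] j i *
      ![tp (Xm 6) 0, tp (Xm 6) 1, tp (Xm 6) 2] j' i' -
      ![tp (Xm 6) 0, tp (Xm 6) 1, tp (Xm 6) 2] j' i *
      ![tp (Xm 6) 0, tp (Xm 6) 1, tp (Xm 6) 2] j i') fun M' h => by
    rw [map_sub, map_mul, map_mul, key, key, key, key, sub_eq_zero]
    exact (cE_iff M').1 h i i' j j'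
  rwa [map_sub, map_mul, map_mul, key, key, key, key, sub_eq_zero] at this

/-- the lower left `3 × 4` block -/
def B4 {R : Type} (M : M6 R) : Matrix (Fin 3) (Fin 4) R :=
  of fun i j => ![bt M 0, bt M 1, bt M 2, bt M 3] j i

lemma cC_iff (M : M6 ℂ) : cC M ↔ ∃ l : Fin 3 → ℂ, l ≠ 0 ∧ l ᵥ* B4 M = 0 := by
  refine exists_congr fun l => and_congr_right fun _ => ⟨?_, fun h => ?_⟩
  · rintro ⟨h0, h1, h2, h3⟩
    funext j
    fin_cases j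
    exacts [h0, h1, h2, h3]
  · exact ⟨congrFun h 0, congrFun h 1, congrFun h 2, congrFun h 3⟩

/-- product of rectangular matrices -/
def mm {R : Type} [CommRing R] (A : Matrix (Fin 3) (Fin 4) R) (B : Matrix (Fin 4) (Fin 3) R) :
    Matrix (Fin 3) (Fin 3) R := @HMul.hMul _ _ _ Matrix.instHMulOfFintypeOfMulOfAddCommMonoid A B

open ComplexOrder in
lemma clo_C : Clo cC := by
  intro M hM
  have key : ∀ M' : M6 ℂ, eval (ent M') (mm (B4 (Xm 6)) (((B4 M)ᴴ).map C)).det =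
      (mm (B4 M') (B4 M)ᴴ).det := by
    intro M'
    rw [RingHom.map_det, RingHom.mapMatrix_apply, mm, mm, Matrix.map_mul]
    congr 2
    · ext i j
      fin_cases j
      exacts [congrFun (eval_bt M' 0) i, congrFun (eval_bt M' 1) i, congrFun (eval_bt M' 2) i,
        congrFun (eval_bt M' 3) i]
    · ext i j; simp only [map_apply, eval_C]
  have h := hM _ fun M' h => by
    rw [key, ← exists_vecMul_eq_zero_iff]
    obtain ⟨l, hl, e⟩ := (cC_iff M').1 h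
    exact ⟨l, hl, by rw [mm, ← vecMul_vecMul, e, zero_vecMul]⟩
  rw [key, ← exists_vecMul_eq_zero_iff] at h
  obtain ⟨l, hl, e⟩ := h
  exact (cC_iff M).2 ⟨l, hl, (vecMul_self_mul_conjTranspose_eq_zero _ _).1 e⟩

lemma clo_Y : Clo fY := clo_A.and (clo_C.and clo_D)

lemma clo_Z : Clo fZ := clo_A.and (clo_C.and clo_E)

lemma isClosed_S {f : M6 ℂ → Prop} (hf : ∀ g : GL (Fin 6) ℂ, toFlag g ∈ Sset f ↔ f g.val)
    (hc : Clo f) : IsClosed (Sset f) := by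
  rw [isClosed_iff]
  intro g hg
  rw [hf]
  by_contra hn
  exact hn (hc _ fun h hh => hg h fun g' hg' => hh _ ((hf g').1 hg'))

lemma isClosed_Y : IsClosed (Sset fY) := isClosed_S mem_Y clo_Y

lemma isClosed_Z : IsClosed (Sset fZ) := isClosed_S mem_Z clo_Z

/-- block diagonal matrix -/
def blk (P Q : Matrix (Fin 3) (Fin 3) ℂ) : M6 ℂ :=
  !![P 0 0, P 0 1, P 0 2, 0, 0, 0; P 1 0, P 1 1, P 1 2, 0, 0, 0; P 2 0, P 2 1, P 2 2, 0, 0, 0;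
    0, 0, 0, Q 0 0, Q 0 1, Q 0 2; 0, 0, 0, Q 1 0, Q 1 1, Q 1 2; 0, 0, 0, Q 2 0, Q 2 1, Q 2 2]

lemma tp_blk (P Q : Matrix (Fin 3) (Fin 3) ℂ) (M : M6 ℂ) (j : Fin 6) :
    tp (blk P Q * M) j = P *ᵥ tp M j := by
  funext i
  fin_cases i <;> simp [tp, blk, mul_apply, Fin.sum_univ_six, mulVec, dotProduct, Fin.sum_univ_three]

lemma bt_blk (P Q : Matrix (Fin 3) (Fin 3) ℂ) (M : M6 ℂ) (j : Fin 6) :
    bt (blk P Q * M) j = Q *ᵥ bt M j := by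
  funext i
  fin_cases i <;> simp [bt, blk, mul_apply, Fin.sum_univ_six, mulVec, dotProduct, Fin.sum_univ_three]

lemma ext6 {M M' : M6 ℂ} (h1 : ∀ j, tp M j = tp M' j) (h2 : ∀ j, bt M j = bt M' j) : M = M' := by
  ext i j
  fin_cases i
  exacts [congrFun (h1 j) 0, congrFun (h1 j) 1, congrFun (h1 j) 2, congrFun (h2 j) 0,
    congrFun (h2 j) 1, congrFun (h2 j) 2]

lemma blk_inv {P Q : Matrix (Fin 3) (Fin 3) ℂ} (hP : P.det ≠ 0) (hQ : Q.det ≠ 0) (M : M6 ℂ) :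
    blk P⁻¹ Q⁻¹ * (blk P Q * M) = M := by
  refine ext6 (fun j => ?_) (fun j => ?_)
  · rw [tp_blk, tp_blk, mulVec_mulVec, nonsing_inv_mul _ (Ne.isUnit hP), one_mulVec]
  · rw [bt_blk, bt_blk, mulVec_mulVec, nonsing_inv_mul _ (Ne.isUnit hQ), one_mulVec]

lemma det_blk {P Q : Matrix (Fin 3) (Fin 3) ℂ} (hP : P.det ≠ 0) (hQ : Q.det ≠ 0) :
    (blk P Q).det ≠ 0 := by
  have := blk_inv hP hQ 1
  rw [Matrix.mul_one] at this
  exact det_ne_zero_of_left_inverse this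

lemma det_inv_ne {P : Matrix (Fin 3) (Fin 3) ℂ} (hP : P.det ≠ 0) : (P⁻¹).det ≠ 0 :=
  det_ne_zero_of_left_inverse (mul_nonsing_inv _ (Ne.isUnit hP))

lemma perp_left {Q : Matrix (Fin 3) (Fin 3) ℂ} (hQ : Q.det ≠ 0) {l : Fin 3 → ℂ} (hl : l ≠ 0) :
    ∃ l' : Fin 3 → ℂ, l' ≠ 0 ∧ ∀ x, l' ⬝ᵥ (Q *ᵥ x) = l ⬝ᵥ x := by
  have e : (l ᵥ* Q⁻¹) ᵥ* Q = l := by
    rw [vecMul_vecMul, nonsing_inv_mul _ (Ne.isUnit hQ), vecMul_one]
  refine ⟨l ᵥ* Q⁻¹, fun h => hl ?_, fun x => by rw [dotProduct_mulVec, e]⟩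
  rw [← e, h, zero_vecMul]

lemma cA.left {M : M6 ℂ} (h : cA M) (P Q : Matrix (Fin 3) (Fin 3) ℂ) : cA (blk P Q * M) := by
  obtain ⟨a, b0, b1, h0, h1⟩ := h
  exact ⟨Q *ᵥ a, b0, b1, by rw [bt_blk, h0, mulVec_smul], by rw [bt_blk, h1, mulVec_smul]⟩

lemma fY.left {M : M6 ℂ} (h : fY M) {P Q : Matrix (Fin 3) (Fin 3) ℂ} (hP : P.det ≠ 0)
    (hQ : Q.det ≠ 0) : fY (blk P Q * M) := by
  obtain ⟨hA, ⟨l, hl, h0, h1, h2, h3⟩, ⟨m, hm, k0, k1, k2⟩⟩ := h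
  obtain ⟨l', hl', e⟩ := perp_left hQ hl
  obtain ⟨m', hm', e'⟩ := perp_left hP hm
  refine ⟨hA.left P Q, ⟨l', hl', ?_⟩, ⟨m', hm', ?_⟩⟩
  · simp only [bt_blk, e]; exact ⟨h0, h1, h2, h3⟩
  · simp only [tp_blk, e']; exact ⟨k0, k1, k2⟩

lemma fY_left_iff {P Q : Matrix (Fin 3) (Fin 3) ℂ} (hP : P.det ≠ 0) (hQ : Q.det ≠ 0) (M : M6 ℂ) :
    fY (blk P Q * M) ↔ fY M :=
  ⟨fun h => blk_inv hP hQ M ▸ h.left (det_inv_ne hP) (det_inv_ne hQ), fun h => h.left hP hQ⟩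

end

end Pool.Agent.P.MP_25f57f_ag.Six
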