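import Pool.Agent.P.MP_25f57f_ag.Six1

/-! The example with `n = 6`: the two orbits. -/

set_option autoImplicit false

open MvPolynomial Matrix

namespace Pool.Agent.P.MP_25f57f_ag.Six

noncomputable section

/-- the clan `1+-+-1` -/
def gam : Fin 6 → ℤˣ ⊕ ℕ :=
  ![Sum.inr 1, Sum.inl 1, Sum.inl (-1), Sum.inl 1, Sum.inl (-1), Sum.inr 1]

/-- the clan `11-+22` -/
def alp : Fin 6 → ℤˣ ⊕ ℕ :=
  ![Sum.inr 1, Sum.inr 1, Sum.inl (-1), Sum.inl 1, Sum.inr 2, Sum.inr 2]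

/-- theta for `(3,3)` -/
def th : M6 ℂ := theta 3 3

lemma th_eq : th = diagonal ![1, 1, 1, -1, -1, -1] := by
  unfold th theta
  congr 1
  funext i
  fin_cases i <;> rfl

lemma th_sq : th * th = 1 := by
  rw [th_eq, diagonal_mul_diagonal, ← diagonal_one]
  congr 1
  funext i
  fin_cases i <;> simp

lemma th_apply (v : Fin 6 → ℂ) : th *ᵥ v = ![v 0, v 1, v 2, -v 3, -v 4, -v 5] := by
  funext i
  rw [th_eq, mulVec_diagonal]
  fin_cases i <;> simp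

lemma th_fix {v : Fin 6 → ℂ} : th *ᵥ v = (1 : ℂ) • v ↔ v 3 = 0 ∧ v 4 = 0 ∧ v 5 = 0 := by
  rw [th_apply, one_smul]
  constructor
  · intro h
    have h3 := congrFun h 3
    have h4 := congrFun h 4
    have h5 := congrFun h 5
    simp only [cons_val] at h3 h4 h5
    exact ⟨by linear_combination (-1 / 2 : ℂ) * h3, by linear_combination (-1 / 2 : ℂ) * h4,
      by linear_combination (-1 / 2 : ℂ) * h5⟩
  · rintro ⟨h3, h4, h5⟩
    funext i
    fin_cases i <;> simp [h3, h4, h5]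

lemma th_neg {v : Fin 6 → ℂ} : th *ᵥ v = (-1 : ℂ) • v ↔ v 0 = 0 ∧ v 1 = 0 ∧ v 2 = 0 := by
  rw [th_apply]
  constructor
  · intro h
    have h3 := congrFun h 0
    have h4 := congrFun h 1
    have h5 := congrFun h 2
    simp only [cons_val, Pi.smul_apply, smul_eq_mul] at h3 h4 h5
    exact ⟨by linear_combination (1 / 2 : ℂ) * h3, by linear_combination (1 / 2 : ℂ) * h4,
      by linear_combination (1 / 2 : ℂ) * h5⟩
  · rintro ⟨h3, h4, h5⟩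
    funext i
    fin_cases i <;> simp [h3, h4, h5]

lemma th_blk (P Q : Matrix (Fin 3) (Fin 3) ℂ) : th * blk P Q = blk P Q * th := by
  rw [th_eq]
  ext i j
  rw [diagonal_mul, mul_diagonal]
  fin_cases i <;> fin_cases j <;> simp [blk]

lemma arc_gam {i j : Fin 6} (h : IsArc gam i j) : i = 0 ∧ j = 5 := by
  obtain ⟨hij, k, h1, h2⟩ := h
  have key : ∀ i j : Fin 6, i < j → gam i = gam j → (gam i).isRight = true →
      i = 0 ∧ j = 5 := by decide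
  exact key i j hij (h1.trans h2.symm) (by rw [h1]; rfl)

lemma arc_alp {i j : Fin 6} (h : IsArc alp i j) : (i = 0 ∧ j = 1) ∨ (i = 4 ∧ j = 5) := by
  obtain ⟨hij, k, h1, h2⟩ := h
  have key : ∀ i j : Fin 6, i < j → alp i = alp j → (alp i).isRight = true →
      (i = 0 ∧ j = 1) ∨ (i = 4 ∧ j = 5) := by decide
  exact key i j hij (h1.trans h2.symm) (by rw [h1]; rfl)

lemma bt_zero {c : Fin 6 → ℤˣ ⊕ ℕ} {g : M6 ℂ} (hs : ∀ (i : Fin 6) (ε : ℤˣ), c i = Sum.inl ε →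
    th *ᵥ (fun r => g r i) = ((ε : ℤ) : ℂ) • fun r => g r i) {i : Fin 6} (hi : c i = Sum.inl 1) :
    bt g i = 0 := by
  have h : th *ᵥ (fun r => g r i) = (1 : ℂ) • fun r => g r i := by simpa using hs i 1 hi
  obtain ⟨h3, h4, h5⟩ := th_fix.1 h
  funext r; fin_cases r <;> assumption

lemma tp_zero {c : Fin 6 → ℤˣ ⊕ ℕ} {g : M6 ℂ} (hs : ∀ (i : Fin 6) (ε : ℤˣ), c i = Sum.inl ε →
    th *ᵥ (fun r => g r i) = ((ε : ℤ) : ℂ) • fun r => g r i) {i : Fin 6}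
    (hi : c i = Sum.inl (-1)) : tp g i = 0 := by
  have h : th *ᵥ (fun r => g r i) = (-1 : ℂ) • fun r => g r i := by simpa using hs i (-1) hi
  obtain ⟨h3, h4, h5⟩ := th_neg.1 h
  funext r; fin_cases r <;> assumption

lemma orbit_gam_subset : (orbit 3 3 gam : Set (FlagVar 6)) ⊆ Sset fY := by
  rintro x ⟨g, hg, hs, -⟩
  have h1 : bt g.val 1 = 0 := bt_zero (c := gam) hs rfl
  have h3 : bt g.val 3 = 0 := bt_zero (c := gam) hs rfl
  have h2 : tp g.val 2 = 0 := tp_zero (c := gam) hs rfl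
  obtain ⟨l, hl, e0, e2⟩ := exists_perp (bt g.val 0) (bt g.val 2)
  obtain ⟨m, hm, k0, k1⟩ := exists_perp (tp g.val 0) (tp g.val 1)
  exact ⟨g, hg, ⟨bt g.val 0, 1, 0, by simp, by simp [h1]⟩,
    ⟨l, hl, e0, by simp [h1], e2, by simp [h3]⟩, ⟨m, hm, k0, k1, by simp [h2]⟩⟩

lemma orbit_alp_subset : (orbit 3 3 alp : Set (FlagVar 6)) ⊆ Sset fZ := by
  rintro x ⟨g, hg, hs, ha⟩
  have h3 : bt g.val 3 = 0 := bt_zero (c := alp) hs rfl
  have h2 : tp g.val 2 = 0 := tp_zero (c := alp) hs rfl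
  have h : th *ᵥ (fun r : Fin 6 => g.val r (0 : Fin 6)) = fun r : Fin 6 => g.val r (1 : Fin 6) :=
    ha (0 : Fin 6) (1 : Fin 6) ⟨by decide, 1, rfl, rfl⟩
  rw [th_apply] at h
  have h1 : bt g.val 1 = (-1 : ℂ) • bt g.val 0 := by
    funext r
    fin_cases r
    · simpa [bt] using (congrFun h 3).symm
    · simpa [bt] using (congrFun h 4).symm
    · simpa [bt] using (congrFun h 5).symm
  have h0 : tp g.val 1 = (1 : ℂ) • tp g.val 0 := by
    funext r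
    fin_cases r
    · simpa [tp] using (congrFun h 0).symm
    · simpa [tp] using (congrFun h 1).symm
    · simpa [tp] using (congrFun h 2).symm
  obtain ⟨l, hl, e0, e2⟩ := exists_perp (bt g.val 0) (bt g.val 2)
  exact ⟨g, hg, ⟨bt g.val 0, 1, -1, by simp, h1⟩,
    ⟨l, hl, e0, by simp [h1, e0], e2, by simp [h3]⟩,
    ⟨tp g.val 0, 1, 1, 0, by simp, h0, by simp [h2]⟩⟩

lemma mv (M : M6 ℂ) (a b c d e f : ℂ) (r : Fin 6) :
    (M *ᵥ ![a, b, c, d, e, f]) r =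
      M r 0 * a + M r 1 * b + M r 2 * c + M r 3 * d + M r 4 * e + M r 5 * f := by
  simp [mulVec, dotProduct, Fin.sum_univ_six]

lemma mem_gam (g : GL (Fin 6) ℂ) (z0 : g.val 2 0 = 0) (z1 : g.val 2 1 = 0) (z2 : g.val 2 2 = 0)
    (y0 : g.val 5 0 = 0) (y1 : g.val 5 1 = 0) (y2 : g.val 5 2 = 0) (y3 : g.val 5 3 = 0)
    (hf : g.val 3 0 * g.val 4 1 = g.val 3 1 * g.val 4 0) (h1 : g.val 3 0 ≠ 0)
    (h2 : g.val 3 0 * g.val 4 2 - g.val 3 2 * g.val 4 0 ≠ 0)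
    (h3 : g.val 0 0 * g.val 1 1 - g.val 0 1 * g.val 1 0 ≠ 0) (h4 : g.val 2 3 ≠ 0)
    (h5 : Nm th g.val 5 0 ≠ 0) : toFlag g ∈ (orbit 3 3 gam : Set (FlagVar 6)) := by
  obtain ⟨M, hM, hM2, hMv⟩ := exists_conj th th_sq g
  rw [Nm_eq hM] at h5
  simp only [Matrix.smul_apply, smul_eq_mul] at h5
  have k5 : M 5 0 ≠ 0 := right_ne_zero_of_mul h5
  set A := g.val with hA
  let v1 : Fin 6 → ℂ := ![-A 3 1, A 3 0, 0, 0, 0, 0]
  let v2 : Fin 6 → ℂ := ![A 0 1 * A 1 2 - A 0 2 * A 1 1, A 0 2 * A 1 0 - A 0 0 * A 1 2,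
    A 0 0 * A 1 1 - A 0 1 * A 1 0, 0, 0, 0]
  let v3 : Fin 6 → ℂ := ![A 3 2 * A 4 3 - A 3 3 * A 4 2, 0, A 3 3 * A 4 0 - A 3 0 * A 4 3,
    A 3 0 * A 4 2 - A 3 2 * A 4 0, 0, 0]
  let v4 : Fin 6 → ℂ := ![
    -((A 0 4 * A 2 3 - A 0 3 * A 2 4) * A 1 1 - (A 1 4 * A 2 3 - A 1 3 * A 2 4) * A 0 1),
    -(A 0 0 * (A 1 4 * A 2 3 - A 1 3 * A 2 4) - A 1 0 * (A 0 4 * A 2 3 - A 0 3 * A 2 4)), 0,
    -(A 2 4 * (A 0 0 * A 1 1 - A 0 1 * A 1 0)), A 2 3 * (A 0 0 * A 1 1 - A 0 1 * A 1 0), 0]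
  have f1 : M *ᵥ v1 = (1 : ℂ) • v1 := by
    apply hMv
    rw [th_fix]
    simp only [v1, mv, y0, y1]
    refine ⟨by ring, by linear_combination hf, by ring⟩
  have f2 : M *ᵥ v2 = (-1 : ℂ) • v2 := by
    apply hMv
    rw [th_neg]
    simp only [v2, mv, z0, z1, z2]
    refine ⟨by ring, by ring, by ring⟩
  have f3 : M *ᵥ v3 = (1 : ℂ) • v3 := by
    apply hMv
    rw [th_fix]
    simp only [v3, mv, y0, y2, y3]
    refine ⟨by ring, by ring, by ring⟩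
  have f4 : M *ᵥ v4 = (-1 : ℂ) • v4 := by
    apply hMv
    rw [th_neg]
    simp only [v4, mv, z0, z1]
    refine ⟨by ring, by ring, by ring⟩
  let v : Fin 6 → Fin 6 → ℂ := ![![1, 0, 0, 0, 0, 0], v1, v2, v3, v4, M *ᵥ ![1, 0, 0, 0, 0, 0]]
  have hv0 : ∀ i r, i < r → v i r = 0 := by
    intro i r hir
    fin_cases i <;> fin_cases r <;> first | rfl | exact absurd hir (by decide)
  have hv1 : ∀ i, v i i ≠ 0 := by
    intro i
    fin_cases i
    · exact one_ne_zero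
    · exact h1
    · exact h3
    · exact h2
    · exact mul_ne_zero h4 h3
    · change (M *ᵥ ![1, 0, 0, 0, 0, 0]) 5 ≠ 0
      rw [mv]; simpa using k5
  have hs : ∀ (i : Fin 6) (ε : ℤˣ), gam i = Sum.inl ε → M *ᵥ v i = ((ε : ℤ) : ℂ) • v i := by
    intro i ε hi
    fin_cases i <;> simp [gam] at hi <;> subst hi
    · simpa [v] using f1
    · simpa [v] using f2
    · simpa [v] using f3
    · simpa [v] using f4
  have ha : ∀ i j, IsArc gam i j → M *ᵥ v i = v j := by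
    intro i j hij
    obtain ⟨rfl, rfl⟩ := arc_gam hij
    rfl
  exact mem_orbit_of_basis (p := 3) (q := 3) g M hM v hv0 hv1 hs ha

lemma mem_alp (g : GL (Fin 6) ℂ) (hZ : fZ g.val) (h1 : g.val 3 0 ≠ 0)
    (h2 : g.val 3 0 * g.val 4 2 - g.val 3 2 * g.val 4 0 ≠ 0) (h3 : g.val 0 0 ≠ 0)
    (h4 : g.val 3 0 * g.val 0 1 - g.val 0 0 * g.val 3 1 ≠ 0)
    (h5 : Nm th g.val 5 4 ≠ 0) : toFlag g ∈ (orbit 3 3 alp : Set (FlagVar 6)) := by
  obtain ⟨M, hM, hM2, hMv⟩ := exists_conj th th_sq g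
  rw [Nm_eq hM] at h5
  simp only [Matrix.smul_apply, smul_eq_mul] at h5
  have k5 : M 5 4 ≠ 0 := right_ne_zero_of_mul h5
  set A := g.val with hA
  obtain ⟨hA', ⟨l, hl, l0, -, l2, l3⟩, hE⟩ := hZ
  obtain ⟨a1, a2, -⟩ := (cA_iff A).1 hA'
  have c1 := (d3_iff _ _ _).2 ⟨l, hl, l0, l2, l3⟩
  have hE' := (cE_iff A).1 hE
  have e1 := hE' 0 1 0 1
  have e2 := hE' 0 2 0 1
  have e3 := hE' 0 1 0 2
  have e4 := hE' 0 2 0 2
  simp [tp, bt, d3] at c1 e1 e2 e3 e4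
  let f : Fin 6 → ℂ := ![-A 3 1, A 3 0, 0, 0, 0, 0]
  let n : Fin 6 → ℂ := ![-A 0 1, A 0 0, 0, 0, 0, 0]
  let v2 : Fin 6 → ℂ := ![-A 0 2, 0, A 0 0, 0, 0, 0]
  let v3 : Fin 6 → ℂ := ![A 3 2 * A 4 3 - A 3 3 * A 4 2, 0, A 3 3 * A 4 0 - A 3 0 * A 4 3,
    A 3 0 * A 4 2 - A 3 2 * A 4 0, 0, 0]
  have f0 : M *ᵥ f = (1 : ℂ) • f := by
    apply hMv
    rw [th_fix]
    simp only [f, mv]
    refine ⟨by ring, by linear_combination a1, by linear_combination a2⟩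
  have f1 : M *ᵥ n = (-1 : ℂ) • n := by
    apply hMv
    rw [th_neg]
    simp only [n, mv]
    refine ⟨by ring, by linear_combination e1, by linear_combination e2⟩
  have f2 : M *ᵥ v2 = (-1 : ℂ) • v2 := by
    apply hMv
    rw [th_neg]
    simp only [v2, mv]
    refine ⟨by ring, by linear_combination e3, by linear_combination e4⟩
  have f3 : M *ᵥ v3 = (1 : ℂ) • v3 := by
    apply hMv
    rw [th_fix]
    simp only [v3, mv]
    refine ⟨by ring, by ring, by linear_combination c1⟩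
  let v : Fin 6 → Fin 6 → ℂ := ![A 0 0 • f - A 3 0 • n, A 0 0 • f + A 3 0 • n, v2, v3,
    ![0, 0, 0, 0, 1, 0], M *ᵥ ![0, 0, 0, 0, 1, 0]]
  have hv0 : ∀ i r, i < r → v i r = 0 := by
    intro i r hir
    fin_cases i <;> fin_cases r <;>
      first | exact absurd hir (by decide) | (simp [v, f, n, v2, v3]; done) | (simp [v, f, n]; ring)
  have hv1 : ∀ i, v i i ≠ 0 := by
    intro i
    fin_cases i
    · intro h; apply h4; simp [v, f, n] at h; linear_combination h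
    · intro h; apply mul_ne_zero h3 h1; simp [v, f, n] at h; linear_combination (1 / 2 : ℂ) * h
    · exact h3
    · exact h2
    · exact one_ne_zero
    · change (M *ᵥ ![0, 0, 0, 0, 1, 0]) 5 ≠ 0
      rw [mv]; simpa using k5
  have hs : ∀ (i : Fin 6) (ε : ℤˣ), alp i = Sum.inl ε → M *ᵥ v i = ((ε : ℤ) : ℂ) • v i := by
    intro i ε hi
    fin_cases i <;> simp [alp] at hi <;> subst hi
    · simpa [v] using f2
    · simpa [v] using f3
  have ha : ∀ i j, IsArc alp i j → M *ᵥ v i = v j := by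
    intro i j hij
    rcases arc_alp hij with ⟨rfl, rfl⟩ | ⟨rfl, rfl⟩
    · change M *ᵥ (A 0 0 • f - A 3 0 • n) = A 0 0 • f + A 3 0 • n
      rw [mulVec_sub, mulVec_smul, mulVec_smul, f0, f1]
      module
    · rfl
  exact mem_orbit_of_basis (p := 3) (q := 3) g M hM v hv0 hv1 hs ha

/-- base point of the orbit of `gam` -/
def g0 : M6 ℂ := !![1, 0, 0, 0, 0, 1; 0, 1, 0, 0, 0, 0; 0, 0, 0, 1, 0, 0;
  1, 0, 0, 0, 0, -1; 0, 0, 1, 0, 0, 0; 0, 0, 0, 0, 1, 0]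

/-- signed involution of `gam` -/
def w0 : M6 ℂ := !![0, 0, 0, 0, 0, 1; 0, 1, 0, 0, 0, 0; 0, 0, -1, 0, 0, 0;
  0, 0, 0, 1, 0, 0; 0, 0, 0, 0, -1, 0; 1, 0, 0, 0, 0, 0]

/-- base point of the orbit of `alp` -/
def g1 : M6 ℂ := !![1, 1, 0, 0, 0, 0; 0, 0, 0, 1, 0, 0; 0, 0, 0, 0, 1, 1;
  1, -1, 0, 0, 0, 0; 0, 0, 1, 0, 0, 0; 0, 0, 0, 0, 1, -1]

/-- signed involution of `alp` -/
def w1 : M6 ℂ := !![0, 1, 0, 0, 0, 0; 1, 0, 0, 0, 0, 0; 0, 0, -1, 0, 0, 0;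
  0, 0, 0, 1, 0, 0; 0, 0, 0, 0, 0, 1; 0, 0, 0, 0, 1, 0]

lemma g0_w0 : g0 * w0 = th * g0 := by
  rw [th_eq]
  ext i j
  rw [diagonal_mul]
  fin_cases i <;> fin_cases j <;> simp [g0, w0, mul_apply, Fin.sum_univ_six]

lemma g1_w1 : g1 * w1 = th * g1 := by
  rw [th_eq]
  ext i j
  rw [diagonal_mul]
  fin_cases i <;> fin_cases j <;> simp [g1, w1, mul_apply, Fin.sum_univ_six]

lemma det_g0 : g0.det ≠ 0 := by
  refine det_ne_zero_of_right_inverse (B := !![1 / 2, 0, 0, 1 / 2, 0, 0; 0, 1, 0, 0, 0, 0;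
    0, 0, 0, 0, 1, 0; 0, 0, 1, 0, 0, 0; 0, 0, 0, 0, 0, 1; 1 / 2, 0, 0, -1 / 2, 0, 0]) ?_
  ext i j
  fin_cases i <;> fin_cases j <;> simp [g0, mul_apply, Fin.sum_univ_six] <;> norm_num

lemma det_g1 : g1.det ≠ 0 := by
  refine det_ne_zero_of_right_inverse (B := !![1 / 2, 0, 0, 1 / 2, 0, 0; 1 / 2, 0, 0, -1 / 2, 0, 0;
    0, 0, 0, 0, 1, 0; 0, 1, 0, 0, 0, 0; 0, 0, 1 / 2, 0, 0, 1 / 2; 0, 0, 1 / 2, 0, 0, -1 / 2]) ?_
  ext i j
  fin_cases i <;> fin_cases j <;> simp [g1, mul_apply, Fin.sum_univ_six] <;> norm_num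

lemma closure_gam : closure (orbit 3 3 gam : Set (FlagVar 6)) = Sset fY := by
  apply subset_antisymm (closure_minimal orbit_gam_subset isClosed_Y)
  rintro x ⟨g, rfl, hA, ⟨l, hl, l0, l1, l2, l3⟩, ⟨m, hm, m0, m1, m2⟩⟩
  obtain ⟨Q, hQ, rfl⟩ := exists_last_row hl
  obtain ⟨P, hP, rfl⟩ := exists_last_row hm
  set G := blk P Q * g.val with hG
  have z0 : G 2 0 = 0 := (congrFun (tp_blk P Q g.val 0) 2).trans m0
  have z1 : G 2 1 = 0 := (congrFun (tp_blk P Q g.val 1) 2).trans m1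
  have z2 : G 2 2 = 0 := (congrFun (tp_blk P Q g.val 2) 2).trans m2
  have y0 : G 5 0 = 0 := (congrFun (bt_blk P Q g.val 0) 2).trans l0
  have y1 : G 5 1 = 0 := (congrFun (bt_blk P Q g.val 1) 2).trans l1
  have y2 : G 5 2 = 0 := (congrFun (bt_blk P Q g.val 2) 2).trans l2
  have y3 : G 5 3 = 0 := (congrFun (bt_blk P Q g.val 3) 2).trans l3
  obtain ⟨a, b0, b1, c0, c1⟩ := hA.left P Q
  have e1 : G 3 0 = b0 * a 0 := congrFun c0 0
  have e2 : G 3 1 = b1 * a 0 := congrFun c1 0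
  have e3 : G 4 0 = b0 * a 1 := congrFun c0 1
  have e4 : G 4 1 = b1 * a 1 := congrFun c1 1
  obtain ⟨k, hk⟩ := exists_GL (det_blk (det_inv_ne hP) (det_inv_ne hQ))
  have hgG : g.val = k.val * G := by rw [hk, hG, blk_inv hP hQ]
  clear_value G
  let A : Fin 6 → Polynomial ℂ := ![0, 0, 0,
    Polynomial.C (a 0) + Polynomial.X * Polynomial.C (1 - a 0),
    Polynomial.C (a 1) - Polynomial.X * Polynomial.C (a 1), 0]
  let B : Fin 6 → Polynomial ℂ := ![Polynomial.C b0 + Polynomial.X * Polynomial.C (1 - b0),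
    Polynomial.C b1 - Polynomial.X * Polynomial.C b1, 0, 0, 0, 0]
  let R : M6 (Polynomial ℂ) := of fun i j =>
    if 3 ≤ i ∧ j ≤ 1 then A i * B j else seg G g0 i j
  have hR0 : R.map (Polynomial.evalRingHom 0) = G := by
    ext i j
    fin_cases i <;> fin_cases j <;> simp [R, A, B, seg, e1, e2, e3, e4, y0, y1] <;> ring
  have hR1 : R.map (Polynomial.evalRingHom 1) = g0 := by
    ext i j
    fin_cases i <;> fin_cases j <;> simp [R, A, B, seg, g0]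
  have hev : ∀ (t : ℂ) (i j : Fin 6),
      (R i j).eval t = R.map (Polynomial.evalRingHom t) i j := fun _ _ _ => rfl
  have hkR : ∀ t : ℂ, (k.val.map Polynomial.C * R).map (Polynomial.evalRingHom t) =
      k.val * R.map (Polynomial.evalRingHom t) := by
    intro t
    rw [Matrix.map_mul]
    congr 1
    ext i j; simp
  set N := Nm (th.map Polynomial.C) R with hN
  refine mem_closure_of_curve (k.val.map Polynomial.C * R)
    (R.det * R 3 0 * (R 3 0 * R 4 2 - R 3 2 * R 4 0) * (R 0 0 * R 1 1 - R 0 1 * R 1 0) * R 2 3 *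
      N 5 0) ?_ ?_ (by rw [hkR, hR0, hgG])
  · intro h
    have := congrArg (Polynomial.eval 1) h
    simp only [Polynomial.eval_mul, Polynomial.eval_sub, hN, eval_Nm, hev,
      eval_det, hR1, Nm_eq g0_w0, Polynomial.eval_zero] at this
    simp [w0, det_g0] at this
    simp [g0] at this
  · intro t ht
    simp only [Polynomial.eval_mul, Polynomial.eval_sub, hN, eval_Nm, eval_det, hev,
      mul_ne_zero_iff] at ht
    obtain ⟨⟨⟨⟨⟨t0, t1⟩, t2⟩, t3⟩, t4⟩, t5⟩ := ht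
    obtain ⟨g', hg'⟩ := exists_GL t0
    rw [← hg'] at t1 t2 t3 t4 t5
    refine ⟨k * g', by rw [hkR, Units.val_mul, hg'], orbit_left (p := 3) (q := 3) k g' ?_ ?_⟩
    · rw [hk]; exact th_blk _ _
    · refine mem_gam g' ?_ ?_ ?_ ?_ ?_ ?_ ?_ ?_ t1 t2 t3 t4 t5 <;> rw [hg'] <;>
        simp [R, A, B, seg, g0, z0, z1, z2, y2, y3]
      ring

end

end Pool.Agent.P.MP_25f57f_ag.Six
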