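import Pool.Agent.P.MP_25f57f_ag.Six1

/-! The example with `n = 6`: regular points. -/

set_option autoImplicit false

open MvPolynomial Matrix

namespace Pool.Agent.P.MP_25f57f_ag.Six

noncomputable section

lemma dd_sum_affine {σ : Type} [Fintype σ] [DecidableEq σ] {r : ℕ} {a D : σ → ℂ} (c : Fin r → ℂ)
    (F : Fin r → MvPolynomial σ ℂ) {c0 c1 : ℂ}
    (h : ∀ t : ℂ, ∑ i, c i * eval (a + t • D) (F i) = c0 + t * c1) :
    ∑ i, c i * dd a D (F i) = c1 := by
  have h1 : dd a D (∑ i, C (c i) * F i) = c1 := dd_affine (c0 := c0) fun t => by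
    rw [← h t]; simp
  rw [← h1]
  simp only [dd, map_sum, pderiv_C_mul, map_mul, eval_C, Finset.mul_sum]
  rw [Finset.sum_comm]
  exact Finset.sum_congr rfl fun s _ => Finset.sum_congr rfl fun i _ => by ring

/-- local equations -/
def Feq {R : Type} [CommRing R] (M : M6 R) : Fin 4 → R :=
  ![M 3 0 * M 4 1 - M 3 1 * M 4 0, M 3 0 * M 5 1 - M 3 1 * M 5 0,
    d3 (bt M 0) (bt M 2) (bt M 3), d3 (tp M 0) (tp M 1) (tp M 2)]

lemma eval_Feq (M : M6 ℂ) (i : Fin 4) : eval (ent M) (Feq (Xm 6) i) = Feq M i := by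
  fin_cases i <;> simp [Feq, d3, tp, bt, eval_Xm]

lemma Feq_zero {M : M6 ℂ} (h : fY M) (i : Fin 4) : Feq M i = 0 := by
  obtain ⟨hA, ⟨l, hl, l0, -, l2, l3⟩, hD⟩ := h
  obtain ⟨a1, a2, -⟩ := (cA_iff M).1 hA
  fin_cases i
  exacts [a1, a2, (d3_iff _ _ _).2 ⟨l, hl, l0, l2, l3⟩, (cD_iff M).1 hD]

lemma fY_of_Feq {M : M6 ℂ} (h0 : M 3 0 ≠ 0) (h : ∀ i, Feq M i = 0) : fY M := by
  have a1 : M 3 0 * M 4 1 - M 3 1 * M 4 0 = 0 := h 0
  have a2 : M 3 0 * M 5 1 - M 3 1 * M 5 0 = 0 := h 1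
  obtain ⟨l, hl, l0, l2, l3⟩ := (d3_iff _ _ _).1 (h 2)
  refine ⟨(cA_iff M).2 ⟨a1, a2, ?_⟩, ⟨l, hl, l0, ?_, l2, l3⟩, (cD_iff M).2 (h 3)⟩
  · apply mul_left_cancel₀ h0
    linear_combination M 4 0 * a2 - M 5 0 * a1
  · apply mul_left_cancel₀ h0
    simp only [dotProduct, Fin.sum_univ_three, bt, cons_val] at l0 ⊢
    linear_combination M 3 1 * l0 + l 1 * a1 + l 2 * a2

lemma cr_of {y z : Fin 3 → ℂ} (h : ∀ x, d3 x y z = 0) (i i' : Fin 3) :
    y i * z i' = z i * y i' := by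
  have e0 := h ![1, 0, 0]
  have e1 := h ![0, 1, 0]
  have e2 := h ![0, 0, 1]
  simp [d3] at e0 e1 e2
  fin_cases i <;> fin_cases i' <;> simp <;>
    first | ring1 | linear_combination e0 | linear_combination -e0 | linear_combination e1
          | linear_combination -e1 | linear_combination e2 | linear_combination -e2

/-- a direction that moves the upper half of one column -/
def dirT (j : Fin 6) (x : Fin 3 → ℂ) : M6 ℂ :=
  of fun r s => if s = j then ![x 0, x 1, x 2, 0, 0, 0] r else 0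

lemma regular_off (g : GL (Fin 6) ℂ) (hY : fY g.val) (h1 : g.val 3 0 ≠ 0)
    (h2 : g.val 3 0 * g.val 4 2 - g.val 3 2 * g.val 4 0 ≠ 0) (hE : ¬ cE g.val) :
    IsRegularLocalRing (LocQ (vanishingIdeal ℂ (chart (Sset fY) g))) := by
  refine regular_chart mem_Y (fun _ b hb h => h.right b hb) (Feq (Xm 6)) (Xm 6 3 0)
    (fun M hM i => by rw [eval_Feq]; exact Feq_zero hM i)
    (fun M h0 h => fY_of_Feq (by rwa [eval_Xm] at h0) fun i => by rw [← eval_Feq]; exact h i)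
    g hY (by rwa [eval_Xm]) fun c hc => ?_
  set A := g.val with hA
  have key : ∀ (D : M6 ℂ) (c1 : ℂ),
      (∀ t : ℂ, ∑ i, c i * Feq (A + t • D) i = ∑ i, c i * Feq A i + t * c1) → c1 = 0 := by
    intro D c1 h
    rw [← hc D]
    symm
    refine dd_sum_affine c _ (c0 := ∑ i, c i * Feq A i) fun t => ?_
    simp only [ent_line, eval_Feq]
    exact h t
  have k0 : c 0 * A 3 0 = 0 := key (single 4 1 1) _ fun t => by
    simp [Fin.sum_univ_four, Feq, d3, tp, bt]; ring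
  have k1 : c 1 * A 3 0 = 0 := key (single 5 1 1) _ fun t => by
    simp [Fin.sum_univ_four, Feq, d3, tp, bt]; ring
  have k2 : c 2 * (A 3 0 * A 4 2 - A 3 2 * A 4 0) = 0 := key (single 5 3 1) _ fun t => by
    simp [Fin.sum_univ_four, Feq, d3, tp, bt]; ring
  have k3 : ∀ x, c 3 * d3 x (tp A 1) (tp A 2) = 0 := fun x => key (dirT 0 x) _ fun t => by
    simp [Fin.sum_univ_four, Feq, d3, tp, bt, dirT]; ring
  have k4 : ∀ x, c 3 * d3 x (tp A 2) (tp A 0) = 0 := fun x => key (dirT 1 x) _ fun t => by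
    simp [Fin.sum_univ_four, Feq, d3, tp, bt, dirT]; ring
  have k5 : ∀ x, c 3 * d3 x (tp A 0) (tp A 1) = 0 := fun x => key (dirT 2 x) _ fun t => by
    simp [Fin.sum_univ_four, Feq, d3, tp, bt, dirT]; ring
  have c3 : c 3 = 0 := by
    by_contra h3
    apply hE
    have e3 := cr_of fun x => (mul_eq_zero.1 (k3 x)).resolve_left h3
    have e4 := cr_of fun x => (mul_eq_zero.1 (k4 x)).resolve_left h3
    have e5 := cr_of fun x => (mul_eq_zero.1 (k5 x)).resolve_left h3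
    rw [cE_iff]
    intro i i' j j'
    fin_cases j <;> fin_cases j' <;>
      first | rfl | exact e3 i i' | exact e4 i i' | exact e5 i i' | exact (e3 i i').symm
            | exact (e4 i i').symm | exact (e5 i i').symm
  funext i
  fin_cases i
  exacts [(mul_eq_zero.1 k0).resolve_right h1, (mul_eq_zero.1 k1).resolve_right h1,
    (mul_eq_zero.1 k2).resolve_right h2, c3]

end

end Pool.Agent.P.MP_25f57f_ag.Six
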