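import Pool.Agent.P.MP_25f57f_ag.Six1

/-! The example with `n = 6`: singular points. -/

set_option autoImplicit false

open MvPolynomial Matrix

namespace Pool.Agent.P.MP_25f57f_ag.Six

noncomputable section

variable (α0 α1 β0 β1 γ0 γ1 δ0 δ1 : ℂ)

/-- normal form of a point of the singular component -/
def Nf : M6 ℂ := !![α0, α1, 0, 0, 0, 0; 0, 0, 0, 1, 0, 0; 0, 0, 0, 0, γ0, γ1;
  β0, β1, 0, 0, 0, 0; 0, 0, 1, 0, 0, 0; 0, 0, 0, 0, δ0, δ1]

lemma tp_Nf (W : M6 ℂ) (j : Fin 6) : tp (Nf α0 α1 β0 β1 γ0 γ1 δ0 δ1 * W) j =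
    ![α0 * W 0 j + α1 * W 1 j, W 3 j, γ0 * W 4 j + γ1 * W 5 j] := by
  funext i
  fin_cases i <;> simp [tp, Nf, mul_apply, Fin.sum_univ_six]

lemma bt_Nf (W : M6 ℂ) (j : Fin 6) : bt (Nf α0 α1 β0 β1 γ0 γ1 δ0 δ1 * W) j =
    ![β0 * W 0 j + β1 * W 1 j, W 2 j, δ0 * W 4 j + δ1 * W 5 j] := by
  funext i
  fin_cases i <;> simp [bt, Nf, mul_apply, Fin.sum_univ_six]

/-- the tangent space, parametrised so that the coordinate axes lie in the variety -/
def Phi (w : Fin 12 → ℂ) : M6 ℂ :=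
  !![0, 0, 0, 0, 0, 0; w 0, 0, 0, 0, 0, 0; w 6 * β0, w 6 * β1, 0, 0, 0, 0;
    w 7 * β0 + w 10 * α0, w 7 * β1 + w 10 * α1, w 2, 0, 0, 0;
    w 8 * β0 + w 11 * δ1 * α0, w 8 * β1 + w 11 * δ1 * α1, w 3, w 5 * δ1, 0, 0;
    w 9 * β0 - w 11 * δ0 * α0, w 9 * β1 - w 11 * δ0 * α1, w 4, -(w 5 * δ0), w 1, 0]

lemma cA_iff' (M : M6 ℂ) : cA M ↔ bt M 0 0 * bt M 1 1 - bt M 1 0 * bt M 0 1 = 0 ∧
    bt M 0 0 * bt M 1 2 - bt M 1 0 * bt M 0 2 = 0 ∧
    bt M 0 1 * bt M 1 2 - bt M 1 1 * bt M 0 2 = 0 := cA_iff M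

lemma fY_of {M : M6 ℂ} (hA : cA M) (h3 : bt M 3 = 0) (hD : d3 (tp M 0) (tp M 1) (tp M 2) = 0) :
    fY M := by
  refine ⟨hA, ?_, (cD_iff M).2 hD⟩
  obtain ⟨a, b0, b1, h0, h1⟩ := hA
  obtain ⟨l, hl, e0, e2⟩ := exists_perp a (bt M 2)
  exact ⟨l, hl, by simp [h0, e0], by simp [h1, e0], e2, by simp [h3]⟩

lemma line_mem (i : Fin 12) (t : ℂ) :
    fY (Nf α0 α1 β0 β1 γ0 γ1 δ0 δ1 * (1 + Phi α0 α1 β0 β1 δ0 δ1 (Pi.single i t))) := by
  have h3 : bt (Nf α0 α1 β0 β1 γ0 γ1 δ0 δ1 * (1 + Phi α0 α1 β0 β1 δ0 δ1 (Pi.single i t))) 3 = 0 := by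
    rw [bt_Nf]
    funext r
    fin_cases r <;> simp [Phi]
    ring
  refine fY_of ?_ h3 ?_
  · rw [cA_iff']
    simp only [bt_Nf]
    fin_cases i <;> simp [Phi] <;> ring
  · simp only [tp_Nf]
    fin_cases i <;> simp [Phi, d3]

lemma lowM_Phi (w : Fin 12 → ℂ) :
    lowM (fun s : Low 6 => Phi α0 α1 β0 β1 δ0 δ1 w s.1.1 s.1.2) = Phi α0 α1 β0 β1 δ0 δ1 w := by
  ext i j
  fin_cases i <;> fin_cases j <;> simp [lowM, Phi]

lemma smul_Phi (w : Fin 12 → ℂ) (t : ℂ) :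
    t • Phi α0 α1 β0 β1 δ0 δ1 w = Phi α0 α1 β0 β1 δ0 δ1 (t • w) := by
  ext i j
  fin_cases i <;> fin_cases j <;> simp [Phi] <;> ring

lemma sum_Phi (w : Fin 12 → ℂ) (i j : Fin 6) :
    ∑ k, w k * Phi α0 α1 β0 β1 δ0 δ1 (Pi.single k 1) i j = Phi α0 α1 β0 β1 δ0 δ1 w i j := by
  fin_cases i <;> fin_cases j <;> simp [Phi, Fin.sum_univ_succ] <;> ring

lemma eval_unitriX (u : Low 6 → ℂ) (i j : Fin 6) : eval u (unitriX 6 i j) = unitri u i j := by
  simp only [unitriX, unitri, of_apply]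
  split_ifs <;> simp

variable {α0 α1 β0 β1 γ0 γ1 δ0 δ1}

lemma two_zero {a0 a1 b0 b1 x y : ℂ} (h : a0 * b1 - a1 * b0 ≠ 0) (h0 : a0 * x + a1 * y = 0)
    (h1 : b0 * x + b1 * y = 0) : x = 0 ∧ y = 0 :=
  ⟨mul_left_cancel₀ h (by linear_combination b1 * h0 - a1 * h1),
    mul_left_cancel₀ h (by linear_combination a0 * h1 - b0 * h0)⟩

lemma two_zero' {a0 a1 b0 b1 x y : ℂ} (h : a0 * b1 - a1 * b0 ≠ 0) (h0 : a0 * x + b0 * y = 0)
    (h1 : a1 * x + b1 * y = 0) : x = 0 ∧ y = 0 :=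
  ⟨mul_left_cancel₀ h (by linear_combination b1 * h0 - b0 * h1),
    mul_left_cancel₀ h (by linear_combination a0 * h1 - a1 * h0)⟩

lemma Phi_inj (h1 : α0 * β1 - α1 * β0 ≠ 0) (h2 : γ0 * δ1 - γ1 * δ0 ≠ 0) (w : Fin 12 → ℂ)
    (h : ∀ i j, j < i → Phi α0 α1 β0 β1 δ0 δ1 w i j = 0) : w = 0 := by
  have e0 : w 0 = 0 := h 1 0 (by decide)
  have e1 : w 1 = 0 := h 5 4 (by decide)
  have e2 : w 2 = 0 := h 3 2 (by decide)
  have e3 : w 3 = 0 := h 4 2 (by decide)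
  have e4 : w 4 = 0 := h 5 2 (by decide)
  have a43 : w 5 * δ1 = 0 := h 4 3 (by decide)
  have a53 : -(w 5 * δ0) = 0 := h 5 3 (by decide)
  have a20 : w 6 * β0 = 0 := h 2 0 (by decide)
  have a21 : w 6 * β1 = 0 := h 2 1 (by decide)
  have a30 : w 7 * β0 + w 10 * α0 = 0 := h 3 0 (by decide)
  have a31 : w 7 * β1 + w 10 * α1 = 0 := h 3 1 (by decide)
  have a40 : w 8 * β0 + w 11 * δ1 * α0 = 0 := h 4 0 (by decide)
  have a41 : w 8 * β1 + w 11 * δ1 * α1 = 0 := h 4 1 (by decide)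
  have a50 : w 9 * β0 - w 11 * δ0 * α0 = 0 := h 5 0 (by decide)
  have a51 : w 9 * β1 - w 11 * δ0 * α1 = 0 := h 5 1 (by decide)
  have e5 : w 5 = 0 := mul_left_cancel₀ h2 (by linear_combination γ0 * a43 + γ1 * a53)
  have e6 : w 6 = 0 := mul_left_cancel₀ h1 (by linear_combination α0 * a21 - α1 * a20)
  obtain ⟨e10, e7⟩ := two_zero' (x := w 10) (y := w 7) h1 (by linear_combination a30)
    (by linear_combination a31)
  obtain ⟨b1, e8⟩ := two_zero' (x := w 11 * δ1) (y := w 8) h1 (by linear_combination a40)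
    (by linear_combination a41)
  obtain ⟨b2, e9⟩ := two_zero' (x := -(w 11 * δ0)) (y := w 9) h1 (by linear_combination a50)
    (by linear_combination a51)
  have e11 : w 11 = 0 := mul_left_cancel₀ h2 (by linear_combination γ0 * b1 + γ1 * b2)
  funext i
  fin_cases i <;> assumption

/-- equations of a transversal slice -/
def cut {R : Type} [CommRing R] (a0 a1 b0 b1 c0 c1 d0 d1 : R) (U : M6 R) : Fin 11 → R :=
  ![U 1 0, U 5 4, U 3 2, d0 * U 4 2 + d1 * U 5 2, c0 * U 4 3 + c1 * U 5 3,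
    a0 * U 2 1 - a1 * U 2 0, b1 * U 3 0 - b0 * U 3 1, a0 * U 4 1 - a1 * U 4 0,
    a0 * U 5 1 - a1 * U 5 0, c0 * (b1 * U 4 0 - b0 * U 4 1) + c1 * (b1 * U 5 0 - b0 * U 5 1),
    (a0 * U 3 1 - a1 * U 3 0) - (c0 * U 4 2 + c1 * U 5 2)]

lemma eval_cut (u : Low 6 → ℂ) (i : Fin 11) :
    eval u (cut (C α0) (C α1) (C β0) (C β1) (C γ0) (C γ1) (C δ0) (C δ1) (unitriX 6) i) =
      cut α0 α1 β0 β1 γ0 γ1 δ0 δ1 (unitri u) i := by
  fin_cases i <;> simp [cut, eval_unitriX]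

lemma slice (h1 : α0 * β1 - α1 * β0 ≠ 0) (h2 : γ0 * δ1 - γ1 * δ0 ≠ 0) (u : Low 6 → ℂ)
    (hY : fY (Nf α0 α1 β0 β1 γ0 γ1 δ0 δ1 * unitri u))
    (hx : ∀ i, cut α0 α1 β0 β1 γ0 γ1 δ0 δ1 (unitri u) i = 0) : u = 0 := by
  set U := unitri u with hU
  have d0 : U 0 0 = 1 := by simp [hU, unitri]
  have d1 : U 1 1 = 1 := by simp [hU, unitri]
  have d2 : U 2 2 = 1 := by simp [hU, unitri]
  have d01 : U 0 1 = 0 := by simp [hU, unitri]
  have d02 : U 0 2 = 0 := by simp [hU, unitri]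
  have d12 : U 1 2 = 0 := by simp [hU, unitri]
  have d03 : U 0 3 = 0 := by simp [hU, unitri]
  have d13 : U 1 3 = 0 := by simp [hU, unitri]
  have d23 : U 2 3 = 0 := by simp [hU, unitri]
  have u10 : U 1 0 = 0 := hx 0
  have u54 : U 5 4 = 0 := hx 1
  have u32 : U 3 2 = 0 := hx 2
  have x3 : δ0 * U 4 2 + δ1 * U 5 2 = 0 := hx 3
  have x4 : γ0 * U 4 3 + γ1 * U 5 3 = 0 := hx 4
  have x5 : α0 * U 2 1 - α1 * U 2 0 = 0 := hx 5
  have x6 : β1 * U 3 0 - β0 * U 3 1 = 0 := hx 6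
  have x7 : α0 * U 4 1 - α1 * U 4 0 = 0 := hx 7
  have x8 : α0 * U 5 1 - α1 * U 5 0 = 0 := hx 8
  have x9 : γ0 * (β1 * U 4 0 - β0 * U 4 1) + γ1 * (β1 * U 5 0 - β0 * U 5 1) = 0 := hx 9
  have x10 : (α0 * U 3 1 - α1 * U 3 0) - (γ0 * U 4 2 + γ1 * U 5 2) = 0 := hx 10
  obtain ⟨hA, ⟨l, hl, l0, l1, l2, l3⟩, hD⟩ := hY
  obtain ⟨a1, a2, -⟩ := (cA_iff' _).1 hA
  have c0 := (d3_iff _ _ _).2 ⟨l, hl, l0, l2, l3⟩
  have c1 := (d3_iff _ _ _).2 ⟨l, hl, l1, l2, l3⟩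
  have c2 := (cD_iff _).1 hD
  simp only [bt_Nf, tp_Nf, d3, cons_val, d0, d1, d2, d01, d02, d12, d03, d13, d23, u10,
    u32] at a1 a2 c0 c1 c2
  obtain ⟨u21, u20⟩ := two_zero (x := U 2 1) (y := -U 2 0) h1 (by linear_combination x5)
    (by linear_combination a1)
  obtain ⟨n4, n5⟩ := two_zero (x := β1 * U 4 0 - β0 * U 4 1) (y := β1 * U 5 0 - β0 * U 5 1) h2 x9
    (by linear_combination -a2)
  obtain ⟨u41, u40⟩ := two_zero (x := U 4 1) (y := -U 4 0) h1 (by linear_combination x7)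
    (by linear_combination -n4)
  obtain ⟨u51, u50⟩ := two_zero (x := U 5 1) (y := -U 5 0) h1 (by linear_combination x8)
    (by linear_combination -n5)
  rw [neg_eq_zero] at u20 u40 u50
  have n3 : δ0 * U 4 3 + δ1 * U 5 3 = 0 :=
    mul_left_cancel₀ h1 (by linear_combination α0 * c1 - α1 * c0)
  obtain ⟨u43, u53⟩ := two_zero h2 x4 n3
  rw [u40, u41, u50, u51] at c2
  have s0 : γ0 * U 4 2 + γ1 * U 5 2 = 0 := by
    refine pow_eq_zero_iff (two_ne_zero) |>.1 ?_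
    linear_combination c2 - (γ0 * U 4 2 + γ1 * U 5 2) * x10
  obtain ⟨u42, u52⟩ := two_zero h2 s0 x3
  obtain ⟨u31, u30⟩ := two_zero (x := U 3 1) (y := -U 3 0) h1 (by linear_combination x10 + s0)
    (by linear_combination -x6)
  rw [neg_eq_zero] at u30
  funext ⟨⟨i, j⟩, hij⟩
  have e : u ⟨(i, j), hij⟩ = U i j := by
    have hij' : j < i := hij
    simp [hU, unitri, hij']
  rw [e, Pi.zero_apply]
  fin_cases i <;> fin_cases j <;> first | assumption | exact absurd hij (by decide)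

lemma not_regular_Nf (h1 : α0 * β1 - α1 * β0 ≠ 0) (h2 : γ0 * δ1 - γ1 * δ0 ≠ 0)
    {V : Set (Low 6 → ℂ)} (hV : ∀ u, u ∈ V ↔ fY (Nf α0 α1 β0 β1 γ0 γ1 δ0 δ1 * unitri u)) :
    ¬ IsRegularLocalRing (LocQ (vanishingIdeal ℂ V)) := by
  refine not_regular_of_lines (d := 11)
    (fun i (s : Low 6) => Phi α0 α1 β0 β1 δ0 δ1 (Pi.single i 1) s.1.1 s.1.2) (fun w hw => ?_)
    (fun i t => ?_) (cut (C α0) (C α1) (C β0) (C β1) (C γ0) (C γ1) (C δ0) (C δ1) (unitriX 6))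
    (fun i => ?_) (fun u hu hx => ?_)
  · refine Phi_inj h1 h2 w fun i j hij => ?_
    rw [← sum_Phi]
    simpa using congrFun hw ⟨(i, j), hij⟩
  · rw [hV, unitri_smul, lowM_Phi, smul_Phi, ← Pi.single_smul, smul_eq_mul, mul_one]
    exact line_mem _ _ _ _ _ _ _ _ i t
  · rw [eval_cut, unitri_zero]
    fin_cases i <;> simp [cut]
  · refine slice h1 h2 u (clo_Y _ fun h hh => ?_) fun i => by rw [← eval_cut]; exact hx i
    rw [← eval_chart]
    refine hu _ fun u' hu' => ?_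
    rw [aeval_eq_eval, eval_chart]
    exact hh _ ((hV u').1 hu')

lemma indep6 (g : GL (Fin 6) ℂ) (w : Fin 6 → ℂ)
    (h1 : w 0 • tp g.val 0 + w 1 • tp g.val 1 + w 2 • tp g.val 2 + w 3 • tp g.val 3 +
      w 4 • tp g.val 4 + w 5 • tp g.val 5 = 0)
    (h2 : w 0 • bt g.val 0 + w 1 • bt g.val 1 + w 2 • bt g.val 2 + w 3 • bt g.val 3 +
      w 4 • bt g.val 4 + w 5 • bt g.val 5 = 0) : w = 0 := by
  refine col_indep g w ?_
  have a0 := congrFun h1 0
  have a1 := congrFun h1 1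
  have a2 := congrFun h1 2
  have a3 := congrFun h2 0
  have a4 := congrFun h2 1
  have a5 := congrFun h2 2
  simp [tp, bt] at a0 a1 a2 a3 a4 a5
  funext r
  fin_cases r <;> simp [mulVec, dotProduct, Fin.sum_univ_six]
  exacts [by linear_combination a0, by linear_combination a1, by linear_combination a2,
    by linear_combination a3, by linear_combination a4, by linear_combination a5]

lemma cols_mulVec (a b c x : Fin 3 → ℂ) :
    (of fun i j => ![a, b, c] j i) *ᵥ x = x 0 • a + x 1 • b + x 2 • c := by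
  funext i
  simp [mulVec, dotProduct, Fin.sum_univ_three]
  ring

lemma exists_coord {P : Matrix (Fin 3) (Fin 3) ℂ} (hP : P.det ≠ 0) (y : Fin 3 → ℂ) :
    ∃ x, y = P *ᵥ x :=
  ⟨P⁻¹ *ᵥ y, by rw [mulVec_mulVec, mul_nonsing_inv _ (Ne.isUnit hP), one_mulVec]⟩

lemma normal_form (g : GL (Fin 6) ℂ) (hZ : fZ g.val) :
    ∃ (g' : GL (Fin 6) ℂ) (α0 α1 β0 β1 γ0 γ1 δ0 δ1 : ℂ), toFlag g' = toFlag g ∧
      α0 * β1 - α1 * β0 ≠ 0 ∧ γ0 * δ1 - γ1 * δ0 ≠ 0 ∧
      ∀ W, fY (g'.val * W) ↔ fY (Nf α0 α1 β0 β1 γ0 γ1 δ0 δ1 * W) := by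
  obtain ⟨⟨c1, β0, β1, b0, b1⟩, ⟨l, hl, l0, l1, l2, l3⟩, ⟨a1, α0, α1, τ, t0, t1, t2⟩⟩ := hZ
  have hD : α0 * β1 - α1 * β0 ≠ 0 := by
    intro h
    have e1 := indep6 g ![β1, -β0, 0, 0, 0, 0]
      (by simp only [cons_val, t0, t1]; linear_combination (norm := module) h • a1)
      (by simp only [cons_val, b0, b1]; module)
    have e2 := indep6 g ![α1, -α0, 0, 0, 0, 0]
      (by simp only [cons_val, t0, t1]; module)
      (by simp only [cons_val, b0, b1]; linear_combination (norm := module) (-h) • c1)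
    have k1 : β0 = 0 := neg_eq_zero.1 (congrFun e1 1)
    have k2 : α0 = 0 := neg_eq_zero.1 (congrFun e2 1)
    have e3 := indep6 g ![1, 0, 0, 0, 0, 0] (by simp [t0, k2]) (by simp [b0, k1])
    exact one_ne_zero (congrFun e3 0)
  obtain ⟨c3, hQ⟩ := exists_third (a := c1) (b := bt g.val 2) fun s t h => by
    have e := indep6 g ![-(s * α1) - t * τ * β1, s * α0 + t * τ * β0, t * (α0 * β1 - α1 * β0),
      0, 0, 0] (by simp only [cons_val, t0, t1, t2]; module)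
      (by simp only [cons_val, b0, b1]
          linear_combination (norm := module) (α0 * β1 - α1 * β0) • h)
    have k2 : t = 0 := (mul_eq_zero.1 (congrFun e 2)).resolve_right hD
    have k0 : -(s * α1) - t * τ * β1 = 0 := congrFun e 0
    have k1 : s * α0 + t * τ * β0 = 0 := congrFun e 1
    rw [k2] at k0 k1
    exact ⟨mul_left_cancel₀ hD (by linear_combination β1 * k1 + β0 * k0), k2⟩
  set Q := (of fun i j => ![c1, bt g.val 2, c3] j i) with hQd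
  obtain ⟨n3, hn3⟩ := exists_coord hQ (bt g.val 3)
  obtain ⟨n4, hn4⟩ := exists_coord hQ (bt g.val 4)
  obtain ⟨n5, hn5⟩ := exists_coord hQ (bt g.val 5)
  have lc : l ⬝ᵥ c1 = 0 := by
    rw [b0, dotProduct_smul, smul_eq_mul] at l0
    rw [b1, dotProduct_smul, smul_eq_mul] at l1
    exact mul_left_cancel₀ hD (by linear_combination α0 * l1 - α1 * l0)
  have n32 : n3 2 = 0 := by
    by_contra h
    rw [hn3, hQd, cols_mulVec] at l3
    simp only [dotProduct_add, dotProduct_smul, lc, l2, smul_eq_mul, mul_zero, zero_add] at l3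
    refine hQ (exists_vecMul_eq_zero_iff.1 ⟨l, hl, ?_⟩)
    funext j
    fin_cases j
    exacts [lc, l2, (mul_eq_zero.1 l3).resolve_left h]
  have b3 : bt g.val 3 = n3 0 • c1 + n3 1 • bt g.val 2 := by
    rw [hn3, hQd, cols_mulVec, n32, zero_smul, add_zero]
  obtain ⟨a3, hP⟩ := exists_third (a := a1) (b := tp g.val 3) fun s t h => by
    have e := indep6 g ![s * β1 + t * n3 0 * α1 + t * n3 1 * τ * β1,
      -(s * β0) - t * n3 0 * α0 - t * n3 1 * τ * β0, -(t * n3 1 * (α0 * β1 - α1 * β0)),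
      t * (α0 * β1 - α1 * β0), 0, 0]
      (by simp only [cons_val, t0, t1, t2]
          linear_combination (norm := module) (α0 * β1 - α1 * β0) • h)
      (by simp only [cons_val, b0, b1, b3]; module)
    have k2 : t = 0 := (mul_eq_zero.1 (congrFun e 3)).resolve_right hD
    have k0 : s * β1 + t * n3 0 * α1 + t * n3 1 * τ * β1 = 0 := congrFun e 0
    have k1 : -(s * β0) - t * n3 0 * α0 - t * n3 1 * τ * β0 = 0 := congrFun e 1
    rw [k2] at k0 k1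
    exact ⟨mul_left_cancel₀ hD (by linear_combination α0 * k0 + α1 * k1), k2⟩
  set P := (of fun i j => ![a1, tp g.val 3, a3] j i) with hPd
  obtain ⟨m4, hm4⟩ := exists_coord hP (tp g.val 4)
  obtain ⟨m5, hm5⟩ := exists_coord hP (tp g.val 5)
  rw [hPd, cols_mulVec] at hm4 hm5
  rw [hQd, cols_mulVec] at hn4 hn5
  set D := α0 * β1 - α1 * β0 with hDd
  let b : M6 ℂ := !![1, 0, τ * β1 / D, -(n3 0 * α1) / D, (m4 0 * β1 - n4 0 * α1) / D,
      (m5 0 * β1 - n5 0 * α1) / D;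
    0, 1, -(τ * β0) / D, n3 0 * α0 / D, (n4 0 * α0 - m4 0 * β0) / D, (n5 0 * α0 - m5 0 * β0) / D;
    0, 0, 1, n3 1, n4 1, n5 1; 0, 0, 0, 1, m4 1, m5 1; 0, 0, 0, 0, 1, 0; 0, 0, 0, 0, 0, 1]
  have hb : ∀ i j, j < i → b i j = 0 := by
    intro i j hij
    fin_cases i <;> fin_cases j <;> first | rfl | exact absurd hij (by decide)
  set N := Nf α0 α1 β0 β1 (m4 2) (m5 2) (n4 2) (n5 2) with hN
  have hg : g.val = blk P Q * (N * b) := by
    refine ext6 (fun j => ?_) (fun j => ?_)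
    · rw [tp_blk, hN, tp_Nf, hPd, cols_mulVec]
      fin_cases j
      · simp [b, t0]
      · simp [b, t1]
      · have : α0 * (τ * β1 / D) + α1 * (-(τ * β0) / D) = τ := by field_simp; ring
        simp [b, t2, this]
      · have : α0 * (-(n3 0 * α1) / D) + α1 * (n3 0 * α0 / D) = 0 := by ring
        simp [b, this]
      · have : α0 * ((m4 0 * β1 - n4 0 * α1) / D) + α1 * ((n4 0 * α0 - m4 0 * β0) / D) = m4 0 := by
          field_simp; ring
        simpa [b, this] using hm4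
      · have : α0 * ((m5 0 * β1 - n5 0 * α1) / D) + α1 * ((n5 0 * α0 - m5 0 * β0) / D) = m5 0 := by
          field_simp; ring
        simpa [b, this] using hm5
    · rw [bt_blk, hN, bt_Nf, hQd, cols_mulVec]
      fin_cases j
      · simp [b, b0]
      · simp [b, b1]
      · have : β0 * (τ * β1 / D) + β1 * (-(τ * β0) / D) = 0 := by ring
        simp [b, this]
      · have : β0 * (-(n3 0 * α1) / D) + β1 * (n3 0 * α0 / D) = n3 0 := by field_simp; ring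
        simpa [b, this] using b3
      · have : β0 * ((m4 0 * β1 - n4 0 * α1) / D) + β1 * ((n4 0 * α0 - m4 0 * β0) / D) = n4 0 := by
          field_simp; ring
        simpa [b, this] using hn4
      · have : β0 * ((m5 0 * β1 - n5 0 * α1) / D) + β1 * ((n5 0 * α0 - m5 0 * β0) / D) = n5 0 := by
          field_simp; ring
        simpa [b, this] using hn5
  have hdet := g.det_ne_zero
  rw [hg, det_mul, det_mul] at hdet
  have hNd : N.det ≠ 0 := left_ne_zero_of_mul (right_ne_zero_of_mul hdet)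
  obtain ⟨g', hg'⟩ := exists_GL (A := blk P Q * N)
    (by rw [det_mul]; exact mul_ne_zero (det_blk hP hQ) hNd)
  obtain ⟨b', hb'⟩ := exists_GL (right_ne_zero_of_mul (right_ne_zero_of_mul hdet))
  refine ⟨g', α0, α1, β0, β1, m4 2, m5 2, n4 2, n5 2, ?_, hD, fun h => ?_, fun W => ?_⟩
  · have : g = g' * b' := Units.ext (by rw [Units.val_mul, hg', hb', hg, Matrix.mul_assoc])
    rw [this, toFlag_mul_borel g' b' (by rwa [hb'])]
  · have e1 := eq_zero_of_mulVec_eq_zero hNd (v := ![0, 0, 0, 0, n5 2, -n4 2]) (by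
      funext r
      fin_cases r <;> simp [hN, Nf, mulVec, dotProduct, Fin.sum_univ_six]
      · linear_combination h
      · ring)
    have e2 := eq_zero_of_mulVec_eq_zero hNd (v := ![0, 0, 0, 0, m5 2, -m4 2]) (by
      funext r
      fin_cases r <;> simp [hN, Nf, mulVec, dotProduct, Fin.sum_univ_six]
      · ring
      · linear_combination -h)
    have k1 : n4 2 = 0 := neg_eq_zero.1 (congrFun e1 5)
    have k2 : m4 2 = 0 := neg_eq_zero.1 (congrFun e2 5)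
    have e3 := eq_zero_of_mulVec_eq_zero hNd (v := ![0, 0, 0, 0, 1, 0]) (by
      funext r
      fin_cases r <;> simp [hN, Nf, mulVec, dotProduct, Fin.sum_univ_six, k1, k2])
    exact one_ne_zero (congrFun e3 4)
  · rw [hg', Matrix.mul_assoc, fY_left_iff hP hQ]

lemma Z_subset_sing : Sset fZ ⊆ sing (Sset fY) := by
  rintro x ⟨g, rfl, hZ⟩
  obtain ⟨g', α0, α1, β0, β1, γ0, γ1, δ0, δ1, hg, h1, h2, hW⟩ := normal_form g hZ
  exact ⟨(mem_Y g).2 hZ.fY, g', hg,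
    not_regular_Nf h1 h2 fun u => (mem_chart mem_Y g' u).trans (hW _)⟩

end

end Pool.Agent.P.MP_25f57f_ag.Six
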