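import Pool.Agent.P.MP_25f57f_ag.Six2
import Pool.Agent.P.MP_25f57f_ag.Six3
import Pool.Agent.P.MP_25f57f_ag.Six4

/-! The example with `n = 6`: the closure of the orbit `11-+22` is a component of the singular
locus of the closure of the orbit `1+-+-1`. -/

set_option autoImplicit false

open MvPolynomial Matrix

namespace Pool.Agent.P.MP_25f57f_ag.Six

noncomputable section

/-- genericity conditions -/
def qq {R : Type} [CommRing R] (θ M : M6 R) : R :=
  M 3 0 * (M 3 0 * M 4 2 - M 3 2 * M 4 0) * M 0 0 * (M 3 0 * M 0 1 - M 0 0 * M 3 1) * Nm θ M 5 4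

lemma eval_qq (M : M6 ℂ) : eval (ent M) (qq (th.map C) (Xm 6)) = qq th M := by
  have h : (Nm (th.map C) (Xm 6)).map (eval (ent M)) = Nm th M := by
    simp only [Nm, Matrix.map_mul]
    congr 2
    · refine ((eval (ent M)).map_adjugate (Xm 6)).trans ?_
      rw [RingHom.mapMatrix_apply, Xm_map]
    · ext a b; simp only [map_apply, eval_C]
    · exact Xm_map M
  have h2 : eval (ent M) (Nm (th.map C) (Xm 6) 5 4) = Nm th M 5 4 := by rw [← h, map_apply]
  simp only [qq, map_mul, map_sub, eval_Xm, h2]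

lemma g1_mem (g : GL (Fin 6) ℂ) (hg : g.val = g1) :
    toFlag g ∈ (orbit 3 3 alp : Set (FlagVar 6)) ∧ qq th g.val ≠ 0 := by
  have hq : qq th g.val ≠ 0 := by
    rw [hg, qq, Nm_eq g1_w1]
    simp only [Matrix.smul_apply, smul_eq_mul]
    refine mul_ne_zero ?_ (mul_ne_zero det_g1 (by simp [w1]))
    simp [g1]
  refine ⟨?_, hq⟩
  simp only [qq, mul_ne_zero_iff] at hq
  obtain ⟨⟨⟨⟨q1, q2⟩, q3⟩, q4⟩, q5⟩ := hq
  refine mem_alp g ?_ q1 q2 q3 q4 q5
  rw [hg]
  refine ⟨⟨![1, 0, 0], 1, -1, ?_, ?_⟩, ⟨![0, 0, 1], ?_, ?_⟩, ⟨![1, 0, 0], 1, 1, 0, ?_, ?_, ?_⟩⟩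
  · funext i; fin_cases i <;> simp [bt, g1]
  · funext i; fin_cases i <;> simp [bt, g1]
  · simp
  · simp [bt, g1]
  · funext i; fin_cases i <;> simp [tp, g1]
  · funext i; fin_cases i <;> simp [tp, g1]
  · funext i; fin_cases i <;> simp [tp, g1]

lemma maximal_main : Maximal (fun Z : Set (FlagVar 6) => IsIrreducible Z ∧
    Z ⊆ sing (closure (orbit 3 3 gam : Set (FlagVar 6))))
    (closure (orbit 3 3 alp : Set (FlagVar 6))) := by
  rw [closure_gam]
  obtain ⟨g1', hg1⟩ := exists_GL det_g1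
  obtain ⟨m1, q1⟩ := g1_mem g1' hg1
  refine ⟨⟨IsIrreducible.closure ⟨⟨_, m1⟩, isPreirreducible_orbit 3 3 alp⟩,
    (closure_minimal orbit_alp_subset isClosed_Z).trans Z_subset_sing⟩, fun Z hZ hle => ?_⟩
  have hsub : Z ⊆ closure (orbit 3 3 alp : Set (FlagVar 6)) ∪ {x : FlagVar 6 |
      ∀ g : GL (Fin 6) ℂ, toFlag g = x → eval (ent g.val) (qq (th.map C) (Xm 6)) = 0} := by
    intro x hx
    obtain ⟨hxY, g, rfl, hreg⟩ := hZ.2 hx
    by_contra hc
    rw [Set.mem_union, not_or] at hc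
    obtain ⟨hc1, hc2⟩ := hc
    simp only [Set.mem_ofPred_eq, not_forall, eval_qq] at hc2
    obtain ⟨g', hg', hq⟩ := hc2
    have hq' : qq th g'.val ≠ 0 := hq
    simp only [qq, mul_ne_zero_iff] at hq'
    obtain ⟨⟨⟨⟨q1, q2⟩, q3⟩, q4⟩, q5⟩ := hq'
    have hY := (mem_Y g).1 hxY
    obtain ⟨b, hb, he⟩ := exists_borel hg'.symm
    by_cases hE : cE g.val
    · have hZ' : fZ g'.val := he ▸ fZ.right b hb ⟨hY.1, hY.2.1, hE⟩
      exact hc1 (hg' ▸ subset_closure (mem_alp g' hZ' q1 q2 q3 q4 q5))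
    · apply hreg
      obtain ⟨a1, -⟩ := (cA_iff _).1 hY.1
      rw [he, (mul_col _ b hb 3).1] at q1
      rw [he, (mul_col _ b hb 3).1, (mul_col _ b hb 4).1, (mul_col _ b hb 3).2.2.1,
        (mul_col _ b hb 4).2.2.1] at q2
      refine regular_off g hY (left_ne_zero_of_mul q1) (fun h => q2 ?_) hE
      linear_combination (b 0 0 * b 1 2) * a1 + (b 0 0 * b 2 2) * h
  rcases isPreirreducible_iff_isClosed_union_isClosed.1 hZ.1.2 _ _ isClosed_closure
    (isClosed_forall_rep _) hsub with h | h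
  · exact h
  · exact absurd ((eval_qq _).symm.trans (h (hle (subset_closure m1)) g1' rfl)) q1

lemma ncard_eq (c : Fin 6 → ℤˣ ⊕ ℕ) (s : ℤˣ ⊕ ℕ) :
    {i | c i = s}.ncard = (Finset.univ.filter fun i => c i = s).card := by
  rw [← Set.ncard_coe_finset]; congr 1; ext i; simp

lemma isClan_gam : IsClan 3 3 gam := by
  refine ⟨fun k => ?_, ?_⟩
  · change {i | gam i = Sum.inr k}.ncard = 0 ∨ {i | gam i = Sum.inr k}.ncard = 2
    rw [ncard_eq]
    by_cases h1 : k = 1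
    · subst h1; right; decide
    · left
      rw [Finset.card_eq_zero, Finset.filter_eq_empty_iff]
      intro i _
      fin_cases i <;> simp [gam] <;> omega
  · change ({i | gam i = Sum.inl 1}.ncard : ℤ) - ({i | gam i = Sum.inl (-1)}.ncard : ℤ) = _
    rw [ncard_eq, ncard_eq]
    decide

lemma isClan_alp : IsClan 3 3 alp := by
  refine ⟨fun k => ?_, ?_⟩
  · change {i | alp i = Sum.inr k}.ncard = 0 ∨ {i | alp i = Sum.inr k}.ncard = 2
    rw [ncard_eq]
    by_cases h1 : k = 1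
    · subst h1; right; decide
    by_cases h2 : k = 2
    · subst h2; right; decide
    · left
      rw [Finset.card_eq_zero, Finset.filter_eq_empty_iff]
      intro i _
      fin_cases i <;> simp [alp] <;> omega
  · change ({i | alp i = Sum.inl 1}.ncard : ℤ) - ({i | alp i = Sum.inl (-1)}.ncard : ℤ) = _
    rw [ncard_eq, ncard_eq]
    decide

lemma arcs_gam : {ij : Fin 6 × Fin 6 | IsArc gam ij.1 ij.2} = {(0, 5)} := by
  ext ⟨i, j⟩
  constructor
  · intro h
    obtain ⟨rfl, rfl⟩ := arc_gam h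
    rfl
  · intro h
    obtain ⟨rfl, rfl⟩ := Prod.ext_iff.1 (Set.mem_singleton_iff.1 h)
    exact ⟨by decide, 1, rfl, rfl⟩

lemma arcs_alp : {ij : Fin 6 × Fin 6 | IsArc alp ij.1 ij.2} = {(0, 1), (4, 5)} := by
  ext ⟨i, j⟩
  constructor
  · intro h
    rcases arc_alp h with ⟨rfl, rfl⟩ | ⟨rfl, rfl⟩
    · exact Or.inl rfl
    · exact Or.inr rfl
  · rintro (h | h)
    · obtain ⟨rfl, rfl⟩ := Prod.ext_iff.1 h
      exact ⟨by decide, 1, rfl, rfl⟩
    · obtain ⟨rfl, rfl⟩ := Prod.ext_iff.1 (Set.mem_singleton_iff.1 h)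
      exact ⟨by decide, 2, rfl, rfl⟩

lemma arcs_lt : {ij : Fin 6 × Fin 6 | IsArc gam ij.1 ij.2}.ncard <
    {ij : Fin 6 × Fin 6 | IsArc alp ij.1 ij.2}.ncard := by
  rw [arcs_gam, arcs_alp, Set.ncard_singleton, Set.ncard_pair (by decide)]
  decide

lemma adj_alp (i j : Fin 6) (h : IsArc alp i j) : (j : ℕ) = (i : ℕ) + 1 := by
  rcases arc_alp h with ⟨rfl, rfl⟩ | ⟨rfl, rfl⟩ <;> rfl

end

end Pool.Agent.P.MP_25f57f_ag.Six
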